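import Pool.Agent.V1141.OF.Good

/-!
# No relations for families of Weil numbers in independent fields
-/

set_option autoImplicit false
set_option linter.unusedSectionVars false

namespace Pool.Agent.V1141.OF

open NumberField Module Pool.Agent.H925R2 Pool.Agent.H485R3 Pool.Agent.H204R3.CM
  Pool.Agent.H868R3.TwoOdd Pool.Agent.H194R3.CM Pool.Agent.H194R3.Tate Pool.Agent.V1141.SL

/-- embeddings in other fields factor through `L` -/
theorem exists_lift' {L : Type} [Field L] [NumberField L] {F : Type} [Field F] [NumberField F]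
    (j : L →+* ℂ) (h : ∀ ψ : F →+* ℂ, ∃ φ : F →+* L, j.comp φ = ψ) {Ω : Type} [Field Ω]
    [Algebra ℚ Ω] (e : L →ₐ[ℚ] Ω) (σ : F →ₐ[ℚ] Ω) : ∃ σ' : F →ₐ[ℚ] L, e.comp σ' = σ := by
  have hc : CharZero Ω := charZero_of_injective_algebraMap (algebraMap ℚ Ω).injective
  let i : Ω →+* AlgebraicClosure Ω := algebraMap Ω (AlgebraicClosure Ω)
  obtain ⟨φ, hφ⟩ := exists_lift j h (RingHom.toRatAlgHom (i.comp (e : L →+* Ω)))
    (i.comp (σ : F →+* Ω))
  refine ⟨RingHom.toRatAlgHom φ, ?_⟩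
  ext x
  apply i.injective
  exact RingHom.congr_fun hφ x

variable {p m : ℕ} [Fact p.Prime] {K : Type} [Field K] [NumberField K] [IsCMField K]

/-- A vector on the embeddings which is orthogonal to all translates of the vector of slopes
vanishes. -/
theorem good_block {L : Type} [Field L] [NumberField L] [IsGalois ℚ L] (j : L →+* ℂ)
    (h : ∀ ψ : K →+* ℂ, ∃ φ : K →+* L, j.comp φ = ψ) (e : L →ₐ[ℚ] PadicAlgCl p) {π : K}
    (hπ0 : π ≠ 0) (hg : Good p (π ^ 2 / (p : K) ^ m)) (c : (K →+* L) → ℤ)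
    (hc : ∀ φ, c (cbar φ) = -c φ)
    (hrel : ∀ g : L ≃ₐ[ℚ] L, ∑ φ : K →+* L, (c φ : ℝ) *
      dev p ((p : ℚ) ^ m) (e ((g • φ) π)) = 0) (φ : K →+* L) : c φ = 0 := by
  classical
  have hp : p.Prime := Fact.out
  have key := hg L e (fun e' σ => exists_lift' j h e' σ) (fun φ => c (φ : K →+* L)) ⟨?_, ?_⟩
    (RingHom.toRatAlgHom φ)
  · exact key
  · intro φ
    rw [← hc]
    rfl
  · intro g
    rw [← hrel g]
    refine Fintype.sum_equiv (RingHom.equivRatAlgHom K L).symm _ _ fun ψ => ?_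
    have h1 : (RingHom.equivRatAlgHom K L).symm ψ = (ψ : K →+* L) := rfl
    rw [h1]
    congr 1
    unfold sl dev
    have h2 : (g • ψ) (π ^ 2 / (p : K) ^ m) = ((g • (ψ : K →+* L)) π) ^ 2 / (p : L) ^ m := by
      rw [map_div₀, map_pow, map_pow, map_natCast]
      rfl
    have hne : e ((g • (ψ : K →+* L)) π) ≠ 0 := (map_ne_zero e).2 ((map_ne_zero _).2 hπ0)
    have hpn : (p : PadicAlgCl p) ≠ 0 := by exact_mod_cast hp.ne_zero
    rw [h2, map_div₀, map_pow, map_pow, map_natCast, norm_div, norm_pow,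
      Real.log_div (pow_ne_zero _ (norm_ne_zero_iff.2 hne))
        (norm_ne_zero_iff.2 (pow_ne_zero _ hpn)), Real.log_pow]
    push_cast
    rfl

/-- The Weil number `π` with `π * conj π = p ^ m` has one of the following properties, with
`α = π ^ 2 / p ^ m` (all powers of `α` generate the field):

* twice the largest `p`-adic slope `log ‖σ₀ α‖` is greater than the sum of the positive slopes, or equal to
  it and there is no norm relation (`HasDominantSlope`);
* the degree of the field is twice a prime number and there is no norm relation;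
* `HasOddSlopeSum` for a prime number `ℓ`. -/
def NormalType (p m : ℕ) [Fact p.Prime] {K : Type} [Field K] [NumberField K] [IsCMField K] (π : K) :
    Prop :=
  IsWeilUnit p m (π ^ 2 / (p : K) ^ m) ∧ (HasDominantSlope p (π ^ 2 / (p : K) ^ m) ∨
    (∃ d : ℕ, d.Prime ∧ finrank ℚ K = 2 * d ∧ Y103.Hk.NoNormRelation (π ^ 2 / (p : K) ^ m)) ∨
    ∃ ℓ : ℕ, ℓ.Prime ∧ HasOddSlopeSum p ℓ (π ^ 2 / (p : K) ^ m))

theorem NormalType.good {π : K} (h : NormalType p m π) : Good p (π ^ 2 / (p : K) ^ m) := by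
  obtain ⟨h1, h2 | ⟨d, hd, h2, h3⟩ | ⟨ℓ, hℓ, h2⟩⟩ := h
  · exact good_dominant h1 h2
  · exact good_prime h1 h2 hd h3
  · exact good_odd h1 hℓ h2

end Pool.Agent.V1141.OF

namespace Pool.Agent.V1141.OF

open NumberField Module Pool.Agent.H925R2 Pool.Agent.H485R3 Pool.Agent.H204R3.CM
  Pool.Agent.H868R3.TwoOdd Pool.Agent.H194R3.CM Pool.Agent.H194R3.Tate Pool.Agent.V1141.SL

variable {I : Type*} (p : ℕ) [Fact p.Prime] {K : I → Type} [∀ i, Field (K i)]
  [∀ i, NumberField (K i)] [∀ i, IsCMField (K i)]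

/-- **No relations for families.** -/
theorem norel_of_normal [Fintype I] (m : I → ℕ) (π : ∀ i, K i)
    (hweil : ∀ i, ∀ φ : K i →+* ℂ, ‖φ (π i)‖ ^ 2 = (((p : ℚ) ^ m i : ℚ) : ℝ))
    (hπ : ∀ i, PairType p (m i) (π i) ∨ FlipType p (m i) (π i) ∨ NormalType p (m i) (π i))
    (hcross : ∀ i j, i ≠ j → ∀ (φ : K i →+* ℂ) (ψ : K j →+* ℂ), CrossFlipped φ ψ) :
    Pool.Agent.H194R3.Tate.NoRel p (fun i => (p : ℚ) ^ m i) π := by
  classical
  intro L _ _ j h e c hc hrel
  have hp : p.Prime := Fact.out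
  have hq : ∀ i, (0 : ℚ) < (p : ℚ) ^ m i := fun i => pow_pos (by exact_mod_cast hp.pos) _
  let X := Σ i, (K i →+* L)
  let G := L ≃ₐ[ℚ] L
  have hG : ∀ (g : G) (x : X), g • inj x = inj (g • x) := by
    rintro g ⟨a, φ⟩
    rfl
  obtain ⟨hblock, -⟩ := core_block_real (X := X) (G := G) inj hG (fun x => x.1) (slope p _ π e)
    (slope_inj p hq hweil e)
    (fun x y hxy => by
      have hfl : Flipped (⟨x.1, j.comp x.2⟩ : Σ i, (K i →+* ℂ)) ⟨y.1, j.comp y.2⟩ := by
        obtain ⟨τ, ⟨h1, h2⟩ | ⟨h1, h2⟩⟩ := hcross x.1 y.1 (fun h' => hxy h'.symm) (j.comp x.2)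
          (j.comp y.2)
        · exact ⟨τ, Or.inl ⟨congrArg (Sigma.mk x.1) h1, congrArg (Sigma.mk y.1) h2⟩⟩
        · exact ⟨τ, Or.inr (Or.inl ⟨congrArg (Sigma.mk x.1) h1, congrArg (Sigma.mk y.1) h2⟩)⟩
      obtain ⟨g, hg | hg | hg⟩ := flip_transfer j x y hfl
      · exact ⟨g, Or.inl hg⟩
      · exact ⟨g, Or.inr hg⟩
      · exfalso
        apply hxy
        exact (congrArg Sigma.fst hg.1).symm) c hrel
  have hblock' : ∀ i, ∀ g : G, ∑ φ : K i →+* L, (c ⟨i, φ⟩ : ℝ) *
      dev p ((p : ℚ) ^ m i) (e ((g • φ) (π i))) = 0 := by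
    intro i g
    rw [← hblock i g, Finset.sum_filter, Fintype.sum_sigma, Finset.sum_eq_single i]
    · refine Finset.sum_congr rfl fun φ _ => ?_
      rw [if_pos rfl]
      rfl
    · intro b _ hb
      refine Finset.sum_eq_zero fun φ _ => ?_
      rw [if_neg hb]
    · intro h
      exact absurd (Finset.mem_univ _) h
  rintro ⟨i, φ₀⟩
  rcases hπ i with hP | hF | hN
  · -- use the theorem for mixed families, with one member
    have h1 := norel_of_mixed p (I := Unit) (K := fun _ => K i) (fun _ => m i) (fun _ => π i)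
      (fun _ => hweil i) (fun _ => Or.inl hP) (fun a b hab => absurd (Subsingleton.elim a b) hab)
      L inferInstance inferInstance j (fun _ => h i) e (fun x => c ⟨i, x.2⟩) (fun x => hc ⟨i, x.2⟩)
      (fun g => by
        rw [Fintype.sum_sigma, Fintype.sum_unique, ← hblock' i g]
        rfl) ⟨(), φ₀⟩
    exact h1
  · have h1 := norel_of_mixed p (I := Unit) (K := fun _ => K i) (fun _ => m i) (fun _ => π i)
      (fun _ => hweil i) (fun _ => Or.inr hF) (fun a b hab => absurd (Subsingleton.elim a b) hab)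
      L inferInstance inferInstance j (fun _ => h i) e (fun x => c ⟨i, x.2⟩) (fun x => hc ⟨i, x.2⟩)
      (fun g => by
        rw [Fintype.sum_sigma, Fintype.sum_unique, ← hblock' i g]
        rfl) ⟨(), φ₀⟩
    exact h1
  · exact good_block j (h i) e (weil_ne (hq i) (hweil i)) hN.good (fun φ => c ⟨i, φ⟩)
      (fun φ => hc ⟨i, φ⟩) (hblock' i) φ₀

end Pool.Agent.V1141.OF
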