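import Pool.Agent.V1141.OF.Times4

/-!
# A criterion: automorphisms which conjugate the eigenvalues
-/

set_option autoImplicit false
set_option linter.unusedSectionVars false

namespace Pool.Agent.V1141.OF

open Module

noncomputable section

variable {k : Type} [Field k] [CharZero k] {I : Type} {V : I → Type}
  [∀ i, AddCommGroup (V i)] [∀ i, Module k (V i)] [∀ i, FiniteDimensional k (V i)]
  {Γ : Type} [Group Γ] (ρ : ∀ i, Representation k Γ (V i)) (χ : Γ →* k) (e : I → ℕ)
  {γ : Γ}

/-- eigenvalues are mapped to eigenvalues -/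
theorem eigen_map {σ : k →+* k} {i : I}
    (hσ : (LinearMap.charpoly (ρ i γ)).map σ = LinearMap.charpoly (ρ i γ)) {a : k}
    (ha : Module.End.HasEigenvalue (ρ i γ) a) : Module.End.HasEigenvalue (ρ i γ) (σ a) := by
  rw [Module.End.hasEigenvalue_iff_isRoot_charpoly] at ha ⊢
  rw [← hσ]
  exact ha.map

/-- the dual eigenvalue -/
theorem eigen_dual {V : Type} [AddCommGroup V] [Module k V] [FiniteDimensional k V]
    (ω : V →ₗ[k] V →ₗ[k] k) (hnd : ∀ u, (∀ v, ω v u = 0) → u = 0) {T : Module.End k V} {c : k}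
    (hc : c ≠ 0) (hT : ∀ u v, ω (T u) (T v) = c * ω u v) {a b : k} (ha : T.HasEigenvalue a)
    (hab : a * b = c) : T.HasEigenvalue b := by
  have ha0 : a ≠ 0 := fun h => hc (by rw [← hab, h, zero_mul])
  obtain ⟨u, hu⟩ := ha.exists_hasEigenvector
  by_contra hb
  -- `T - b` is surjective
  have h1 : Function.Injective (T - algebraMap k (Module.End k V) b) := by
    rw [injective_iff_map_eq_zero]
    intro v hv
    by_contra hv0
    apply hb
    refine Module.End.hasEigenvalue_of_hasEigenvector (x := v) ⟨?_, hv0⟩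
    rw [Module.End.mem_eigenspace_iff]
    rw [LinearMap.sub_apply, Module.algebraMap_end_apply, sub_eq_zero] at hv
    exact hv
  have h2 : Function.Surjective (T - algebraMap k (Module.End k V) b) :=
    LinearMap.surjective_of_injective h1
  apply hu.2
  apply hnd
  intro v
  obtain ⟨w, rfl⟩ := h2 v
  rw [LinearMap.sub_apply, Module.algebraMap_end_apply, map_sub, map_smul, LinearMap.sub_apply,
    LinearMap.smul_apply, smul_eq_mul]
  have h3 := hT w u
  rw [hu.apply_eq_smul, map_smul, smul_eq_mul, ← hab, mul_assoc] at h3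
  have h4 := mul_left_cancel₀ ha0 h3
  rw [h4, sub_self]

/-- **The criterion.** -/
theorem onlyTrivial_of_conj (ω : ∀ i, V i →ₗ[k] V i →ₗ[k] k)
    (hnd : ∀ i, ∀ u, (∀ v, ω i v u = 0) → u = 0)
    (hω : ∀ i s u v, ω i (ρ i s u) (ρ i s v) = χ s ^ (2 * e i + 1) * ω i u v)
    (h1 : OnlyTrivialRelations ρ χ e γ 1) {β : k} (hβ : ConjugatedOver ρ χ e γ β) :
    OnlyTrivialRelations ρ χ e γ β := by
  classical
  have hχ : χ γ ≠ 0 := chi_ne χ γ
  intro n t α N r r' hN hα hrel i a b hab
  have hc : ∀ i, χ γ ^ (2 * e i + 1) ≠ 0 := fun i => pow_ne_zero _ hχ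
  have hα0 : ∀ l, α l ≠ 0 := by
    intro l h
    obtain ⟨u, hu⟩ := (hα l).exists_hasEigenvector
    apply hu.2
    have h2 : ρ (t l) γ⁻¹ (ρ (t l) γ u) = u := by
      rw [← Module.End.mul_apply, ← map_mul, inv_mul_cancel, map_one, Module.End.one_apply]
    rw [hu.apply_eq_smul, h, zero_smul, map_zero] at h2
    exact h2.symm
  by_cases ha : Module.End.HasEigenvalue (ρ i γ) a
  · obtain ⟨σ, j, hj, hσβ, hσχ, hσc, hσa⟩ := hβ i a ha
    have ha0 : a ≠ 0 := fun h => hc i (by rw [← hab, h, zero_mul])
    have hσab : σ a = b := mul_left_cancel₀ ha0 (by rw [hσa, hab])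
    have hσba : σ b = a := by
      have h2 := congrArg σ hab
      rw [map_mul, hσab, map_pow, hσχ, ← hab, mul_comm a b] at h2
      exact mul_left_cancel₀ (fun h => hc i (by rw [← hab, h, mul_zero])) h2
    -- the product is fixed by `σ`, up to a power
    have h2 : (∏ l, α l) ^ (N * j) * χ γ ^ (N * r * j) = (β ^ j) ^ N * χ γ ^ (N * r' * j) := by
      rw [pow_mul, pow_mul _ (N * r) j, ← mul_pow, hrel, mul_pow, ← pow_mul, ← pow_mul, ← pow_mul,
        mul_comm N j]
    have h3 := congrArg σ h2
    have hσβ' : σ β ^ j = β ^ j := by rw [← map_pow, hσβ]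
    simp only [map_mul, map_pow, hσχ, hσβ'] at h3
    rw [← h2] at h3
    have h4 := mul_right_cancel₀ (pow_ne_zero _ hχ) h3
    -- the relation of the conjugates
    let α' : Fin n ⊕ Fin n → k := Sum.elim (fun l => σ (α l))
      (fun l => χ γ ^ (2 * e (t l) + 1) / α l)
    let t' : Fin n ⊕ Fin n → I := Sum.elim t t
    have h5 := h1 (n + n) (fun l => t' (finSumFinEquiv.symm l))
      (fun l => α' (finSumFinEquiv.symm l)) (N * j) 0 (∑ l, (2 * e (t l) + 1))
      (Nat.mul_pos hN hj) (fun l => by
        rcases finSumFinEquiv.symm l with l | l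
        · exact eigen_map ρ (hσc _) (hα l)
        · exact eigen_dual (ω (t l)) (hnd _) (hc _) (hω (t l) γ) (hα l)
            (mul_div_cancel₀ _ (hα0 l))) (by
        have h6 : ∏ l, α' (finSumFinEquiv.symm l) =
            (∏ l, σ (α l)) * ∏ l, χ γ ^ (2 * e (t l) + 1) / α l := by
          rw [Equiv.prod_comp finSumFinEquiv.symm α', Fintype.prod_sum_type]
          rfl
        rw [h6, mul_pow, ← map_prod, h4, Finset.prod_div_distrib, div_pow, Finset.prod_pow_eq_pow_sum,
          mul_div_cancel₀ _ (pow_ne_zero _ (Finset.prod_ne_zero_iff.2 fun l _ => hα0 l)), mul_zero,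
          pow_zero, mul_one, one_pow, one_mul, ← pow_mul, mul_comm]) i a b hab
    have h6 : ∀ c c' : k, σ c' = c → c' * c = χ γ ^ (2 * e i + 1) →
        Nat.card {l // t' (finSumFinEquiv.symm l) = i ∧ α' (finSumFinEquiv.symm l) = c} =
          Nat.card {l // t l = i ∧ α l = c'} + Nat.card {l // t l = i ∧ α l = c'} := by
      intro c c' hc1 hc2
      have h7 : Nat.card {l // t' (finSumFinEquiv.symm l) = i ∧ α' (finSumFinEquiv.symm l) = c} =
          Nat.card {l : Fin n ⊕ Fin n // t' l = i ∧ α' l = c} :=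
        Nat.card_congr (Equiv.subtypeEquiv finSumFinEquiv.symm fun l => Iff.rfl)
      rw [h7, Nat.card_congr (Equiv.subtypeSum), Nat.card_sum]
      congr 1
      · refine Nat.card_congr (Equiv.subtypeEquiv (Equiv.refl _) fun l => ?_)
        change (t l = i ∧ σ (α l) = c) ↔ (t l = i ∧ α l = c')
        refine and_congr_right fun _ => ⟨fun h => σ.injective (h.trans hc1.symm), fun h => ?_⟩
        rw [h, hc1]
      · refine Nat.card_congr (Equiv.subtypeEquiv (Equiv.refl _) fun l => ?_)
        change (t l = i ∧ χ γ ^ (2 * e (t l) + 1) / α l = c) ↔ (t l = i ∧ α l = c')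
        refine and_congr_right fun h => ?_
        rw [h, div_eq_iff (hα0 l)]
        constructor
        · intro h8
          rw [← hc2, mul_comm c'] at h8
          exact (mul_left_cancel₀ (fun h9 => hc i (by rw [← hc2, h9, mul_zero])) h8).symm
        · intro h8
          rw [h8, ← hc2, mul_comm]
    rw [h6 a b hσba (by rw [mul_comm]; exact hab), h6 b a hσab hab] at h5
    omega
  · have hb : ¬ Module.End.HasEigenvalue (ρ i γ) b := fun h =>
      ha (eigen_dual (ω i) (hnd i) (hc i) (hω i γ) h (by rw [mul_comm]; exact hab))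
    have h2 : ∀ c, ¬ Module.End.HasEigenvalue (ρ i γ) c →
        Nat.card {l // t l = i ∧ α l = c} = 0 := by
      intro c hc
      rw [Nat.card_eq_zero]
      left
      refine ⟨?_⟩
      rintro ⟨l, h3, h4⟩
      apply hc
      rw [← h4]
      subst h3
      exact hα l
    rw [h2 a ha, h2 b hb]

end

end Pool.Agent.V1141.OF
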