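import Pool.Agent.V1141.OF.Multi
import Pool.Agent.W527.FrobMild

/-!
# Products of varieties in characteristic zero, one Frobenius element with mild Weil numbers
-/

set_option autoImplicit false
set_option linter.unusedSectionVars false

namespace Pool.Agent.V1141.OF

open NumberField Module Pool.Agent.H204R3.CM Pool.Agent.H977R3.WN Pool.Agent.H485R3.Exact
  Pool.Agent.H204R3.GP Pool.Agent.H204R3.SP IntermediateField Pool.Agent.W527

noncomputable section

/-- slopes after a Tate twist -/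
theorem slope_twist {p : ℕ} [hp : Fact p.Prime] (a e : ℕ) {K : Type} [Field K] {π : K}
    (hπ : π ≠ 0) (τ : K →+* PadicAlgCl p) :
    2 * (- Real.logb p ‖τ (π / (p : K) ^ (a * e))‖) - a =
      2 * (- Real.logb p ‖τ π‖) - ((a * (2 * e + 1) : ℕ) : ℝ) := by
  have hp0 : (p : PadicAlgCl p) ≠ 0 := by exact_mod_cast hp.out.ne_zero
  have hp1 : (1 : ℝ) < p := by exact_mod_cast hp.out.one_lt
  have hlogp : 0 < Real.log p := Real.log_pos hp1
  have h0 : ‖τ π‖ ≠ 0 := norm_ne_zero_iff.2 ((map_ne_zero τ).2 hπ)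
  have h1 : τ (π / (p : K) ^ (a * e)) = τ π / (p : PadicAlgCl p) ^ (a * e) := by
    rw [map_div₀, map_pow, map_natCast]
  rw [h1, norm_div, norm_pow, Real.logb, Real.logb, Real.log_div h0
    (pow_ne_zero _ (norm_ne_zero_iff.2 hp0)), Real.log_pow, log_norm_p]
  push_cast
  field_simp
  ring

theorem multi_of_mild {k : Type} [Field k] [CharZero k] {I : Type} [Fintype I] [DecidableEq I]
    {V : I → Type}
    [∀ i, AddCommGroup (V i)] [∀ i, Module k (V i)] [∀ i, FiniteDimensional k (V i)] {Γ : Type}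
    [Group Γ] (ρ : ∀ i, Representation k Γ (V i)) (χ : Γ →* k) (e : I → ℕ)
    (ω : ∀ i, V i →ₗ[k] V i →ₗ[k] k) (halt : ∀ i, ∀ v, ω i v v = 0)
    (hnd : ∀ i, ∀ u, (∀ v, ω i v u = 0) → u = 0)
    (hω : ∀ i s u v, ω i (ρ i s u) (ρ i s v) = χ s ^ (2 * e i + 1) * ω i u v)
    {p : ℕ} [Fact p.Prime] {a : ℕ} (ha : 0 < a) {J : Type} [Fintype J] (c : J → I) {K : J → Type}
    [∀ j, Field (K j)] [∀ j, NumberField (K j)] [∀ j, IsCMField (K j)] {π : ∀ j, K j}
    (hint : ∀ j, IsIntegral ℤ (π j)) (hgen : ∀ j, ℚ⟮π j⟯ = ⊤)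
    (hw : ∀ j, π j * IsCMField.complexConj (K j) (π j) = (p : K j) ^ (a * (2 * e (c j) + 1)))
    (hmild : Norm.Mild p (fun j => a * (2 * e (c j) + 1)) π)
    (hsep : Norm.Separated p (fun j => a * (2 * e (c j) + 1)) π)
    (γ : Γ) (hχ : χ γ = (p : k) ^ a)
    (hγ : ∀ i, (ρ i γ).charpoly =
      ∏ j with c j = i, (minpoly ℚ (π j)).map (algebraMap ℚ k)) :
    TateGeneratedByPairs ρ χ e := by
  classical
  have hp : p ≠ 0 := (Fact.out : p.Prime).ne_zero
  have hpK : ∀ j, (p : K j) ≠ 0 := fun j => by exact_mod_cast hp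
  have hweil : ∀ j, ∀ φ : K j →+* ℂ, ‖φ (π j)‖ ^ 2 = (p : ℝ) ^ (a * (2 * e (c j) + 1)) := by
    intro i φ
    have h1 := congrArg (fun x => ‖φ x‖) (hw i)
    simp only [map_mul, map_pow, map_natCast, norm_mul, norm_pow, Complex.norm_natCast] at h1
    rw [IsCMField.complexEmbedding_complexConj, Complex.norm_conj] at h1
    rw [sq]
    exact h1
  have hπ : ∀ j, π j ≠ 0 := fun j => ne_zero_of_weil (p := p) (hweil j)
  have hπ' : ∀ j, π j / (p : K j) ^ (a * e (c j)) ≠ 0 := fun j =>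
    div_ne_zero (hπ j) (pow_ne_zero _ (hpK j))
  have hw' : ∀ j, (π j / (p : K j) ^ (a * e (c j))) *
      IsCMField.complexConj (K j) (π j / (p : K j) ^ (a * e (c j))) = (p : K j) ^ a := by
    intro j
    have h1 := hw j
    have h2 := pow_ne_zero (a * e (c j)) (hpK j)
    rw [map_div₀, map_pow, map_natCast, div_mul_div_comm, h1, div_eq_iff (mul_ne_zero h2 h2),
      ← pow_add, ← pow_add]
    congr 1
    ring
  choose D u hD hslopes hu using fun j => exists_hasSlopes (p := p) ha (hπ' j)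
  obtain ⟨L, hL1, hL2, j₀, h⟩ := Pool.Agent.H204R3.CM.exists_galois K
  let jp : L →ₐ[ℚ] PadicAlgCl p := IsAlgClosed.lift
  have hfree := free_of_mild (m := fun j => a * (2 * e (c j) + 1)) hint hweil hmild hsep
      (κ := fun j => ((D j : ℚ))⁻¹) (fun j => by
        have := hD j
        positivity) (u := u) (fun j τ => by
        have h1 := hu j τ
        rw [slope_twist a (e (c j)) (hπ j) τ] at h1
        exact h1) j₀ h (jp : L →+* PadicAlgCl p)
  refine multi_of_neat ρ χ e ω halt hnd hω c hgen hw γ hχ hγ j₀ h ?_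
  intro m M hM I' hI' y
  exact balance_free ha hw' (N := fun j => a * D j) (fun j => Nat.mul_pos ha (hD j)) hslopes
    (jp : L →+* PadicAlgCl p) hfree hM I' hI' y

end

end Pool.Agent.V1141.OF
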