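import Pool.Agent.V1141.OF.TateF
import Pool.Agent.V1141.OF.Mix
import Pool.Agent.H204R3.GP.Hom
import Pool.Agent.H204R3.GP.HomDefs
import Pool.Agent.H204R3.GP.Defs

/-!
# Tate classes from one Frobenius element, without semisimplicity
-/

set_option autoImplicit false
set_option linter.unusedSectionVars false

namespace Pool.Agent.V1141.OF

open NumberField Module Pool.Agent.H204R3.GP Pool.Agent.H204R3.SP IntermediateField
  Pool.Agent.H194R3.CM Pool.Agent.H194R3.Tate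

/-- both conclusions for one Frobenius element without relations -/
theorem both_of_neat {k : Type} [Field k] [CharZero k] {p : ℕ} [Fact p.Prime] {a : ℕ} (ha : 0 < a)
    {ι : Type} [Fintype ι] {F : ι → Type} [∀ i, Field (F i)] [∀ i, NumberField (F i)]
    [∀ i, IsCMField (F i)] {π : ∀ i, F i} (hgen : ∀ i, ℚ⟮π i⟯ = ⊤)
    (hw : ∀ i, π i * IsCMField.complexConj (F i) (π i) = (p : F i) ^ a)
    {L : Type} [Field L] [NumberField L] [IsGalois ℚ L] (j : L →+* ℂ)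
    (h : ∀ i, ∀ ψ : F i →+* ℂ, ∃ φ : F i →+* L, j.comp φ = ψ) (hneat : Neat p a π L)
    {V : Type} [AddCommGroup V] [Module k V] [FiniteDimensional k V]
    {Γ : Type} [Group Γ] (ρ : Representation k Γ V) (χ : Γ →* k)
    (ω : V →ₗ[k] V →ₗ[k] k) (halt : ∀ v, ω v v = 0) (hnondeg : ∀ u, (∀ v, ω v u = 0) → u = 0)
    (hω : ∀ s u v, ω (ρ s u) (ρ s v) = χ s * ω u v)
    (γ : Γ) (hχ : χ γ = (p : k) ^ a)
    (hγ : (ρ γ).charpoly = ∏ i, (minpoly ℚ (π i)).map (algebraMap ℚ k)) :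
    TateGeneratedInDegreeTwo ρ χ ∧ HomsGeneratedInDegreeTwo ρ χ ω := by
  have key : ∀ (m : ℕ) (φ : MultilinearMap k (fun _ : Fin m × Fin 2 => V) k),
      IsTate ρ χ m φ → φ ∈ Submodule.span k (PT ρ χ m) := fun m φ hφ =>
    tate_of_neat' ha hgen hw j h hneat ρ χ ω halt hnondeg hω γ hχ hγ φ hφ
  refine ⟨?_, homs_generated ρ χ ω halt hnondeg hω key⟩
  intro n m f hf
  obtain ⟨Δ, hΔ, hf⟩ := hf
  have h1 := altG_of_tate_mem ρ χ (n := n) (m := m) (fun φ hφ => key m φ hφ) f Δ hΔ hf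
  refine Submodule.span_mono ?_ h1
  rintro g ⟨B, hB, hg⟩
  refine ⟨B, fun l => ?_, hg⟩
  obtain ⟨Δ', hΔ', h2⟩ := hB l
  refine ⟨Δ', hΔ', fun s hs v => ?_⟩
  rw [pow_one]
  exact h2 s hs v

end Pool.Agent.V1141.OF
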