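import Mathlib

/-!
# Homomorphisms between tensor powers of a Galois representation
-/

set_option autoImplicit false

namespace Pool.Agent.V1141.OF

open scoped TensorProduct

variable {k V Γ : Type} [Field k] [AddCommGroup V] [Module k V] [Group Γ]

/-- The endomorphism `P` of `V` commutes with a subgroup of finite index of the Galois group. -/
def IsTateEndo (ρ : Representation k Γ V) (P : Module.End k V) : Prop :=
  ∃ Δ : Subgroup Γ, Δ.FiniteIndex ∧ ∀ g ∈ Δ, ∀ v, P (ρ g v) = ρ g (P v)

/-- `f` is a homomorphism `V ^ {⊗ s} → V ^ {⊗ t} (c)` for a subgroup of finite index of the Galois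
group, `c` any integer: the Tate twist is given by the character `χ`. -/
def IsTateHomomorphism (ρ : Representation k Γ V) (χ : Γ →* k) (c : ℤ) {s t : ℕ}
    (f : (⨂[k] _ : Fin s, V) →ₗ[k] (⨂[k] _ : Fin t, V)) : Prop :=
  ∃ Δ : Subgroup Γ, Δ.FiniteIndex ∧ ∀ g ∈ Δ, ∀ x,
    f (PiTensorProduct.map (fun _ => ρ g) x) =
      χ g ^ c • PiTensorProduct.map (fun _ => ρ g) (f x)

/-- `f` is a tensor product of endomorphisms `P i` of `V` which commute with subgroups of finite
index, composed with a permutation of the factors (in particular `s = t`). -/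
def IsTensorOfEndos (ρ : Representation k Γ V) {s t : ℕ}
    (f : (⨂[k] _ : Fin s, V) →ₗ[k] (⨂[k] _ : Fin t, V)) : Prop :=
  ∃ (σ : Fin t ≃ Fin s) (P : Fin t → Module.End k V), (∀ j, IsTateEndo ρ (P j)) ∧
    ∀ x : Fin s → V, f (PiTensorProduct.tprod k x) =
      PiTensorProduct.tprod k (fun j => P j (x (σ j)))

/-- All homomorphisms `V ^ {⊗ s} → V ^ {⊗ t} (c)` for subgroups of finite index, for all `s`, `t`
and `c`, are linear combinations of permuted tensor products of endomorphisms of `V` (so they
are zero if `s ≠ t`). -/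
def HomsGeneratedByEndos (ρ : Representation k Γ V) (χ : Γ →* k) : Prop :=
  ∀ (s t : ℕ) (c : ℤ) (f : (⨂[k] _ : Fin s, V) →ₗ[k] (⨂[k] _ : Fin t, V)),
    IsTateHomomorphism ρ χ c f → f ∈ Submodule.span k {f' | IsTensorOfEndos ρ f'}

end Pool.Agent.V1141.OF
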