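import Pool.Agent.V1141.OF.TateF
import Pool.Agent.V1141.OF.GLDefs

/-!
# Representations without a form, one element with independent eigenvalues: the double
-/

set_option autoImplicit false
set_option linter.unusedSectionVars false

namespace Pool.Agent.V1141.OF

open Module Pool.Agent.H204R3.SP Pool.Agent.H204R3.GP
open scoped TensorProduct

noncomputable section

variable {k : Type} [Field k] [CharZero k] {V : Type} [AddCommGroup V] [Module k V]
  {Γ : Type} [Group Γ] (ρ : Representation k Γ V)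

/-- the double `V × V^*` with an extra torus -/
def rp : Representation k (Γ × kˣ) (V × Module.Dual k V) where
  toFun g := LinearMap.prodMap ((g.2 : k) • ρ g.1) (((g.2⁻¹ : kˣ) : k) • ρ.dual g.1)
  map_one' := by
    refine LinearMap.ext fun w => Prod.ext ?_ ?_
    · simp
    · simp
      rfl
  map_mul' g h := by
    refine LinearMap.ext fun w => Prod.ext ?_ ?_
    · change (((g.2 * h.2 : kˣ)) : k) • ρ (g.1 * h.1) w.1 =
        (g.2 : k) • ρ g.1 ((h.2 : k) • ρ h.1 w.1)
      rw [map_smul, smul_smul, map_mul, Module.End.mul_apply, Units.val_mul]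
    · refine LinearMap.ext fun v => ?_
      change ((((g.2 * h.2)⁻¹ : kˣ)) : k) * w.2 (ρ (g.1 * h.1)⁻¹ v) =
        ((g.2⁻¹ : kˣ) : k) * (((h.2⁻¹ : kˣ) : k) * w.2 (ρ h.1⁻¹ (ρ g.1⁻¹ v)))
      rw [mul_inv_rev, mul_inv_rev, map_mul, Module.End.mul_apply, Units.val_mul]
      ring

theorem rp_fst (g : Γ × kˣ) (w : V × Module.Dual k V) :
    (rp ρ g w).1 = (g.2 : k) • ρ g.1 w.1 := rfl

theorem rp_snd (g : Γ × kˣ) (w : V × Module.Dual k V) (v : V) :
    (rp ρ g w).2 v = ((g.2⁻¹ : kˣ) : k) * w.2 (ρ g.1⁻¹ v) := rfl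

/-- the symplectic form -/
def om : (V × Module.Dual k V) →ₗ[k] (V × Module.Dual k V) →ₗ[k] k where
  toFun x :=
    { toFun := fun y => y.2 x.1 - x.2 y.1
      map_add' := fun y y' => by
        rw [Prod.fst_add, Prod.snd_add, map_add, LinearMap.add_apply]
        ring
      map_smul' := fun c y => by
        rw [Prod.smul_fst, Prod.smul_snd, map_smul, LinearMap.smul_apply, smul_eq_mul, smul_eq_mul,
          RingHom.id_apply, smul_eq_mul]
        ring }
  map_add' x x' := by
    refine LinearMap.ext fun y => ?_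
    change y.2 (x.1 + x'.1) - (x.2 + x'.2) y.1 = (y.2 x.1 - x.2 y.1) + (y.2 x'.1 - x'.2 y.1)
    rw [map_add, LinearMap.add_apply]
    ring
  map_smul' c x := by
    refine LinearMap.ext fun y => ?_
    change y.2 (c • x.1) - (c • x.2) y.1 = c * (y.2 x.1 - x.2 y.1)
    rw [map_smul, LinearMap.smul_apply, smul_eq_mul, smul_eq_mul]
    ring

theorem om_apply (x y : V × Module.Dual k V) : om x y = y.2 x.1 - x.2 y.1 := rfl

theorem om_rp (g : Γ × kˣ) (x y : V × Module.Dual k V) :
    om (rp ρ g x) (rp ρ g y) = (1 : (Γ × kˣ) →* k) g * om x y := by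
  have h1 : ∀ v, ρ g.1⁻¹ (ρ g.1 v) = v := fun v => by
    rw [← Module.End.mul_apply, ← map_mul, inv_mul_cancel, map_one, Module.End.one_apply]
  rw [om_apply, om_apply, rp_fst, rp_fst, rp_snd, rp_snd, map_smul, map_smul, map_smul, map_smul,
    h1, h1, smul_eq_mul, smul_eq_mul, MonoidHom.one_apply, one_mul, ← mul_assoc, ← mul_assoc,
    Units.inv_mul, one_mul, one_mul]

/-- an eigenbasis -/
theorem exists_eigen {n : ℕ} [FiniteDimensional k V] (T : Module.End k V) {α : Fin n → k}
    (hinj : Function.Injective α)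
    (hT : T.charpoly = ∏ i, (Polynomial.X - Polynomial.C (α i))) :
    ∃ b : Basis (Fin n) k V, ∀ i, T (b i) = α i • b i := by
  classical
  have h1 : ∀ i, T.HasEigenvalue (α i) := by
    intro i
    rw [Module.End.hasEigenvalue_iff_isRoot_charpoly, hT, Polynomial.IsRoot,
      Polynomial.eval_prod]
    refine Finset.prod_eq_zero (Finset.mem_univ i) ?_
    simp
  choose v hv using fun x => (h1 x).exists_hasEigenvector
  have hli := Module.End.eigenvectors_linearIndependent' T α hinj v hv
  have hfin : Fintype.card (Fin n) = finrank k V := by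
    rw [← LinearMap.charpoly_natDegree T, hT, Polynomial.natDegree_prod_of_monic]
    · simp
    · intro i _
      exact Polynomial.monic_X_sub_C _
  by_cases hne : Nonempty (Fin n)
  · refine ⟨basisOfLinearIndependentOfCardEqFinrank hli hfin, fun x => ?_⟩
    rw [coe_basisOfLinearIndependentOfCardEqFinrank]
    exact (hv x).apply_eq_smul
  · have hemp : IsEmpty (Fin n) := not_nonempty_iff.1 hne
    have h0 : finrank k V = 0 := by rw [← hfin, Fintype.card_eq_zero_iff]; exact hemp
    have _ : Subsingleton V := finrank_zero_iff.1 h0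
    exact ⟨Basis.empty V, fun x => hemp.elim x⟩

variable {n : ℕ} {γ : Γ} {α : Fin n → k} (b : Basis (Fin n) k V)
  (hb : ∀ i, ρ γ (b i) = α i • b i) (hα0 : ∀ i, α i ≠ 0)
  (hind : ∀ m : Fin n → ℤ, ∏ i, α i ^ m i = 1 → m = 0)

/-- the basis of the double -/
def eb : Basis (Fin n ⊕ Fin n) k (V × Module.Dual k V) := b.prod b.dualBasis

theorem eb_inl (i : Fin n) : eb b (Sum.inl i) = (b i, 0) := by
  unfold eb
  rw [Basis.prod_apply, Sum.elim_inl]
  rfl

theorem eb_inr (i : Fin n) : eb b (Sum.inr i) = (0, b.coord i) := by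
  unfold eb
  rw [Basis.prod_apply, Sum.elim_inr, Function.comp_apply, Basis.coe_dualBasis]
  rfl

/-- the values of the form on the basis -/
def jb : Fin n ⊕ Fin n → k := Sum.elim (fun _ => 1) (fun _ => -1)

theorem om_eb (x y : Fin n ⊕ Fin n) : om (eb b x) (eb b y) = JJ Sum.swap jb x y := by
  classical
  unfold JJ
  rcases x with i | i <;> rcases y with j | j
  · rw [eb_inl, eb_inl, om_apply, if_neg (by simp)]
    simp
  · rw [eb_inl, eb_inr, om_apply]
    by_cases h : j = i
    · subst h
      rw [if_pos (by rfl)]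
      simp [jb]
    · rw [if_neg (by simpa using h)]
      simp [Ne.symm h]
  · rw [eb_inr, eb_inl, om_apply]
    by_cases h : j = i
    · subst h
      rw [if_pos (by rfl)]
      simp [jb]
    · rw [if_neg (by simpa using h)]
      simp [h]
  · rw [eb_inr, eb_inr, om_apply, if_neg (by simp)]
    simp

/-- the eigenvalues on the double -/
def ab (α : Fin n → k) : Fin n ⊕ Fin n → k := Sum.elim α (fun i => (α i)⁻¹)

include hb hα0 in
theorem rp_eb (x : Fin n ⊕ Fin n) : rp ρ (γ, 1) (eb b x) = ab α x • eb b x := by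
  have hb' : ∀ i, ρ γ⁻¹ (b i) = (α i)⁻¹ • b i := by
    intro i
    have h1 : ρ γ⁻¹ (ρ γ (b i)) = b i := by
      rw [← Module.End.mul_apply, ← map_mul, inv_mul_cancel, map_one, Module.End.one_apply]
    rw [hb, map_smul] at h1
    rw [← h1, smul_smul, inv_mul_cancel₀ (hα0 i), one_smul, h1]
  rcases x with i | i
  · rw [eb_inl]
    refine Prod.ext ?_ ?_
    · rw [rp_fst]
      simp [hb, ab]
    · refine LinearMap.ext fun v => ?_
      rw [rp_snd]
      simp
  · rw [eb_inr]
    refine Prod.ext ?_ ?_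
    · rw [rp_fst]
      simp
    · refine b.ext fun j => ?_
      rw [rp_snd, hb']
      simp only [ab, Sum.elim_inr, Prod.smul_snd, LinearMap.smul_apply, map_smul, smul_eq_mul,
        Basis.coord_apply, Basis.repr_self, Units.val_one, inv_one, one_mul]
      by_cases h : j = i
      · subst h
        rfl
      · rw [Finsupp.single_apply, if_neg h, mul_zero, mul_zero]

theorem swap_swap' (x : Fin n ⊕ Fin n) : Sum.swap (Sum.swap x) = x := Sum.swap_swap x

theorem swap_ne (x : Fin n ⊕ Fin n) : Sum.swap x ≠ x := by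
  rcases x with i | i <;> simp

theorem jb_swap (x : Fin n ⊕ Fin n) : (jb (Sum.swap x) : k) = -jb x := by
  rcases x with i | i <;> simp [jb]

theorem jb_ne (x : Fin n ⊕ Fin n) : (jb x : k) ≠ 0 := by
  rcases x with i | i <;> simp [jb]

theorem pow_eb (hb1 : ∀ x, rp ρ (γ, 1) (eb b x) = ab α x • eb b x) (M : ℕ)
    (x : Fin n ⊕ Fin n) : rp ρ ((γ, 1) ^ M) (eb b x) = ab α x ^ M • eb b x := by
  induction M with
  | zero => rw [pow_zero, pow_zero, one_smul, map_one]; rfl
  | succ M ih =>
    rw [pow_succ, map_mul, pow_succ, Module.End.mul_apply, hb1, map_smul, ih, smul_smul, mul_comm]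

include hb hα0 hind in
theorem balanced_double (m : ℕ)
    (φ : MultilinearMap k (fun _ : Fin m × Fin 2 => V × Module.Dual k V) k)
    (hφ : IsTate (rp ρ) 1 m φ) (I : Fin m × Fin 2 → Fin n ⊕ Fin n)
    (hI : φ (fun l => eb b (I l)) ≠ 0) (y : Fin n ⊕ Fin n) :
    (Finset.univ.filter (fun l => I l = y)).card =
      (Finset.univ.filter (fun l => I l = Sum.swap y)).card := by
  classical
  obtain ⟨Δ, hΔ, hφ⟩ := hφ
  obtain ⟨M, hM, -, hMΔ⟩ := Subgroup.exists_pow_mem_of_index_ne_zero hΔ.index_ne_zero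
    ((γ, 1) : Γ × kˣ)
  have h1 := hφ _ hMΔ (fun l => eb b (I l))
  simp only [pow_eb ρ b (rp_eb ρ b hb hα0) M] at h1
  rw [MultilinearMap.map_smul_univ, smul_eq_mul, MonoidHom.one_apply, one_pow, one_mul] at h1
  have h2 : ∏ l, ab α (I l) ^ M = 1 := mul_right_cancel₀ hI (by rw [h1, one_mul])
  let N : Fin n ⊕ Fin n → ℕ := fun y => (Finset.univ.filter (fun l => I l = y)).card
  have h3 : ∏ l, ab α (I l) ^ M = ∏ y, ab α y ^ (M * N y) := by
    rw [← Finset.prod_fiberwise Finset.univ I (fun l => ab α (I l) ^ M)]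
    refine Finset.prod_congr rfl fun y _ => ?_
    rw [Finset.prod_congr rfl (fun l hl => by rw [(Finset.mem_filter.1 hl).2]), Finset.prod_const,
      ← pow_mul]
  rw [h3, Fintype.prod_sum_type, ← Finset.prod_mul_distrib] at h2
  have h4 := hind (fun i => (M : ℤ) * ((N (Sum.inl i) : ℤ) - N (Sum.inr i))) (by
    rw [← h2]
    refine Finset.prod_congr rfl fun i _ => ?_
    simp only [ab, Sum.elim_inl, Sum.elim_inr]
    rw [mul_sub, zpow_sub₀ (hα0 i), inv_pow, div_eq_mul_inv]
    norm_cast)
  have h5 : ∀ i, N (Sum.inl i) = N (Sum.inr i) := by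
    intro i
    have h6 := congrFun h4 i
    simp only [Pi.zero_apply, mul_eq_zero] at h6
    rcases h6 with h6 | h6
    · exfalso
      exact hM.ne' (by exact_mod_cast h6)
    · have h7 : (N (Sum.inl i) : ℤ) = N (Sum.inr i) := by linarith
      exact_mod_cast h7
  rcases y with i | i
  · exact h5 i
  · exact (h5 i).symm

include hb hα0 hind in
/-- Tate forms on the double are generated in degree two. -/
theorem double_mem {m : ℕ}
    (φ : MultilinearMap k (fun _ : Fin m × Fin 2 => V × Module.Dual k V) k)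
    (hφ : IsTate (rp ρ) 1 m φ) : φ ∈ Submodule.span k (PT (rp ρ) 1 m) :=
  tateG_mem' (eb b) swap_swap' swap_ne jb_swap jb_ne om (om_eb b) (rp ρ) 1
    (fun g u v => om_rp ρ g u v) (balanced_double ρ b hb hα0 hind) φ hφ

end

end Pool.Agent.V1141.OF
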