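import Pool.Agent.V1141.OF.GL1

/-!
# Representations without a form, one element with independent eigenvalues: the main theorem
-/

set_option autoImplicit false
set_option linter.unusedSectionVars false

namespace Pool.Agent.V1141.OF

open Module Pool.Agent.H204R3.SP Pool.Agent.H204R3.GP
open scoped TensorProduct

noncomputable section

variable {k : Type} [Field k] [CharZero k] {V : Type} [AddCommGroup V] [Module k V]
  {Γ : Type} [Group Γ] (ρ : Representation k Γ V)

/-- Tate forms vanish on `V` and on the dual. -/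
theorem van {B : (V × Module.Dual k V) →ₗ[k] (V × Module.Dual k V) →ₗ[k] k}
    (hB : IsTate2 (rp ρ) 1 B) :
    (∀ v v' : V, B (v, 0) (v', 0) = 0) ∧ ∀ y y' : Module.Dual k V, B (0, y) (0, y') = 0 := by
  obtain ⟨Δ, hΔ, h⟩ := hB
  let u : kˣ := Units.mk0 2 two_ne_zero
  obtain ⟨M, hM, -, hMΔ⟩ := Subgroup.exists_pow_mem_of_index_ne_zero hΔ.index_ne_zero
    ((1, u) : Γ × kˣ)
  have h1 : ((1, u) : Γ × kˣ) ^ M = (1, u ^ M) := by
    rw [Prod.pow_mk, one_pow]
  rw [h1] at hMΔ
  have hu : ((u ^ M : kˣ) : k) = 2 ^ M := by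
    rw [Units.val_pow_eq_pow_val]
    rfl
  have hu' : (((u ^ M)⁻¹ : kˣ) : k) = (2 ^ M)⁻¹ := by
    rw [Units.val_inv_eq_inv_val, hu]
  have h2 : (2 : k) ^ M * 2 ^ M ≠ 1 := by
    have h3 : (1 : ℕ) < 2 ^ M * 2 ^ M := by
      have : 1 < 2 ^ M := Nat.one_lt_two_pow hM.ne'
      nlinarith
    exact_mod_cast h3.ne'
  constructor
  · intro v v'
    have h3 := h _ hMΔ (v, 0) (v', 0)
    have h4 : ∀ w : V, rp ρ (1, u ^ M) (w, 0) = (2 : k) ^ M • ((w, 0) : V × Module.Dual k V) := by
      intro w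
      refine Prod.ext ?_ ?_
      · rw [rp_fst]
        simp [hu]
      · refine LinearMap.ext fun x => ?_
        rw [rp_snd]
        simp
    rw [h4, h4, map_smul, map_smul, LinearMap.smul_apply, smul_eq_mul, smul_eq_mul,
      MonoidHom.one_apply, one_mul, ← mul_assoc] at h3
    by_contra h5
    exact h2 (mul_right_cancel₀ h5 (by rw [h3, one_mul]))
  · intro y y'
    have h3 := h _ hMΔ (0, y) (0, y')
    have h4 : ∀ w : Module.Dual k V,
        rp ρ (1, u ^ M) (0, w) = ((2 : k) ^ M)⁻¹ • ((0, w) : V × Module.Dual k V) := by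
      intro w
      refine Prod.ext ?_ ?_
      · rw [rp_fst]
        simp
      · refine LinearMap.ext fun x => ?_
        rw [rp_snd, hu']
        simp
    rw [h4, h4, map_smul, map_smul, LinearMap.smul_apply, smul_eq_mul, smul_eq_mul,
      MonoidHom.one_apply, one_mul, ← mul_assoc, ← mul_inv] at h3
    by_contra h5
    have h6 : ((2 : k) ^ M * 2 ^ M)⁻¹ = 1 := mul_right_cancel₀ h5 (by rw [h3, one_mul])
    exact h2 (inv_eq_one.1 h6)

theorem finiteIndex_left {Δ : Subgroup (Γ × kˣ)} (hΔ : Δ.FiniteIndex) :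
    (Δ.comap (MonoidHom.inl Γ kˣ)).FiniteIndex := by
  have := hΔ
  refine ⟨?_⟩
  rw [Subgroup.index_comap]
  exact (inferInstance : (Δ.subgroupOf (MonoidHom.inl Γ kˣ).range).FiniteIndex).index_ne_zero

theorem rp_inl (g : Γ) (v : V) : rp ρ (g, 1) (v, 0) = (ρ g v, 0) := by
  refine Prod.ext ?_ ?_
  · rw [rp_fst]
    simp
  · refine LinearMap.ext fun x => ?_
    rw [rp_snd]
    simp

theorem rp_inr (g : Γ) (y : Module.Dual k V) : rp ρ (g, 1) (0, y) = (0, y ∘ₗ ρ g⁻¹) := by
  refine Prod.ext ?_ ?_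
  · rw [rp_fst]
    simp
  · refine LinearMap.ext fun x => ?_
    rw [rp_snd]
    simp

theorem rho_inv (g : Γ) (v : V) : ρ g (ρ g⁻¹ v) = v := by
  rw [← Module.End.mul_apply, ← map_mul, mul_inv_cancel, map_one, Module.End.one_apply]

variable [FiniteDimensional k V]

/-- An endomorphism from a bilinear form. -/
theorem exists_endo (C : V →ₗ[k] Module.Dual k V →ₗ[k] k) {Δ : Subgroup Γ}
    (hΔ : Δ.FiniteIndex) (hC : ∀ g ∈ Δ, ∀ v y, C (ρ g v) (y ∘ₗ ρ g⁻¹) = C v y) :
    ∃ P : Module.End k V, IsTateEndo ρ P ∧ ∀ v y, C v y = y (P v) := by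
  let P : Module.End k V := (Module.evalEquiv k V).symm.toLinearMap ∘ₗ C
  have hP : ∀ v y, C v y = y (P v) := by
    intro v y
    have h1 : Module.evalEquiv k V (P v) = C v := by
      simp [P]
    rw [← h1]
    rfl
  refine ⟨P, ⟨Δ, hΔ, fun g hg v => ?_⟩, hP⟩
  have h1 : ρ g⁻¹ (P (ρ g v)) = P v := by
    rw [← sub_eq_zero, ← Module.forall_dual_apply_eq_zero_iff k]
    intro y
    rw [map_sub, ← hP, ← hC g hg v y, hP]
    exact sub_self _
  rw [← h1, rho_inv]

theorem exists_endo_both {B : (V × Module.Dual k V) →ₗ[k] (V × Module.Dual k V) →ₗ[k] k}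
    (hB : IsTate2 (rp ρ) 1 B) :
    (∃ P : Module.End k V, IsTateEndo ρ P ∧
      ∀ (v : V) (y : Module.Dual k V), B (v, 0) (0, y) = y (P v)) ∧
    ∃ P : Module.End k V, IsTateEndo ρ P ∧
      ∀ (v : V) (y : Module.Dual k V), B (0, y) (v, 0) = y (P v) := by
  obtain ⟨Δ, hΔ, h⟩ := hB
  have hΔ' := finiteIndex_left hΔ
  constructor
  · obtain ⟨P, h1, h2⟩ := exists_endo ρ (B.compl₁₂ (LinearMap.inl k V (Module.Dual k V))
      (LinearMap.inr k V (Module.Dual k V))) hΔ' (fun g hg v y => by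
        have h3 := h (g, 1) hg (v, 0) (0, y)
        rw [rp_inl, rp_inr, MonoidHom.one_apply, one_mul] at h3
        exact h3)
    exact ⟨P, h1, fun v y => h2 v y⟩
  · obtain ⟨P, h1, h2⟩ := exists_endo ρ (B.flip.compl₁₂ (LinearMap.inl k V (Module.Dual k V))
      (LinearMap.inr k V (Module.Dual k V))) hΔ' (fun g hg v y => by
        have h3 := h (g, 1) hg (0, y) (v, 0)
        rw [rp_inl, rp_inr, MonoidHom.one_apply, one_mul] at h3
        exact h3)
    exact ⟨P, h1, fun v y => h2 v y⟩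

/-- a permuted tensor product of endomorphisms -/
def permHom {a : ℕ} (σ : Fin a ≃ Fin a) (P : Fin a → Module.End k V) :
    (⨂[k] _ : Fin a, V) →ₗ[k] (⨂[k] _ : Fin a, V) :=
  PiTensorProduct.lift
    (((PiTensorProduct.tprod k (s := fun _ : Fin a => V)).compLinearMap P).domDomCongr σ)

theorem permHom_tprod {a : ℕ} (σ : Fin a ≃ Fin a) (P : Fin a → Module.End k V) (x : Fin a → V) :
    permHom σ P (PiTensorProduct.tprod k x) =
      PiTensorProduct.tprod k (fun j => P j (x (σ j))) := by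
  unfold permHom
  rw [PiTensorProduct.lift.tprod]
  rfl

/-- the matrix coefficients of a homomorphism -/
def Th (a : ℕ) : ((⨂[k] _ : Fin a, V) →ₗ[k] (⨂[k] _ : Fin a, V)) →ₗ[k]
    ((Fin a → V) → (Fin a → Module.Dual k V) → k) where
  toFun f v y := PiTensorProduct.dualDistrib (PiTensorProduct.tprod k y)
    (f (PiTensorProduct.tprod k v))
  map_add' f g := by
    funext v y
    rw [LinearMap.add_apply, map_add]
    rfl
  map_smul' c f := by
    funext v y
    rw [LinearMap.smul_apply, map_smul]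
    rfl

theorem Th_apply {a : ℕ} (f : (⨂[k] _ : Fin a, V) →ₗ[k] (⨂[k] _ : Fin a, V)) (v : Fin a → V)
    (y : Fin a → Module.Dual k V) : Th a f v y =
      PiTensorProduct.dualDistrib (PiTensorProduct.tprod k y) (f (PiTensorProduct.tprod k v)) := rfl

theorem Th_injective (a : ℕ) : Function.Injective (Th (k := k) (V := V) a) := by
  rw [← LinearMap.ker_eq_bot, LinearMap.ker_eq_bot']
  intro f hf
  refine PiTensorProduct.ext (MultilinearMap.ext fun v => ?_)
  change f (PiTensorProduct.tprod k v) = 0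
  rw [← Module.forall_dual_apply_eq_zero_iff k]
  intro ψ
  obtain ⟨z, rfl⟩ := (PiTensorProduct.dualDistribEquiv (R := k)
    (M := fun _ : Fin a => V)).surjective ψ
  induction z using PiTensorProduct.induction_on with
  | smul_tprod r y =>
    rw [map_smul, LinearMap.smul_apply]
    have h1 := congrFun (congrFun hf v) y
    rw [Th_apply] at h1
    have h2 : (PiTensorProduct.dualDistribEquiv (R := k) (M := fun _ : Fin a => V)
        (PiTensorProduct.tprod k y)) (f (PiTensorProduct.tprod k v)) = 0 := h1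
    rw [h2, smul_zero]
  | add x y hx hy => rw [map_add, LinearMap.add_apply, hx, hy, add_zero]

end

end Pool.Agent.V1141.OF
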