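import Pool.Agent.V1141.SL.Cls
import Pool.Agent.H194R3.Tate.Mixed
import Pool.Agent.H194R3.Tate.CharZero

/-!
# Numbers without relations between the slopes of their conjugates
-/

set_option autoImplicit false
set_option linter.unusedSectionVars false

namespace Pool.Agent.V1141.OF

open NumberField Module Pool.Agent.H485R3 Pool.Agent.TH121.KT Pool.Agent.Y103.Hk Pool.Agent.V1141.SL

variable {p a : ℕ} [Fact p.Prime] {E : Type} [Field E] [NumberField E] [IsCMField E] {α : E}

/-- There are no integral relations between the translates of the vector of slopes. -/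
def Good (p : ℕ) [Fact p.Prime] {E : Type} [Field E] [NumberField E] [IsCMField E] (α : E) : Prop :=
  ∀ (L : Type) [Field L] [Algebra ℚ L] [FiniteDimensional ℚ L] [IsGalois ℚ L]
      (e : L →ₐ[ℚ] PadicAlgCl p),
      (∀ {Ω : Type} [Field Ω] [Algebra ℚ Ω] (e : L →ₐ[ℚ] Ω) (σ : E →ₐ[ℚ] Ω),
        ∃ σ' : E →ₐ[ℚ] L, e.comp σ' = σ) → ∀ n : (E →ₐ[ℚ] L) → ℤ,
      Rel (L ≃ₐ[ℚ] L) W517.K3.bar (sl α e) n → ∀ φ, n φ = 0

/-- **Dominant slope**: there are no relations. -/
theorem good_dominant (hα : IsWeilUnit p a α) (hd : HasDominantSlope p α) :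
    Good p α := by
  classical
  intro L _ _ _ _ e hlift n hn φ
  by_contra h0
  obtain ⟨σ₀, hσ₀⟩ := hd
  have hS := slp_embeddings hα e
  have hbij := toP_bij e hlift
  obtain ⟨x₀, rfl⟩ := hbij.2 σ₀
  have hsl : ∀ x : E →ₐ[ℚ] L, Real.log ‖toP e x α‖ = sl α e x := fun x => rfl
  have hsum : ∑ σ : E →+* PadicAlgCl p, max (Real.log ‖σ α‖) 0 =
      ∑ x ∈ Finset.univ.filter (fun x => 0 < sl α e x), sl α e x := by
    rw [← Equiv.sum_comp (Equiv.ofBijective (toP e) hbij), Finset.sum_filter]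
    refine Finset.sum_congr rfl fun x _ => ?_
    change max (sl α e x) 0 = _
    by_cases h : 0 < sl α e x
    · rw [if_pos h, max_eq_left h.le]
    · rw [if_neg h, max_eq_right (not_lt.1 h)]
  rw [hsum, hsl] at hσ₀
  have hle : ∑ x ∈ Finset.univ.filter (fun x => 0 < sl α e x), sl α e x ≤ 2 * sl α e x₀ := by
    rcases hσ₀ with h | h
    · exact h.le
    · exact h.1.le
  have : Nonempty (E →ₐ[ℚ] L) := ⟨φ⟩
  have hpos : 0 < sl α e x₀ := by
    obtain ⟨y, hy⟩ := exists_pos hS
    have h1 : sl α e y ≤ ∑ x ∈ Finset.univ.filter (fun x => 0 < sl α e x), sl α e x :=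
      Finset.single_le_sum (fun x hx => (Finset.mem_filter.1 hx).2.le)
        (Finset.mem_filter.2 ⟨Finset.mem_univ y, hy⟩)
    linarith
  let _ : Fintype (L ≃ₐ[ℚ] L) := Fintype.ofFinite _
  rcases hσ₀ with h | ⟨-, hN⟩
  · exact h0 ((dom_key hS x₀ hpos hle hn).2 h φ)
  · obtain ⟨B, hB⟩ := normBlock_dom hS x₀ hpos hle hn h0
    exact false_of_normBlock hα e hlift hN hB

/-- **Prime degree**: there are no relations if there is no norm relation. -/
theorem good_prime (hα : IsWeilUnit p a α) {d : ℕ} (hd : finrank ℚ E = 2 * d) (hdp : d.Prime)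
    (hN : NoNormRelation α) : Good p α := by
  classical
  intro L _ _ _ _ e hlift n hn φ
  by_contra h0
  have hS := slp_embeddings hα e
  have hcard : Fintype.card (E →ₐ[ℚ] L) = 2 * d := by
    rw [Fintype.card_of_bijective (toP_bij e hlift), Embeddings.card, hd]
  obtain ⟨B, hB⟩ := normBlock_prime hS hdp hcard hn h0
  exact false_of_normBlock hα e hlift hN hB

/-- **Prime power degree over a real subfield**: there are no relations. -/
theorem good_odd (hα : IsWeilUnit p a α) {ℓ : ℕ} (hℓ : ℓ.Prime) (hd : HasOddSlopeSum p ℓ α) :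
    Good p α := by
  classical
  have : Fact ℓ.Prime := ⟨hℓ⟩
  intro L _ _ _ _ e hlift n hn φ
  obtain ⟨F, ι₀, k, P, w, hF, hdeg, hP, hw, hout, hodd, hsmall⟩ := hd
  have hS := slp_embeddings hα e
  have hbij := toP_bij e hlift
  let A : Finset (E →ₐ[ℚ] L) :=
    Finset.univ.filter fun φ => (toP e φ).comp (algebraMap F E) = ι₀
  have hA : ∀ φ, φ ∈ A ↔ (toP e φ).comp (algebraMap F E) = ι₀ := fun φ => by simp [A]
  -- the number of points
  have hcard : A.card = 2 * ℓ ^ k := by
    let _ : Algebra F (PadicAlgCl p) := ι₀.toAlgebra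
    have h1 : Fintype.card (E →ₐ[F] PadicAlgCl p) = finrank F E := AlgHom.card F E (PadicAlgCl p)
    rw [← hdeg, ← h1, ← Finset.card_univ]
    symm
    refine Finset.card_bij (fun σ _ => (Equiv.ofBijective (toP e) hbij).symm (σ : E →+* PadicAlgCl p))
      (fun σ _ => ?_) (fun σ _ τ _ h => ?_) (fun φ hφ => ?_)
    · rw [hA]
      have h2 : toP e ((Equiv.ofBijective (toP e) hbij).symm (σ : E →+* PadicAlgCl p)) =
          (σ : E →+* PadicAlgCl p) := (Equiv.ofBijective (toP e) hbij).apply_symm_apply _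
      rw [h2]
      ext x
      exact σ.commutes x
    · have h2 := (Equiv.ofBijective (toP e) hbij).symm.injective h
      ext x
      exact RingHom.congr_fun h2 x
    · rw [hA] at hφ
      refine ⟨{ toP e φ with
        commutes' := fun x => RingHom.congr_fun hφ x }, Finset.mem_univ _, ?_⟩
      apply (Equiv.ofBijective (toP e) hbij).injective
      rw [Equiv.apply_symm_apply]
      rfl
  have hAne : A.Nonempty := by
    rw [← Finset.card_pos, hcard]
    have := hℓ.pos
    positivity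
  obtain ⟨φ₀, hφ₀⟩ := hAne
  have hagree : ∀ φ, φ ∈ A ↔ ∀ x ∈ F, φ x = φ₀ x := by
    intro φ
    rw [hA] at hφ₀ ⊢
    constructor
    · intro h x hx
      apply e.toRingHom.injective
      have h1 := RingHom.congr_fun h ⟨x, hx⟩
      have h2 := RingHom.congr_fun hφ₀ ⟨x, hx⟩
      exact h1.trans h2.symm
    · intro h
      ext x
      have h2 := RingHom.congr_fun hφ₀ x
      rw [← h2]
      change e (φ (x : E)) = e (φ₀ (x : E))
      rw [h x x.2]
  let H : Subgroup (L ≃ₐ[ℚ] L) :=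
    { carrier := {g | ∀ x ∈ F, g (φ₀ x) = φ₀ x}
      mul_mem' := by
        intro g h hg hh x hx
        rw [AlgEquiv.mul_apply, hh x hx, hg x hx]
      one_mem' := fun x _ => rfl
      inv_mem' := by
        intro g hg x hx
        have h1 := congrArg (g⁻¹ : L ≃ₐ[ℚ] L) (hg x hx)
        have h2 : (g⁻¹ : L ≃ₐ[ℚ] L) (g (φ₀ x)) = φ₀ x := AlgEquiv.symm_apply_apply g _
        rw [h2] at h1
        exact h1.symm }
  have hlog : 0 < Real.log P := Real.log_pos hP
  refine zero_prime_power (ℓ := ℓ) (k := k) hS hlog (w := fun φ => w (toP e φ)) ?_ A H ?_ ?_ ?_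
    hcard ?_ ?_ ?_ hn φ
  · intro φ
    have h1 := hw (toP e φ)
    change Real.log ‖toP e φ α‖ = _
    rw [h1, Real.log_zpow]
  · intro h hh φ hφ
    rw [hagree] at hφ ⊢
    intro x hx
    rw [W517.K3.smul_apply, hφ x hx]
    exact hh x hx
  · intro φ hφ ψ hψ
    obtain ⟨g, hg⟩ := W517.K3.exists_smul_eq φ ψ
    refine ⟨g, ?_, hg⟩
    rw [hagree] at hφ hψ
    intro x hx
    rw [← hφ x hx, ← W517.K3.smul_apply, hg, hψ x hx, hφ x hx]
  · intro φ hφ
    rw [hagree] at hφ ⊢
    intro x hx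
    rw [W517.K3.bar_apply, hF x hx, hφ x hx]
  · intro φ hφ
    refine hout _ fun h => hφ ?_
    rw [hA]
    exact h
  · have h1 : ∑ x ∈ A.filter (fun x => 0 < w (toP e x)), w (toP e x) =
        ∑ σ with σ.comp (algebraMap F E) = ι₀ ∧ 0 < w σ, w σ := by
      refine Finset.sum_bij (fun x _ => toP e x) (fun x hx => ?_) (fun x _ y _ h => hbij.1 h)
        (fun σ hσ => ?_) (fun x _ => rfl)
      · rw [Finset.mem_filter, hA] at hx
        exact Finset.mem_filter.2 ⟨Finset.mem_univ _, hx⟩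
      · obtain ⟨x, rfl⟩ := hbij.2 σ
        rw [Finset.mem_filter] at hσ
        exact ⟨x, Finset.mem_filter.2 ⟨(hA x).2 hσ.2.1, hσ.2.2⟩, rfl⟩
    rw [h1]
    exact hodd
  · have h1 : ∑ x ∈ A.filter (fun x => 0 < w (toP e x)), w (toP e x) =
        ∑ σ with σ.comp (algebraMap F E) = ι₀ ∧ 0 < w σ, w σ := by
      refine Finset.sum_bij (fun x _ => toP e x) (fun x hx => ?_) (fun x _ y _ h => hbij.1 h)
        (fun σ hσ => ?_) (fun x _ => rfl)
      · rw [Finset.mem_filter, hA] at hx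
        exact Finset.mem_filter.2 ⟨Finset.mem_univ _, hx⟩
      · obtain ⟨x, rfl⟩ := hbij.2 σ
        rw [Finset.mem_filter] at hσ
        exact ⟨x, Finset.mem_filter.2 ⟨(hA x).2 hσ.2.1, hσ.2.2⟩, rfl⟩
    rw [h1]
    exact hsmall

end Pool.Agent.V1141.OF
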