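import Mathlib

/-!
# Tate classes on products of varieties, in cohomology groups of different odd degrees

`V i` is the dual of the cohomology group of a variety `X i` in degree `2 * e i + 1`, with the action
`ρ i` of the Galois group `Γ`; `χ` is the cyclotomic character.
-/

set_option autoImplicit false

namespace Pool.Agent.V1141.OF

variable {k : Type} [Field k] {I : Type} {V : I → Type} [∀ i, AddCommGroup (V i)]
  [∀ i, Module k (V i)] {Γ : Type} [Group Γ] (ρ : ∀ i, Representation k Γ (V i)) (χ : Γ →* k)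
  (e : I → ℕ)

/-- The multilinear form `φ` in the variables `v l ∈ V (t l)`, an element of the tensor product of the
cohomology groups of the `X (t l)`, is a *Tate class* (in the `N`-th Tate twist): it is fixed by a
subgroup of finite index of the Galois group, `φ (s v) = χ(s) ^ N * φ(v)`. -/
def IsTateOn {n : ℕ} (t : Fin n → I) (N : ℕ) (φ : MultilinearMap k (fun l => V (t l)) k) : Prop :=
  ∃ Δ : Subgroup Γ, Δ.FiniteIndex ∧ ∀ s ∈ Δ, ∀ v, φ (fun l => ρ (t l) s (v l)) = χ s ^ N * φ v

/-- The bilinear form `B` on `V i × V j` is a Tate class on `X i × X j`. -/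
def IsTateForm2 {i j : I} (N : ℕ) (B : V i →ₗ[k] V j →ₗ[k] k) : Prop :=
  ∃ Δ : Subgroup Γ, Δ.FiniteIndex ∧ ∀ s ∈ Δ, ∀ u v, B (ρ i s u) (ρ j s v) = χ s ^ N * B u v

/-- The form `ψ` is a product of Tate classes on the products of two of the varieties: the variables
are grouped in pairs `ε (l, 0), ε (l, 1)`, and `ψ` is the product of forms `B l` in the variables of
these pairs; the degree of `B l` is half of `(2 e + 1) + (2 e' + 1)`. -/
def IsProductOfTwo {n : ℕ} (t : Fin n → I) (ψ : MultilinearMap k (fun l => V (t l)) k) : Prop :=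
  ∃ (m : ℕ) (ε : Fin m × Fin 2 ≃ Fin n)
    (B : ∀ l : Fin m, V (t (ε (l, 0))) →ₗ[k] V (t (ε (l, 1))) →ₗ[k] k),
    (∀ l, IsTateForm2 ρ χ (e (t (ε (l, 0))) + e (t (ε (l, 1))) + 1) (B l)) ∧
      ∀ v, ψ v = ∏ l, B l (v (ε (l, 0))) (v (ε (l, 1)))

/-- All Tate classes in all tensor products of the cohomology groups (in degree `2 * e i + 1`) of the
varieties `X i` are linear combinations of products of Tate classes on the products `X i × X j`. -/
def TateGeneratedByPairs : Prop :=
  ∀ (n : ℕ) (t : Fin n → I) (N : ℕ), 2 * N = ∑ l, (2 * e (t l) + 1) →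
    ∀ φ : MultilinearMap k (fun l => V (t l)) k, IsTateOn ρ χ t N φ →
      φ ∈ Submodule.span k {ψ | IsProductOfTwo ρ χ e t ψ}

end Pool.Agent.V1141.OF
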