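import Pool.Agent.V1141.OF.Eigen
import Pool.Agent.V1141.OF.Mix
import Pool.Agent.V1141.OF.MultiDefs

/-!
# Products of varieties, cohomology groups of different odd degrees
-/

set_option autoImplicit false
set_option linter.unusedSectionVars false

namespace Pool.Agent.V1141.OF

open NumberField Module Pool.Agent.H204R3.CM Pool.Agent.H204R3.SP Pool.Agent.H204R3.GP
open TensorProduct IntermediateField

noncomputable section

section Twist

variable {k : Type} [Field k] [CharZero k] {I : Type} [Fintype I] [DecidableEq I] {V : I → Type}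
  [∀ i, AddCommGroup (V i)] [∀ i, Module k (V i)] {Γ : Type} [Group Γ]
  (ρ : ∀ i, Representation k Γ (V i)) (χ : Γ →* k) (e : I → ℕ)

/-- the direct sum of the twisted representations -/
def twist : Representation k Γ (∀ i, V i) where
  toFun s := LinearMap.pi fun i => (χ s ^ e i)⁻¹ • (ρ i s).comp (LinearMap.proj i)
  map_one' := by
    refine LinearMap.ext fun v => funext fun i => ?_
    rw [LinearMap.pi_apply, LinearMap.smul_apply, map_one, one_pow, inv_one, one_smul, map_one]
    rfl
  map_mul' s t := by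
    refine LinearMap.ext fun v => funext fun i => ?_
    rw [LinearMap.pi_apply, Module.End.mul_apply, LinearMap.pi_apply, LinearMap.smul_apply,
      LinearMap.smul_apply, LinearMap.comp_apply, LinearMap.comp_apply, LinearMap.proj_apply,
      LinearMap.proj_apply, LinearMap.pi_apply, LinearMap.smul_apply, LinearMap.comp_apply,
      LinearMap.proj_apply, map_smul, smul_smul, map_mul, map_mul, mul_pow, mul_inv,
      Module.End.mul_apply]

theorem twist_apply (s : Γ) (v : ∀ i, V i) (i : I) :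
    twist ρ χ e s v i = (χ s ^ e i)⁻¹ • ρ i s (v i) := rfl

theorem twist_single (s : Γ) (i : I) (u : V i) :
    twist ρ χ e s (LinearMap.single k V i u) =
      (χ s ^ e i)⁻¹ • LinearMap.single k V i (ρ i s u) := by
  funext j
  rw [twist_apply, Pi.smul_apply, LinearMap.single_apply, LinearMap.single_apply]
  by_cases h : j = i
  · subst h
    rw [Pi.single_eq_same, Pi.single_eq_same]
  · rw [Pi.single_eq_of_ne h, Pi.single_eq_of_ne h, map_zero, smul_zero, smul_zero]

theorem chi_ne (s : Γ) : χ s ≠ 0 := by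
  intro h
  have h1 : χ (s * s⁻¹) = 0 := by rw [map_mul, h, zero_mul]
  rw [mul_inv_cancel, map_one] at h1
  exact one_ne_zero h1

variable (ω : ∀ i, V i →ₗ[k] V i →ₗ[k] k)

/-- the orthogonal sum of the forms -/
def sumForm : (∀ i, V i) →ₗ[k] (∀ i, V i) →ₗ[k] k :=
  ∑ i, (ω i).compl₁₂ (LinearMap.proj i) (LinearMap.proj i)

theorem sumForm_apply (u v : ∀ i, V i) : sumForm ω u v = ∑ i, ω i (u i) (v i) := by
  unfold sumForm
  rw [LinearMap.sum_apply, LinearMap.sum_apply]
  rfl

variable (hω : ∀ i s u v, ω i (ρ i s u) (ρ i s v) = χ s ^ (2 * e i + 1) * ω i u v)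

include hω in
theorem sumForm_twist (s : Γ) (u v : ∀ i, V i) :
    sumForm ω (twist ρ χ e s u) (twist ρ χ e s v) = χ s * sumForm ω u v := by
  rw [sumForm_apply, sumForm_apply, Finset.mul_sum]
  refine Finset.sum_congr rfl fun i _ => ?_
  rw [twist_apply, twist_apply, map_smul, map_smul, LinearMap.smul_apply, hω, smul_eq_mul,
    smul_eq_mul]
  have h := chi_ne χ s
  field_simp
  ring

/-- The restriction of a form to a component. -/
def restr {n m : ℕ} (t : Fin n → I) (ε : Fin m × Fin 2 ≃ Fin n) :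
    MultilinearMap k (fun _ : Fin m × Fin 2 => ∀ i, V i) k →ₗ[k]
      MultilinearMap k (fun l => V (t l)) k where
  toFun φ := (φ.domDomCongr ε).compLinearMap fun l => LinearMap.single k V (t l)
  map_add' _ _ := rfl
  map_smul' _ _ := rfl

theorem restr_apply {n m : ℕ} (t : Fin n → I) (ε : Fin m × Fin 2 ≃ Fin n)
    (φ : MultilinearMap k (fun _ : Fin m × Fin 2 => ∀ i, V i) k) (v : ∀ l, V (t l)) :
    restr t ε φ v = φ (fun l => LinearMap.single k V (t (ε l)) (v (ε l))) := rfl

theorem restr_PT {n m : ℕ} (t : Fin n → I) (ε : Fin m × Fin 2 ≃ Fin n)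
    {φ : MultilinearMap k (fun _ : Fin m × Fin 2 => ∀ i, V i) k}
    (hφ : φ ∈ PT (twist ρ χ e) χ m) : IsProductOfTwo ρ χ e t (restr t ε φ) := by
  obtain ⟨σ, B, hB, rfl⟩ := hφ
  refine ⟨m, (σ : Fin m × Fin 2 ≃ Fin m × Fin 2).trans ε, fun l =>
    (B l).compl₁₂ (LinearMap.single k V _) (LinearMap.single k V _), fun l => ?_, fun v => ?_⟩
  · obtain ⟨Δ, hΔ, h⟩ := hB l
    refine ⟨Δ, hΔ, fun s hs u v => ?_⟩
    rw [LinearMap.compl₁₂_apply, LinearMap.compl₁₂_apply]
    have h1 := h s hs (LinearMap.single k V _ u) (LinearMap.single k V _ v)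
    rw [twist_single, twist_single, map_smul, map_smul, LinearMap.smul_apply, smul_eq_mul,
      smul_eq_mul] at h1
    have h2 := chi_ne χ s
    field_simp at h1
    rw [h1]
    ring
  · rw [restr_apply, mmG_apply]
    rfl

theorem mem_of_twist {n N : ℕ} (t : Fin n → I) (hN : 2 * N = ∑ l, (2 * e (t l) + 1))
    (H : ∀ (m : ℕ) (φ : MultilinearMap k (fun _ : Fin m × Fin 2 => ∀ i, V i) k),
      IsTate (twist ρ χ e) χ m φ → φ ∈ Submodule.span k (PT (twist ρ χ e) χ m))
    (φ : MultilinearMap k (fun l => V (t l)) k) (hφ : IsTateOn ρ χ t N φ) :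
    φ ∈ Submodule.span k {ψ | IsProductOfTwo ρ χ e t ψ} := by
  classical
  have hN' : 2 * N = 2 * ∑ l, e (t l) + n := by
    rw [hN, Finset.sum_add_distrib, Finset.mul_sum, Finset.sum_const, Finset.card_univ,
      Fintype.card_fin, smul_eq_mul, mul_one]
  obtain ⟨m, hm⟩ : ∃ m, n = 2 * m := ⟨N - ∑ l, e (t l), by omega⟩
  have hNm : N = ∑ l, e (t l) + m := by omega
  obtain ⟨ε⟩ : Nonempty (Fin m × Fin 2 ≃ Fin n) := by
    rw [← Fintype.card_eq, Fintype.card_prod, Fintype.card_fin, Fintype.card_fin, Fintype.card_fin]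
    omega
  let φ' : MultilinearMap k (fun _ : Fin m × Fin 2 => ∀ i, V i) k :=
    (φ.compLinearMap fun l => LinearMap.proj (t l)).domDomCongr ε.symm
  have hφ'a : ∀ v, φ' v = φ (fun l => v (ε.symm l) (t l)) := fun v => rfl
  have hφ' : IsTate (twist ρ χ e) χ m φ' := by
    obtain ⟨Δ, hΔ, h⟩ := hφ
    refine ⟨Δ, hΔ, fun s hs v => ?_⟩
    rw [hφ'a, hφ'a]
    have h1 := h s hs (fun l => v (ε.symm l) (t l))
    have h2 : (fun l => twist ρ χ e s (v (ε.symm l)) (t l)) =
        fun l => (χ s ^ e (t l))⁻¹ • ρ (t l) s (v (ε.symm l) (t l)) := by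
      funext l
      rw [twist_apply]
    rw [h2, MultilinearMap.map_smul_univ, h1, Finset.prod_inv_distrib, Finset.prod_pow_eq_pow_sum,
      smul_eq_mul, hNm, pow_add]
    have h3 : χ s ^ ∑ l, e (t l) ≠ 0 := pow_ne_zero _ (chi_ne χ s)
    field_simp
  have h1 := H m φ' hφ'
  have h2 : restr t ε φ' = φ := by
    ext v
    rw [restr_apply, hφ'a]
    congr 1
    funext l
    rw [LinearMap.single_apply]
    have h3 : ∀ (l' : Fin n), l' = l →
        (Pi.single (t l') (v l') : ∀ i, V i) (t l) = v l := by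
      rintro l' rfl
      exact Pi.single_eq_same _ _
    exact h3 _ (ε.apply_symm_apply l)
  rw [← h2]
  have h3 : (Submodule.span k (PT (twist ρ χ e) χ m)).map (restr t ε) ≤
      Submodule.span k {ψ | IsProductOfTwo ρ χ e t ψ} := by
    rw [Submodule.map_span, Submodule.span_le]
    rintro _ ⟨ψ, hψ, rfl⟩
    exact Submodule.subset_span (restr_PT ρ χ e t ε hψ)
  exact h3 ⟨φ', h1, rfl⟩

theorem sumForm_alt (halt : ∀ i, ∀ v, ω i v v = 0) (v : ∀ i, V i) : sumForm ω v v = 0 := by
  rw [sumForm_apply]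
  exact Finset.sum_eq_zero fun i _ => halt i _

theorem sumForm_nondeg (hnd : ∀ i, ∀ u, (∀ v, ω i v u = 0) → u = 0) (u : ∀ i, V i)
    (hu : ∀ v, sumForm ω v u = 0) : u = 0 := by
  funext i
  refine hnd i _ fun v => ?_
  have h1 := hu (LinearMap.single k V i v)
  rw [sumForm_apply, Finset.sum_eq_single i] at h1
  · rwa [LinearMap.single_apply, Pi.single_eq_same] at h1
  · intro j _ hj
    rw [LinearMap.single_apply, Pi.single_eq_of_ne hj, map_zero, LinearMap.zero_apply]
  · intro h
    exact absurd (Finset.mem_univ _) h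

variable [∀ i, FiniteDimensional k (V i)]

theorem eigen_twist (Ω : Type) [Field Ω] [Algebra k Ω] (γ : Γ) (i : I) {μ : Ω}
    (h : Module.End.HasEigenvalue (bcr (ρ i) Ω γ) μ) :
    Module.End.HasEigenvalue (bcr (twist ρ χ e) Ω γ) ((algebraMap k Ω (χ γ ^ e i))⁻¹ * μ) := by
  obtain ⟨u, hu⟩ := h.exists_hasEigenvector
  have hu1 : (ρ i γ).baseChange Ω u = μ • u := hu.apply_eq_smul
  refine Module.End.hasEigenvalue_of_hasEigenvector
    (x := (LinearMap.single k V i).baseChange Ω u) ⟨?_, ?_⟩
  · rw [Module.End.mem_eigenspace_iff]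
    have h1 : (twist ρ χ e γ).comp (LinearMap.single k V i) =
        (χ γ ^ e i)⁻¹ • (LinearMap.single k V i).comp (ρ i γ) := by
      refine LinearMap.ext fun v => ?_
      rw [LinearMap.comp_apply, twist_single]
      rfl
    have h2 := congrArg (fun T => LinearMap.baseChange Ω T u) h1
    simp only [LinearMap.baseChange_comp, LinearMap.baseChange_smul, LinearMap.comp_apply,
      LinearMap.smul_apply] at h2
    change (twist ρ χ e γ).baseChange Ω ((LinearMap.single k V i).baseChange Ω u) = _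
    rw [h2, hu1, map_smul, ← smul_assoc, map_pow, Algebra.smul_def, map_inv₀, map_pow]
  · intro h0
    apply hu.2
    have h3 : (LinearMap.proj i).comp (LinearMap.single k V i) = LinearMap.id := by
      refine LinearMap.ext fun v => ?_
      rw [LinearMap.comp_apply, LinearMap.proj_apply, LinearMap.single_apply, Pi.single_eq_same]
      rfl
    have h4 := congrArg (fun T => LinearMap.baseChange Ω T u) h3
    simp only [LinearMap.baseChange_comp, LinearMap.comp_apply, LinearMap.baseChange_id,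
      LinearMap.id_apply] at h4
    rw [← h4, h0, map_zero]

end Twist

/-- The main theorem for products of varieties. -/
theorem multi_of_neat {k : Type} [Field k] [CharZero k] {I : Type} [Fintype I] [DecidableEq I]
    {V : I → Type}
    [∀ i, AddCommGroup (V i)] [∀ i, Module k (V i)] [∀ i, FiniteDimensional k (V i)] {Γ : Type}
    [Group Γ] (ρ : ∀ i, Representation k Γ (V i)) (χ : Γ →* k) (e : I → ℕ)
    (ω : ∀ i, V i →ₗ[k] V i →ₗ[k] k) (halt : ∀ i, ∀ v, ω i v v = 0)
    (hnd : ∀ i, ∀ u, (∀ v, ω i v u = 0) → u = 0)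
    (hω : ∀ i s u v, ω i (ρ i s u) (ρ i s v) = χ s ^ (2 * e i + 1) * ω i u v)
    {p : ℕ} [Fact p.Prime] {a : ℕ} {J : Type} [Fintype J] (c : J → I) {K : J → Type}
    [∀ j, Field (K j)] [∀ j, NumberField (K j)] [∀ j, IsCMField (K j)] {π : ∀ j, K j}
    (hgen : ∀ j, ℚ⟮π j⟯ = ⊤)
    (hw : ∀ j, π j * IsCMField.complexConj (K j) (π j) = (p : K j) ^ (a * (2 * e (c j) + 1)))
    (γ : Γ) (hχ : χ γ = (p : k) ^ a)
    (hγ : ∀ i, (ρ i γ).charpoly =
      ∏ j with c j = i, (minpoly ℚ (π j)).map (algebraMap ℚ k))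
    {L : Type} [Field L] [NumberField L] [IsGalois ℚ L] (j₀ : L →+* ℂ)
    (h : ∀ j, ∀ ψ : K j →+* ℂ, ∃ φ : K j →+* L, j₀.comp φ = ψ)
    (hneat : Neat p a (fun j => π j / (p : K j) ^ (a * e (c j))) L) :
    TateGeneratedByPairs ρ χ e := by
  classical
  have hp : p ≠ 0 := (Fact.out : p.Prime).ne_zero
  have hpK : ∀ j, (p : K j) ≠ 0 := fun j => by exact_mod_cast hp
  intro n t N hN φ hφ
  refine mem_of_twist ρ χ e t hN (fun m φ' hφ' => ?_) φ hφ
  refine tate_of_eigen (a := a) (F := K) (π := fun j => π j / (p : K j) ^ (a * e (c j))) ?_ j₀ h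
    hneat (twist ρ χ e) χ (sumForm ω) (sumForm_alt ω halt) (sumForm_nondeg ω hnd)
    (sumForm_twist ρ χ e ω hω) γ hχ ?_ ?_ φ' hφ'
  · intro j
    have h1 := hw j
    have h2 := pow_ne_zero (a * e (c j)) (hpK j)
    rw [map_div₀, map_pow, map_natCast, div_mul_div_comm, h1, div_eq_iff (mul_ne_zero h2 h2),
      ← pow_add, ← pow_add]
    congr 1
    ring
  · rw [Module.finrank_pi_fintype]
    have h1 : ∀ i, finrank k (V i) = ∑ j with c j = i, finrank ℚ (K j) := by
      intro i
      rw [← LinearMap.charpoly_natDegree (ρ i γ), hγ i, Polynomial.natDegree_prod_of_monic]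
      · refine Finset.sum_congr rfl fun j _ => ?_
        rw [Polynomial.natDegree_map]
        exact (Field.primitive_element_iff_minpoly_natDegree_eq ℚ (π j)).1 (hgen j)
      · intro j _
        exact (minpoly.monic (Algebra.IsIntegral.isIntegral (π j))).map _
    rw [Finset.sum_congr rfl fun i _ => h1 i]
    exact (Finset.sum_fiberwise (Finset.univ : Finset J) c fun j => finrank ℚ (K j)).symm
  · intro Ω j σ
    have h1 : Module.End.HasEigenvalue (bcr (ρ (c j)) Ω γ) (σ (π j)) := by
      rw [Module.End.hasEigenvalue_iff_isRoot_charpoly]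
      have h2 : LinearMap.charpoly (bcr (ρ (c j)) Ω γ) =
          ∏ j' with c j' = c j, (minpoly ℚ (π j')).map (algebraMap ℚ Ω) := by
        change LinearMap.charpoly ((ρ (c j) γ).baseChange Ω) = _
        rw [LinearMap.charpoly_baseChange, hγ, Polynomial.map_prod]
        refine Finset.prod_congr rfl fun i _ => ?_
        rw [Polynomial.map_map]
        congr 1
      rw [h2, Polynomial.IsRoot, Polynomial.eval_prod]
      refine Finset.prod_eq_zero (Finset.mem_filter.2 ⟨Finset.mem_univ j, rfl⟩) ?_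
      rw [Polynomial.eval_map_algebraMap]
      let y : K j →ₐ[ℚ] Ω := RingHom.equivRatAlgHom (K j) Ω σ
      have h2 := minpoly.aeval ℚ (π j)
      have h3 := congrArg y h2
      rw [← Polynomial.aeval_algHom_apply, map_zero] at h3
      exact h3
    have h2 := eigen_twist ρ χ e Ω γ (c j) h1
    convert h2 using 1
    rw [map_div₀, hχ, map_pow, map_pow, map_pow, map_natCast, map_natCast, ← pow_mul,
      div_eq_mul_inv, mul_comm]

end

end Pool.Agent.V1141.OF
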