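import Pool.Agent.H204R3.SP.Full

/-!
# Lie algebras of a symmetric or alternating form that contain the diagonal torus (I)
-/

set_option autoImplicit false
set_option linter.unusedSectionVars false

namespace Pool.Agent.V1141.OF

open Module Pool.Agent.H204R3.SP

noncomputable section

section weights

variable {B : Type} [DecidableEq B] (inv : B → B)

/-- the weight of `a` -/
def eps (a y : B) : ℤ := (if a = y then 1 else 0) - (if a = inv y then 1 else 0)

variable {inv} (hinv : ∀ x, inv (inv x) = x)

include hinv in
theorem eps_inv (a y : B) : eps inv (inv a) y = -eps inv a y := by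
  unfold eps
  have h1 : inv a = y ↔ a = inv y := ⟨fun h => by rw [← h, hinv], fun h => by rw [h, hinv]⟩
  have h2 : inv a = inv y ↔ a = y := ⟨fun h => by rw [← hinv a, h, hinv], fun h => by rw [h]⟩
  simp only [h1, h2]
  ring

theorem eps_bound (a y : B) : -1 ≤ eps inv a y ∧ eps inv a y ≤ 1 := by
  unfold eps
  split_ifs <;> norm_num

theorem eps_self {a : B} (h : inv a ≠ a) : eps inv a a = 1 := by
  unfold eps
  rw [if_pos rfl, if_neg (Ne.symm h), sub_zero]

theorem eps_fix {a : B} (h : inv a = a) (hinv : ∀ x, inv (inv x) = x) (y : B) :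
    eps inv a y = 0 := by
  have h1 := eps_inv hinv a y
  rw [h] at h1
  linarith

include hinv in
theorem eps_inj (hself : ∀ a b, inv a = a → inv b = b → a = b) {a b : B}
    (h : ∀ y, eps inv a y = eps inv b y) : a = b := by
  by_cases ha : inv a = a
  · by_cases hb : inv b = b
    · exact hself a b ha hb
    · have h1 := h b
      rw [eps_self hb, eps_fix ha hinv] at h1
      exact absurd h1 (by norm_num)
  · have h1 := h a
    rw [eps_self ha] at h1
    unfold eps at h1
    by_contra hne
    rw [if_neg (Ne.symm hne)] at h1
    split_ifs at h1 <;> norm_num at h1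

include hinv in
/-- Equal weights of matrix coefficients. -/
theorem weights_eq (hself : ∀ a b, inv a = a → inv b = b → a = b) {x z x' z' : B} (hzx : z ≠ x)
    (h : ∀ y, eps inv z' y - eps inv x' y = eps inv z y - eps inv x y) :
    (z' = z ∧ x' = x) ∨ (z' = inv x ∧ x' = inv z) := by
  by_cases h1 : z' = z
  · left
    refine ⟨h1, eps_inj hinv hself fun y => ?_⟩
    have := h y
    rw [h1] at this
    linarith
  by_cases h2 : z' = inv x
  · right
    refine ⟨h2, ?_⟩
    have h3 : z = inv x' := by
      refine eps_inj hinv hself fun y => ?_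
      have := h y
      rw [h2, eps_inv hinv] at this
      rw [eps_inv hinv]
      linarith
    rw [h3, hinv]
  exfalso
  have e1 : ∀ {a : B}, a ≠ z' → eps inv a z' ≤ 0 := by
    intro a ha
    unfold eps
    rw [if_neg ha]
    split_ifs <;> norm_num
  by_cases h3 : inv z' = z'
  · -- `z'` is self-dual
    have h4 : ∀ y, eps inv z' y = 0 := eps_fix h3 hinv
    have hz : inv z ≠ z := fun h5 => h1 (hself _ _ h3 h5)
    have hx : inv x ≠ x := fun h5 => h2 (by
      have h6 := hself _ _ h3 h5
      rw [h5, h6])
    have h5 := h z
    rw [h4, eps_self hz] at h5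
    have h6 : eps inv x z ≤ 0 := by
      unfold eps
      rw [if_neg (Ne.symm hzx)]
      split_ifs <;> norm_num
    have h7 := (eps_bound (inv := inv) x' z)
    have h8 : eps inv x' z = -1 := by
      have := h7.1
      linarith
    have h9 : x' = inv z := by
      unfold eps at h8
      by_contra h10
      rw [if_neg h10] at h8
      split_ifs at h8 <;> norm_num at h8
    have h10 := h x
    rw [h4, h9, eps_inv hinv, eps_self hx] at h10
    linarith
  · have h4 := h z'
    have h5 := eps_self h3
    have h6 : 0 ≤ eps inv x z' := by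
      have h7 : x ≠ inv z' := fun h8 => h2 (by rw [h8, hinv])
      unfold eps
      rw [if_neg h7]
      split_ifs <;> norm_num
    have h7 := e1 (Ne.symm h1)
    have h8 := eps_bound (inv := inv) x' z'
    have h9 : eps inv x' z' = 1 := by
      have := h8.2
      linarith
    have h10 : x' = z' := by
      by_contra h11
      have := e1 h11
      linarith
    apply hzx
    refine eps_inj hinv hself fun y => ?_
    have := h y
    rw [h10] at this
    linarith

end weights

section mask

variable {k : Type} [Field k] [CharZero k] {V : Type} [AddCommGroup V] [Module k V]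
  {B : Type} [Fintype B] [DecidableEq B] (e : Basis B k V) {inv : B → B}
  (𝔤 : Submodule k (Module.End k V))
  (hbr : ∀ X ∈ 𝔤, ∀ Y ∈ 𝔤, X * Y - Y * X ∈ 𝔤)
  (hD : ∀ y, DD e inv y ∈ 𝔤)

theorem dd_eps (y a : B) : (dd inv y a : k) = (eps inv a y : ℤ) := by
  unfold dd eps
  push_cast
  rfl

include hbr hD in
/-- The component of one weight. -/
theorem mask_all (ys : List B) (lam : B → ℤ) {X : Module.End k V} (hX : X ∈ 𝔤) :
    ∃ Y ∈ 𝔤, ∃ m : B → B → k, (∀ a b, e.repr (Y (e a)) b = m a b * e.repr (X (e a)) b) ∧
      (∀ a b, (∃ y ∈ ys, eps inv b y - eps inv a y ≠ lam y) → m a b = 0) ∧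
      ∀ a b, (∀ y ∈ ys, eps inv b y - eps inv a y = lam y) → m a b ≠ 0 := by
  induction ys with
  | nil =>
    refine ⟨X, hX, fun _ _ => 1, fun a b => by rw [one_mul], fun a b h => ?_,
      fun a b _ => one_ne_zero⟩
    obtain ⟨y, hy, _⟩ := h
    exact absurd hy List.not_mem_nil
  | cons y ys ih =>
    obtain ⟨Y, hY, m, h1, h2, h3⟩ := ih
    obtain ⟨Z, hZ, hZc⟩ := mask e inv 𝔤 hbr hD y
      ((([-2, -1, 0, 1, 2] : List ℤ).filter (· ≠ lam y)).map (fun c : ℤ => (c : k))) Y hY
    let w : B → B → k := fun a b => ((([-2, -1, 0, 1, 2] : List ℤ).filter (· ≠ lam y)).map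
      (fun c : ℤ => ((eps inv b y - eps inv a y - c : ℤ) : k))).prod
    have hw : ∀ a b, (((([-2, -1, 0, 1, 2] : List ℤ).filter (· ≠ lam y)).map
        (fun c : ℤ => (c : k))).map (fun c => dd inv y b - dd inv y a - c)).prod = w a b := by
      intro a b
      rw [List.map_map]
      congr 1
      refine List.map_congr_left fun c _ => ?_
      rw [Function.comp_apply, dd_eps, dd_eps]
      push_cast
      rfl
    refine ⟨Z, hZ, fun a b => w a b * m a b, fun a b => ?_, fun a b h => ?_, fun a b h => ?_⟩
    · rw [hZc, hw, h1, mul_assoc]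
    · obtain ⟨y', hy', hne⟩ := h
      rcases List.mem_cons.1 hy' with rfl | hy'
      · have h4 : w a b = 0 := by
          apply List.prod_eq_zero
          rw [List.mem_map]
          refine ⟨eps inv b y' - eps inv a y', List.mem_filter.2 ⟨?_, by simpa using hne⟩, ?_⟩
          · have h5 := eps_bound (inv := inv) b y'
            have h6 := eps_bound (inv := inv) a y'
            generalize eps inv b y' = p at h5 ⊢
            generalize eps inv a y' = q at h6 ⊢
            obtain ⟨h7, h8⟩ := h5
            obtain ⟨h9, h10⟩ := h6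
            simp only [List.mem_cons, List.not_mem_nil, or_false]
            omega
          · rw [sub_self, Int.cast_zero]
        change w a b * m a b = 0
        rw [h4, zero_mul]
      · change w a b * m a b = 0
        rw [h2 a b ⟨y', hy', hne⟩, mul_zero]
    · refine mul_ne_zero ?_ (h3 a b fun y' hy' => h y' (List.mem_cons_of_mem _ hy'))
      have h4 := h y List.mem_cons_self
      apply List.prod_ne_zero
      rw [List.mem_map]
      rintro ⟨c, hc, h5⟩
      have h6 := (List.mem_filter.1 hc).2
      have h7 : eps inv b y - eps inv a y - c = 0 := by exact_mod_cast h5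
      rw [h4, sub_eq_zero] at h7
      simp [h7] at h6

end mask

end

end Pool.Agent.V1141.OF
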