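import Pool.Agent.V1141.OF.Orth1

/-!
# Lie algebras of a symmetric or alternating form that contain the diagonal torus (II)
-/

set_option autoImplicit false
set_option linter.unusedSectionVars false

namespace Pool.Agent.V1141.OF

open Module Pool.Agent.H204R3.SP

noncomputable section

section TT

variable {k : Type} [Field k] {V : Type} [AddCommGroup V] [Module k V]

/-- The endomorphism `w ↦ ω(u, w) v - s ω(v, w) u`. -/
def TT (ω : V →ₗ[k] V →ₗ[k] k) (s : k) (u v : V) : Module.End k V :=
  (ω u).smulRight v - s • (ω v).smulRight u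

variable (ω : V →ₗ[k] V →ₗ[k] k) {s : k}

theorem TT_apply (u v w : V) : TT ω s u v w = ω u w • v - (s * ω v w) • u := by
  unfold TT
  rw [LinearMap.sub_apply, LinearMap.smul_apply, LinearMap.smulRight_apply,
    LinearMap.smulRight_apply, smul_smul]

theorem TT_bracket {X : Module.End k V} (hX : ∀ u w, ω (X u) w + ω u (X w) = 0) (u v : V) :
    X * TT ω s u v - TT ω s u v * X = TT ω s (X u) v + TT ω s u (X v) := by
  ext w
  rw [LinearMap.sub_apply, Module.End.mul_apply, Module.End.mul_apply, LinearMap.add_apply,
    TT_apply, TT_apply, TT_apply, TT_apply, map_sub, map_smul, map_smul]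
  have h1 : ω u (X w) = -ω (X u) w := by linear_combination hX u w
  have h2 : ω v (X w) = -ω (X v) w := by linear_combination hX v w
  rw [h1, h2]
  module

theorem TT_so (hs : s * s = 1) (hsym : ∀ u v, ω u v = s * ω v u) (u v a b : V) :
    ω (TT ω s u v a) b + ω a (TT ω s u v b) = 0 := by
  rw [TT_apply, TT_apply, map_sub, map_smul, map_smul, LinearMap.sub_apply, LinearMap.smul_apply,
    LinearMap.smul_apply, map_sub, map_smul, map_smul, smul_eq_mul, smul_eq_mul, smul_eq_mul,
    smul_eq_mul, hsym a v, hsym a u]
  linear_combination (-(ω v b * ω u a)) * hs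

theorem TT_swap (hs : s * s = 1) (u v : V) : TT ω s v u = (-s) • TT ω s u v := by
  ext w
  rw [LinearMap.smul_apply, TT_apply, TT_apply, smul_sub, smul_smul, smul_smul]
  have h1 : (-s) * (s * ω v w) = -ω v w := by linear_combination (-ω v w) * hs
  rw [h1]
  module

theorem TT_smul_left (c : k) (u v : V) : TT ω s (c • u) v = c • TT ω s u v := by
  ext w
  rw [LinearMap.smul_apply, TT_apply, TT_apply, map_smul, LinearMap.smul_apply, smul_eq_mul]
  module

theorem TT_smul_right (c : k) (u v : V) : TT ω s u (c • v) = c • TT ω s u v := by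
  ext w
  rw [LinearMap.smul_apply, TT_apply, TT_apply, map_smul, LinearMap.smul_apply, smul_eq_mul]
  module

end TT

variable {k : Type} [Field k] [CharZero k] {V : Type} [AddCommGroup V] [Module k V]
  {B : Type} [Fintype B] [DecidableEq B] (e : Basis B k V) {inv : B → B} {J : B → k}
  (𝔤 : Submodule k (Module.End k V))
  (hbr : ∀ X ∈ 𝔤, ∀ Y ∈ 𝔤, X * Y - Y * X ∈ 𝔤)
  (hD : ∀ y, DD e inv y ∈ 𝔤)
  (hinv : ∀ x, inv (inv x) = x) (hself : ∀ a b, inv a = a → inv b = b → a = b)
  (hJ0 : ∀ x, J x ≠ 0)
  (ω : V →ₗ[k] V →ₗ[k] k) {s : k} (hs : s = 1 ∨ s = -1) (hsym : ∀ u v, ω u v = s * ω v u)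
  (hω : ∀ x y, ω (e x) (e y) = if y = inv x then J x else 0)
  (hsp : ∀ X ∈ 𝔤, ∀ u w, ω (X u) w + ω u (X w) = 0)

include hs in
theorem s_sq : s * s = 1 := by
  rcases hs with h | h <;> rw [h] <;> norm_num

include hs hsym hω hinv in
theorem J_inv (x : B) : J (inv x) = s * J x := by
  have h1 := hω (inv x) x
  rw [hinv, if_pos rfl] at h1
  rw [← h1, hsym, hω, if_pos rfl]

include hω hsym hs hinv in
theorem ne_inv_of_neg (hJ0 : ∀ x, J x ≠ 0) (h : s = -1) (x : B) : inv x ≠ x := by
  intro h1
  have h2 := J_inv e hinv ω hs hsym hω x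
  rw [h1, h] at h2
  apply hJ0 x
  have h3 : (2 : k) * J x = 0 := by linear_combination h2
  exact (mul_eq_zero.1 h3).resolve_left two_ne_zero

include hinv hω in
theorem om_left (v : V) (b : B) : ω v (e (inv b)) = e.repr v b * J b := by
  conv_lhs => rw [← e.sum_repr v]
  rw [map_sum, LinearMap.sum_apply, Finset.sum_eq_single b]
  · rw [map_smul, LinearMap.smul_apply, hω, if_pos rfl, smul_eq_mul]
  · intro c _ hc
    rw [map_smul, LinearMap.smul_apply, hω, if_neg, smul_zero]
    intro h
    exact hc (by rw [← hinv c, ← h, hinv])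
  · intro h
    exact absurd (Finset.mem_univ _) h

include hω in
theorem om_right (a : B) (v : V) : ω (e a) v = J a * e.repr v (inv a) := by
  conv_lhs => rw [← e.sum_repr v]
  rw [map_sum, Finset.sum_eq_single (inv a)]
  · rw [map_smul, hω, if_pos rfl, smul_eq_mul, mul_comm]
  · intro c _ hc
    rw [map_smul, hω, if_neg hc, smul_zero]
  · intro h
    exact absurd (Finset.mem_univ _) h

include hinv hω hs hsym hJ0 in
/-- the diagonal elements -/
theorem TT_diag (x : B) : TT ω s (e (inv x)) (e x) = J (inv x) • DD e inv x := by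
  refine e.ext fun z => ?_
  rw [TT_apply, hω, hω, LinearMap.smul_apply, DD_basis, hinv]
  have h1 := J_inv e hinv ω hs hsym hω x
  unfold dd
  by_cases hz : z = x
  · subst hz
    by_cases hz' : z = inv z
    · rcases hs with h | h
      · simp only [if_true, ← hz', h, sub_self, zero_smul, smul_zero, one_mul]
      · exact absurd hz'.symm (ne_inv_of_neg e hinv ω (Or.inr h) hsym hω hJ0 h z)
    · simp only [if_true, if_neg hz']
      module
  · by_cases hz' : z = inv x
    · subst hz'
      simp only [if_true, if_neg hz, h1]
      module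
    · simp only [if_neg hz, if_neg hz']
      module

/-- `TT` of basis vectors -/
theorem TT_basis (hω : ∀ x y, ω (e x) (e y) = if y = inv x then J x else 0) (p q a : B) :
    TT ω s (e p) (e q) (e a) = (if a = inv p then J p else 0) • e q -
      (s * (if a = inv q then J q else 0)) • e p := by
  rw [TT_apply, hω, hω]

include hbr hD hinv hself hJ0 hs hsym hω hsp in
/-- If an element of the Lie algebra has a nonzero matrix coefficient from `e x` to `e z`, the
corresponding root vector is in the Lie algebra. -/
theorem root_mem' {X : Module.End k V} (hX : X ∈ 𝔤) {x z : B} (hzx : z ≠ x)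
    (hc : e.repr (X (e x)) z ≠ 0) : TT ω s (e (inv x)) (e z) ∈ 𝔤 := by
  have hss := s_sq hs
  obtain ⟨Y, hY, m, h1, h2, h3⟩ := mask_all e 𝔤 hbr hD Finset.univ.toList
    (fun y => eps inv z y - eps inv x y) hX
  have hmz : m x z ≠ 0 := h3 x z fun y _ => rfl
  have hm0 : ∀ a b, ¬ ((b = z ∧ a = x) ∨ (b = inv x ∧ a = inv z)) → m a b = 0 := by
    intro a b hab
    apply h2
    by_contra h
    push Not at h
    exact hab (weights_eq hinv hself hzx fun y => h y (Finset.mem_toList.2 (Finset.mem_univ y)))
  have hY0 : e.repr (Y (e x)) z ≠ 0 := by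
    rw [h1]
    exact mul_ne_zero hmz hc
  have hJx := J_inv e hinv ω hs hsym hω x
  by_cases hz : z = inv x
  · subst hz
    rcases hs with h | h
    · -- orthogonal: the vector is zero
      have h4 : TT ω s (e (inv x)) (e (inv x)) = 0 := by
        ext w
        rw [TT_apply, h, one_mul, sub_self, LinearMap.zero_apply]
      rw [h4]
      exact Submodule.zero_mem _
    · have h4 : TT ω s (e (inv x)) (e (inv x)) =
          (2 * J (inv x) / e.repr (Y (e x)) (inv x)) • Y := by
        refine e.ext fun a => e.repr.injective (Finsupp.ext fun b => ?_)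
        rw [TT_basis e ω hω, hinv, LinearMap.smul_apply, map_smul, Finsupp.smul_apply, map_sub,
          map_smul, map_smul, Finsupp.sub_apply, Finsupp.smul_apply, Finsupp.smul_apply,
          e.repr_self, smul_eq_mul, smul_eq_mul, smul_eq_mul, Finsupp.single_apply]
        by_cases ha : a = x
        · subst ha
          by_cases hb : inv a = b
          · subst hb
            rw [if_pos rfl, if_pos rfl, h, div_mul_cancel₀ _ hY0]
            ring
          · rw [if_neg hb, h1 a b, hm0 a b]
            · ring
            · rintro (⟨h5, -⟩ | ⟨h5, -⟩) <;> exact hb h5.symm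
        · rw [if_neg ha, h1 a b, hm0 a b]
          · ring
          · rintro (⟨-, h5⟩ | ⟨-, h5⟩)
            · exact ha h5
            · exact ha (by rw [h5, hinv])
      rw [h4]
      exact Submodule.smul_mem _ _ hY
  · have hso := hsp Y hY (e x) (e (inv z))
    rw [om_left e hinv ω hω, om_right e ω hω] at hso
    have h4 : TT ω s (e (inv x)) (e z) = (J (inv x) / e.repr (Y (e x)) z) • Y := by
      refine e.ext fun a => e.repr.injective (Finsupp.ext fun b => ?_)
      rw [TT_basis e ω hω, hinv, LinearMap.smul_apply, map_smul, Finsupp.smul_apply, map_sub,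
        map_smul, map_smul, Finsupp.sub_apply, Finsupp.smul_apply, Finsupp.smul_apply,
        e.repr_self, e.repr_self, smul_eq_mul, smul_eq_mul, smul_eq_mul, Finsupp.single_apply,
        Finsupp.single_apply]
      by_cases ha : a = x
      · subst ha
        have haz : a ≠ inv z := fun h => hz (by rw [h, hinv])
        rw [if_pos rfl, if_neg haz]
        by_cases hb : z = b
        · subst hb
          rw [if_pos rfl, div_mul_cancel₀ _ hY0]
          ring
        · rw [if_neg hb, h1 a b, hm0 a b]
          · ring
          · rintro (⟨h5, -⟩ | ⟨-, h5⟩)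
            · exact hb h5.symm
            · exact haz h5
      · rw [if_neg ha]
        by_cases haz : a = inv z
        · subst haz
          rw [if_pos rfl]
          by_cases hb : inv x = b
          · subst hb
            rw [if_pos rfl, hJx]
            have h6 := hJ0 x
            field_simp
            linear_combination (-s) * hso
          · rw [if_neg hb, h1 _ b, hm0 _ b]
            · ring
            · rintro (⟨-, h5⟩ | ⟨h5, -⟩)
              · exact ha h5
              · exact hb h5.symm
        · rw [if_neg haz, h1 a b, hm0 a b]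
          · ring
          · rintro (⟨-, h5⟩ | ⟨-, h5⟩)
            · exact ha h5
            · exact haz h5
    rw [h4]
    exact Submodule.smul_mem _ _ hY

end

end Pool.Agent.V1141.OF
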