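import Pool.Agent.V1141.OF.Orth2

/-!
# Lie algebras of a symmetric or alternating form that contain the diagonal torus (III)
-/

set_option autoImplicit false
set_option linter.unusedSectionVars false

namespace Pool.Agent.V1141.OF

open Module Pool.Agent.H204R3.SP

noncomputable section

variable {k : Type} [Field k] [CharZero k] {V : Type} [AddCommGroup V] [Module k V]
  {B : Type} [Fintype B] [DecidableEq B] (e : Basis B k V) {inv : B → B} {J : B → k}
  (𝔤 : Submodule k (Module.End k V))
  (hbr : ∀ X ∈ 𝔤, ∀ Y ∈ 𝔤, X * Y - Y * X ∈ 𝔤)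
  (hD : ∀ y, DD e inv y ∈ 𝔤)
  (hinv : ∀ x, inv (inv x) = x) (hself : ∀ a b, inv a = a → inv b = b → a = b)
  (hJ0 : ∀ x, J x ≠ 0)
  (ω : V →ₗ[k] V →ₗ[k] k) {s : k} (hs : s = 1 ∨ s = -1) (hsym : ∀ u v, ω u v = s * ω v u)
  (hω : ∀ x y, ω (e x) (e y) = if y = inv x then J x else 0)
  (hsp : ∀ X ∈ 𝔤, ∀ u w, ω (X u) w + ω u (X w) = 0)

/-- The root vector from `e x` to `e z` is in the Lie algebra. -/
def Rl (inv : B → B) (s : k) (x z : B) : Prop :=
  z ≠ x ∧ (s = 1 → z ≠ inv x) ∧ TT ω s (e (inv x)) (e z) ∈ 𝔤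

theorem neg_of_ne {s : k} (hs : s = 1 ∨ s = -1) (h : s ≠ 1) : s = -1 := hs.resolve_left h

include hbr hD hinv hself hJ0 hs hsym hω hsp in
theorem rl_of_entry {X : Module.End k V} (hX : X ∈ 𝔤) {x z : B} (hzx : z ≠ x)
    (hc : e.repr (X (e x)) z ≠ 0) : Rl e 𝔤 ω inv s x z := by
  refine ⟨hzx, fun h1 hz => ?_, root_mem' e 𝔤 hbr hD hinv hself hJ0 ω hs hsym hω hsp hX hzx hc⟩
  subst hz
  apply hc
  have h2 := hsp X hX (e x) (e x)
  rw [hsym (e x), h1, one_mul] at h2
  have h3 := om_left e hinv ω hω (X (e x)) (inv x)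
  rw [hinv] at h3
  rw [h3] at h2
  have h4 : (2 : k) * (e.repr (X (e x)) (inv x) * J (inv x)) = 0 := by linear_combination h2
  exact (mul_eq_zero.1 ((mul_eq_zero.1 h4).resolve_left two_ne_zero)).resolve_right (hJ0 _)

include hbr hinv hJ0 hs hsym hω in
theorem rl_trans {x y z : B} (hxy : Rl e 𝔤 ω inv s x y) (hyz : Rl e 𝔤 ω inv s y z)
    (hzx : z ≠ x) (hz : s = 1 → z ≠ inv x) : Rl e 𝔤 ω inv s x z := by
  refine ⟨hzx, hz, ?_⟩
  have hss := s_sq hs
  have hb := hbr _ hxy.2.2 _ hyz.2.2
  rw [TT_bracket ω (TT_so ω hss hsym _ _), TT_basis e ω hω, TT_basis e ω hω, hinv] at hb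
  rw [if_neg hzx, if_pos (rfl : inv y = inv y), zero_smul, zero_sub] at hb
  have key : ∀ c : k, c ≠ 0 → c • TT ω s (e (inv x)) (e z) ∈ 𝔤 →
      TT ω s (e (inv x)) (e z) ∈ 𝔤 := by
    intro c hc h
    have h1 := Submodule.smul_mem 𝔤 c⁻¹ h
    rwa [smul_smul, inv_mul_cancel₀ hc, one_smul] at h1
  by_cases hy : y = inv x
  · have h1 : s = -1 := neg_of_ne hs fun h => hxy.2.1 h hy
    subst hy
    rw [hinv, if_pos rfl, if_neg hzx, mul_zero, zero_smul, neg_zero, h1] at hb
    refine key (2 * J (inv x)) (mul_ne_zero two_ne_zero (hJ0 _)) ?_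
    rw [h1]
    convert hb using 1
    ext w
    simp only [LinearMap.add_apply, LinearMap.smul_apply, TT_apply, map_sub, map_smul,
      LinearMap.sub_apply, smul_eq_mul, map_zero, LinearMap.zero_apply]
    module
  · have h2 : inv y ≠ x := fun h => hy (by rw [← h, hinv])
    rw [if_neg h2, zero_smul, zero_sub] at hb
    by_cases hzy : z = inv y
    · have h1 : s = -1 := neg_of_ne hs fun h => hyz.2.1 h hzy
      subst hzy
      rw [if_pos rfl, h1] at hb
      refine key (2 * J y) (mul_ne_zero two_ne_zero (hJ0 _)) ?_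
      rw [h1]
      convert hb using 1
      ext w
      simp only [LinearMap.add_apply, LinearMap.smul_apply, TT_apply, map_neg, map_smul,
        LinearMap.neg_apply, smul_eq_mul]
      module
    · rw [if_neg hzy, mul_zero, zero_smul, neg_zero] at hb
      refine key (-(s * J y)) (neg_ne_zero.2 (mul_ne_zero ?_ (hJ0 _))) ?_
      · rintro rfl
        rw [zero_mul] at hss
        exact zero_ne_one hss
      · convert hb using 1
        ext w
        simp only [LinearMap.add_apply, LinearMap.smul_apply, TT_apply, map_neg, map_smul,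
          LinearMap.neg_apply, smul_eq_mul, map_zero, smul_zero, LinearMap.zero_apply]
        module

variable (hopp : ∀ (X Y : Module.End k V) (c : k), X ∈ 𝔤 →
    (∀ u w, ω (Y u) w + ω u (Y w) = 0) → X * Y - Y * X ∈ 𝔤 →
    (X * Y - Y * X) * Y - Y * (X * Y - Y * X) = c • Y → c ≠ 0 → Y ∈ 𝔤)

include hD hinv hself hJ0 hs hsym hω hsp hopp in
theorem rl_symm {x z : B} (h : Rl e 𝔤 ω inv s x z) : Rl e 𝔤 ω inv s z x := by
  have hss := s_sq hs
  have hJx := J_inv e hinv ω hs hsym hω
  refine ⟨Ne.symm h.1, fun h1 h2 => h.2.1 h1 (by rw [h2, hinv]), ?_⟩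
  have hX := h.2.2
  by_cases hz : z = inv x
  · have h1 : s = -1 := neg_of_ne hs fun h' => h.2.1 h' hz
    subst hz
    have hne : inv x ≠ x := h.1
    rw [hinv]
    have hH : TT ω s (e (inv x)) (e (inv x)) * TT ω s (e x) (e x) -
        TT ω s (e x) (e x) * TT ω s (e (inv x)) (e (inv x)) =
        (4 * (J (inv x) * J (inv x))) • DD e inv x := by
      rw [TT_bracket ω (TT_so ω hss hsym _ _), TT_basis e ω hω, hinv, if_pos rfl]
      have h2 := TT_diag e hinv hJ0 ω hs hsym hω x
      have h3 : (4 * (J (inv x) * J (inv x))) • DD e inv x =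
          (4 * J (inv x)) • TT ω s (e (inv x)) (e x) := by
        rw [h2, smul_smul, mul_assoc]
      rw [h3, h1]
      ext w
      simp only [LinearMap.add_apply, LinearMap.smul_apply, TT_apply, map_sub, map_smul,
        LinearMap.sub_apply, smul_eq_mul]
      module
    have hH' : (4 * (J (inv x) * J (inv x))) • DD e inv x ∈ 𝔤 := Submodule.smul_mem _ _ (hD x)
    refine hopp (TT ω s (e (inv x)) (e (inv x))) _ (8 * (J (inv x) * J (inv x))) hX
      (TT_so ω hss hsym _ _) (by rw [hH]; exact hH') ?_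
      (mul_ne_zero (by norm_num) (mul_ne_zero (hJ0 _) (hJ0 _)))
    rw [hH, TT_bracket ω (hsp _ hH'), LinearMap.smul_apply, DD_basis]
    have h4 : (dd inv x x : k) = 1 := by
      unfold dd
      rw [if_pos rfl, if_neg (Ne.symm hne), sub_zero]
    rw [h4, one_smul, TT_smul_left, TT_smul_right]
    module
  · have hz' : x ≠ inv z := fun h' => hz (by rw [h', hinv])
    have hH : TT ω s (e (inv x)) (e z) * TT ω s (e (inv z)) (e x) -
        TT ω s (e (inv z)) (e x) * TT ω s (e (inv x)) (e z) =
        (J (inv x) * J (inv z)) • (DD e inv z - DD e inv x) := by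
      rw [TT_bracket ω (TT_so ω hss hsym _ _), TT_basis e ω hω, TT_basis e ω hω, hinv,
        if_neg (Ne.symm hz'), if_pos rfl, if_pos rfl, if_neg hz']
      have h2 := TT_diag e hinv hJ0 ω hs hsym hω x
      have h3 := TT_diag e hinv hJ0 ω hs hsym hω z
      have h5 : (0 : k) • e z - (s * J z) • e (inv x) = (-J (inv z)) • e (inv x) := by
        rw [hJx z]
        module
      have h6 : J (inv x) • e z - (s * 0) • e (inv x) = J (inv x) • e z := by module
      rw [h5, h6, TT_smul_left, TT_smul_right, h2, h3]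
      module
    have hH' : (J (inv x) * J (inv z)) • (DD e inv z - DD e inv x) ∈ 𝔤 :=
      Submodule.smul_mem _ _ (Submodule.sub_mem _ (hD z) (hD x))
    have he : ∀ y a : B, (dd inv y a : k) = (eps inv a y : ℤ) := dd_eps
    have h7 : eps inv z x = 0 := by
      unfold eps
      rw [if_neg h.1, if_neg hz, sub_zero]
    have h8 : eps inv x z = 0 := by
      unfold eps
      rw [if_neg (Ne.symm h.1), if_neg hz', sub_zero]
    have h9 : ∀ a : B, 0 ≤ eps inv a a ∧ (eps inv a a = 0 → inv a = a) := by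
      intro a
      by_cases ha : inv a = a
      · rw [eps_fix ha hinv]
        exact ⟨le_rfl, fun _ => ha⟩
      · rw [eps_self ha]
        exact ⟨zero_le_one, fun h => absurd h one_ne_zero⟩
    have h10 : ((-(eps inv z z + eps inv x x) : ℤ) : k) ≠ 0 := by
      intro h11
      have h12 : -(eps inv z z + eps inv x x) = 0 := by exact_mod_cast h11
      have h13 := h9 z
      have h14 := h9 x
      exact h.1 (hself z x (h13.2 (by linarith [h13.1, h14.1])) (h14.2 (by linarith [h13.1, h14.1])))
    refine hopp (TT ω s (e (inv x)) (e z)) _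
      (J (inv x) * J (inv z) * ((-(eps inv z z + eps inv x x) : ℤ) : k)) hX
      (TT_so ω hss hsym _ _) (by rw [hH]; exact hH') ?_
      (mul_ne_zero (mul_ne_zero (hJ0 _) (hJ0 _)) h10)
    rw [hH, TT_bracket ω (hsp _ hH'), LinearMap.smul_apply, LinearMap.smul_apply,
      LinearMap.sub_apply, LinearMap.sub_apply, DD_basis, DD_basis, DD_basis, DD_basis, he, he, he,
      he, eps_inv hinv, eps_inv hinv, h7, h8, ← sub_smul, ← sub_smul, smul_smul, smul_smul,
      TT_smul_left, TT_smul_right, ← add_smul]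
    congr 1
    push_cast
    ring

include hbr hinv hJ0 hs hsym hω in
theorem reach_cases {x z : B} (h : Relation.ReflTransGen (Rl e 𝔤 ω inv s) x z) :
    z = x ∨ Rl e 𝔤 ω inv s x z ∨
      (s = 1 ∧ z = inv x ∧ ∃ y, Rl e 𝔤 ω inv s x y ∧ Rl e 𝔤 ω inv s y z) := by
  have hss := s_sq hs
  induction h with
  | refl => exact Or.inl rfl
  | tail hxb hbc ih =>
    rename_i b c
    rcases ih with h | h | ⟨h1, h2, y, h3, h4⟩
    · subst h
      exact Or.inr (Or.inl hbc)
    · by_cases hcx : c = x
      · exact Or.inl hcx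
      · by_cases hc : s = 1 ∧ c = inv x
        · exact Or.inr (Or.inr ⟨hc.1, hc.2, b, h, hbc⟩)
        · exact Or.inr (Or.inl (rl_trans e 𝔤 hbr hinv hJ0 ω hs hsym hω h hbc hcx
            fun h1 h2 => hc ⟨h1, h2⟩))
    · subst h2
      have hc1 : c ≠ inv x := hbc.1
      have hc2 : c ≠ x := fun h => hbc.2.1 h1 (by rw [h, hinv])
      right
      left
      by_cases hcy : c = y
      · rw [hcy]
        exact h3
      · by_cases hcy' : c = inv y
        · subst hcy'
          refine ⟨hc2, fun _ => hc1, ?_⟩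
          rw [TT_swap ω hss]
          exact Submodule.smul_mem _ _ h4.2.2
        · have h5 := rl_trans e 𝔤 hbr hinv hJ0 ω hs hsym hω h4 hbc hcy fun _ => hcy'
          exact rl_trans e 𝔤 hbr hinv hJ0 ω hs hsym hω h3 h5 hc2 fun _ => hc1

include hbr hD hinv hJ0 hs hsym hω in
theorem all_mem (h : ∀ x z, Relation.ReflTransGen (Rl e 𝔤 ω inv s) x z) (a b : B) :
    TT ω s (e a) (e b) ∈ 𝔤 := by
  by_cases hb : b = inv a
  · subst hb
    have h1 := TT_diag e hinv hJ0 ω hs hsym hω (inv a)
    rw [hinv] at h1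
    rw [h1]
    exact Submodule.smul_mem _ _ (hD _)
  · rcases reach_cases e 𝔤 hbr hinv hJ0 ω hs hsym hω (h (inv a) b) with h1 | h1 | ⟨h1, h2, -⟩
    · exact absurd h1 hb
    · have h2 := h1.2.2
      rwa [hinv] at h2
    · rw [hinv] at h2
      subst h2
      have h4 : TT ω s (e b) (e b) = 0 := by
        ext w
        rw [TT_apply, h1, one_mul, sub_self, LinearMap.zero_apply]
      rw [h4]
      exact Submodule.zero_mem _

include hD hself in
/-- Stable subspaces are spanned by basis vectors. -/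
theorem coord_mem (U : Submodule k V) (hU : ∀ X ∈ 𝔤, ∀ u ∈ U, X u ∈ U) {v : V} (hv : v ∈ U)
    {x : B} (hx : e.repr v x ≠ 0) : e x ∈ U := by
  have h1 : ∀ y, inv y ≠ y → e.repr v y • e y ∈ U := by
    intro y hy
    have h2 := hU _ (hD y) v hv
    have h3 := hU _ (hD y) _ h2
    have h4 : e.repr v y • e y = (2 : k)⁻¹ • (DD e inv y v + DD e inv y (DD e inv y v)) := by
      refine e.repr.injective (Finsupp.ext fun b => ?_)
      rw [map_smul, map_smul, map_add, Finsupp.smul_apply, Finsupp.smul_apply, Finsupp.add_apply,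
        DD_repr, DD_repr, DD_repr, e.repr_self, Finsupp.single_apply, smul_eq_mul, smul_eq_mul]
      unfold dd
      by_cases hb : y = b
      · subst hb
        rw [if_pos rfl, if_neg (Ne.symm hy)]
        ring
      · rw [if_neg hb, if_neg (Ne.symm hb)]
        by_cases hb' : b = inv y
        · rw [if_pos hb']
          ring
        · rw [if_neg hb']
          ring
    rw [h4]
    exact Submodule.smul_mem _ _ (Submodule.add_mem _ h2 h3)
  have h2 : e.repr v x • e x ∈ U := by
    by_cases hxx : inv x = x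
    · have h3 : e.repr v x • e x = v - ∑ b ∈ Finset.univ.erase x, e.repr v b • e b := by
        rw [eq_sub_iff_add_eq, Finset.add_sum_erase _ (fun b => e.repr v b • e b)
          (Finset.mem_univ x), e.sum_repr]
      rw [h3]
      refine Submodule.sub_mem _ hv (Submodule.sum_mem _ fun b hb => h1 b fun h4 => ?_)
      exact (Finset.mem_erase.1 hb).1 (hself b x h4 hxx)
    · exact h1 x hxx
  have h3 := Submodule.smul_mem U (e.repr v x)⁻¹ h2
  rwa [smul_smul, inv_mul_cancel₀ hx, one_smul] at h3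

include hD hself in
theorem eq_span_coord (U : Submodule k V) (hU : ∀ X ∈ 𝔤, ∀ u ∈ U, X u ∈ U) :
    U = Submodule.span k (e '' {z | e z ∈ U}) := by
  apply le_antisymm
  · intro v hv
    rw [← e.sum_repr v]
    refine Submodule.sum_mem _ fun b _ => ?_
    by_cases hb : e.repr v b = 0
    · rw [hb, zero_smul]
      exact Submodule.zero_mem _
    · exact Submodule.smul_mem _ _ (Submodule.subset_span
        ⟨b, coord_mem e 𝔤 hD hself U hU hv hb, rfl⟩)
  · rw [Submodule.span_le]
    rintro _ ⟨z, hz, rfl⟩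
    exact hz

variable {Γ : Type} [Group Γ] (ρ : Representation k Γ V)
  (hconj : ∀ (g : Γ) (X : Module.End k V), X ∈ 𝔤 → ρ g * X * ρ g⁻¹ ∈ 𝔤)

include hconj in
theorem map_stable' (U : Submodule k V) (hU : ∀ X ∈ 𝔤, ∀ u ∈ U, X u ∈ U) (g : Γ) :
    ∀ X ∈ 𝔤, ∀ u ∈ U.map (ρ g), X u ∈ U.map (ρ g) := by
  rintro X hX _ ⟨u, hu, rfl⟩
  have h1 := hconj g⁻¹ X hX
  rw [inv_inv] at h1
  refine ⟨_, hU _ h1 u hu, ?_⟩
  rw [Module.End.mul_apply, Module.End.mul_apply, ← Module.End.mul_apply (ρ g) (ρ g⁻¹), ← map_mul,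
    mul_inv_cancel, map_one, Module.End.one_apply]

include hD hself hconj in
/-- Subspaces stable under the Lie algebra are stable under a subgroup of finite index. -/
theorem exists_stabilizer' (U : Submodule k V) (hU : ∀ X ∈ 𝔤, ∀ u ∈ U, X u ∈ U) :
    ∃ Δ : Subgroup Γ, Δ.FiniteIndex ∧ ∀ g ∈ Δ, ∀ u ∈ U, ρ g u ∈ U := by
  have hmm : ∀ s t : Γ, U.map (ρ (s * t)) = (U.map (ρ t)).map (ρ s) := by
    intro s t
    rw [map_mul]
    exact Submodule.map_comp (ρ t) (ρ s) U
  have hm1 : U.map (ρ (1 : Γ)) = U := by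
    rw [map_one]
    exact Submodule.map_id U
  let Δ : Subgroup Γ :=
    { carrier := {s | U.map (ρ s) = U}
      one_mem' := hm1
      mul_mem' := by
        intro s t hs ht
        change U.map (ρ (s * t)) = U
        rw [hmm, show U.map (ρ t) = U from ht, show U.map (ρ s) = U from hs]
      inv_mem' := by
        intro s hs
        change U.map (ρ s⁻¹) = U
        conv_lhs => rw [← show U.map (ρ s) = U from hs]
        rw [← hmm, inv_mul_cancel, hm1] }
  have hΔ : Δ.FiniteIndex := by
    let g : Γ → Set B := fun s => {z | e z ∈ U.map (ρ s)}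
    have hg : ∀ s t, g s = g t → U.map (ρ s) = U.map (ρ t) := by
      intro s t h
      rw [eq_span_coord e 𝔤 hD hself (U.map (ρ s)) (map_stable' 𝔤 ρ hconj U hU s),
        eq_span_coord e 𝔤 hD hself (U.map (ρ t)) (map_stable' 𝔤 ρ hconj U hU t)]
      change Submodule.span k (e '' g s) = Submodule.span k (e '' g t)
      rw [h]
    have hinj : Function.Injective (fun q : Γ ⧸ Δ => g q.out) := by
      intro q q' h
      have h1 := hg _ _ h
      have h2 : (q.out)⁻¹ * q'.out ∈ Δ := by
        change U.map (ρ ((q.out)⁻¹ * q'.out)) = U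
        rw [hmm, ← h1, ← hmm, inv_mul_cancel, hm1]
      rw [← QuotientGroup.out_eq' q, ← QuotientGroup.out_eq' q']
      exact QuotientGroup.eq.2 h2
    have _ : Finite (Γ ⧸ Δ) := Finite.of_injective _ hinj
    exact Subgroup.finiteIndex_of_finite_quotient
  refine ⟨Δ, hΔ, fun s hs u hu => ?_⟩
  have h1 : U.map (ρ s) = U := hs
  rw [← h1]
  exact ⟨u, hu, rfl⟩

include hbr hD hinv hself hJ0 hs hsym hω hsp hopp hconj in
/-- **The block theorem**: if the only endomorphisms commuting with a subgroup of finite index are the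
scalars, the Lie algebra contains the Lie algebra of the form. -/
theorem block_mem (hEnd : ∀ P : Module.End k V,
      (∃ Δ : Subgroup Γ, Δ.FiniteIndex ∧ ∀ g ∈ Δ, ∀ v, P (ρ g v) = ρ g (P v)) →
        ∃ c : k, ∀ v, P v = c • v) (a b : B) : TT ω s (e a) (e b) ∈ 𝔤 := by
  classical
  refine all_mem e 𝔤 hbr hD hinv hJ0 ω hs hsym hω (fun x₀ z₀ => ?_) a b
  have hsymm : ∀ {x z}, Relation.ReflTransGen (Rl e 𝔤 ω inv s) x z →
      Relation.ReflTransGen (Rl e 𝔤 ω inv s) z x := by
    intro x z h
    induction h with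
    | refl => exact Relation.ReflTransGen.refl
    | tail _ hbc ih =>
      exact Relation.ReflTransGen.head
        (rl_symm e 𝔤 hD hinv hself hJ0 ω hs hsym hω hsp hopp hbc) ih
  let S : Setoid B :=
    { r := Relation.ReflTransGen (Rl e 𝔤 ω inv s)
      iseqv := ⟨fun _ => Relation.ReflTransGen.refl, hsymm, fun h h' => h.trans h'⟩ }
  let cls : B → Quotient S := Quotient.mk S
  have hcls : ∀ x z, cls x = cls z ↔ Relation.ReflTransGen (Rl e 𝔤 ω inv s) x z :=
    fun x z => Quotient.eq
  have _ : Fintype (Quotient S) := Fintype.ofFinite _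
  let U : Quotient S → Submodule k V := fun C => Submodule.span k (e '' {z | cls z = C})
  have hUst : ∀ C, ∀ X ∈ 𝔤, ∀ u ∈ U C, X u ∈ U C := by
    intro C X hX u hu
    induction hu using Submodule.span_induction with
    | mem u hu =>
      obtain ⟨x, hx, rfl⟩ := hu
      rw [← e.sum_repr (X (e x))]
      refine Submodule.sum_mem _ fun z _ => ?_
      by_cases hz : e.repr (X (e x)) z = 0
      · rw [hz, zero_smul]
        exact Submodule.zero_mem _
      · refine Submodule.smul_mem _ _ (Submodule.subset_span ⟨z, ?_, rfl⟩)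
        change cls z = C
        rw [← show cls x = C from hx]
        by_cases hzx : z = x
        · rw [hzx]
        · exact ((hcls x z).2 (Relation.ReflTransGen.single
            (rl_of_entry e 𝔤 hbr hD hinv hself hJ0 ω hs hsym hω hsp hX hzx hz))).symm
    | zero =>
      rw [map_zero]
      exact Submodule.zero_mem _
    | add a b _ _ ha hb =>
      rw [map_add]
      exact Submodule.add_mem _ ha hb
    | smul c a _ ha =>
      rw [map_smul]
      exact Submodule.smul_mem _ _ ha
  choose Δ hΔ hΔU using fun C => exists_stabilizer' e 𝔤 hD hself ρ hconj (U C) (hUst C)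
  let P : Module.End k V := e.constr k (fun z => if cls z = cls x₀ then e z else 0)
  have hP : ∀ z, P (e z) = if cls z = cls x₀ then e z else 0 := fun z => Basis.constr_basis _ _ _ _
  have hPU : ∀ C, ∀ v ∈ U C, P v = if C = cls x₀ then v else 0 := by
    intro C v hv
    induction hv using Submodule.span_induction with
    | mem v hv =>
      obtain ⟨z, hz, rfl⟩ := hv
      rw [hP, show cls z = C from hz]
    | zero => rw [map_zero]; split_ifs <;> rfl
    | add a b _ _ ha hb =>
      rw [map_add, ha, hb]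
      split_ifs
      · rfl
      · rw [add_zero]
    | smul c' a _ ha =>
      rw [map_smul, ha]
      split_ifs
      · rfl
      · rw [smul_zero]
  obtain ⟨c, hc⟩ := hEnd P ⟨⨅ C, Δ C, Subgroup.finiteIndex_iInf hΔ, fun g hg v => by
    have h2 : P.comp (ρ g) = (ρ g).comp P := by
      refine e.ext fun y => ?_
      have h3 : e y ∈ U (cls y) := Submodule.subset_span ⟨y, rfl, rfl⟩
      rw [LinearMap.comp_apply, LinearMap.comp_apply,
        hPU (cls y) _ (hΔU (cls y) g (Subgroup.mem_iInf.1 hg (cls y)) _ h3), hP]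
      split_ifs
      · rfl
      · rw [map_zero]
    exact congrArg (fun T : Module.End k V => T v) h2⟩
  have h1 := hc (e x₀)
  rw [hP, if_pos rfl] at h1
  have h2 : c = 1 := by
    have h3 := congrArg (fun v => e.repr v x₀) h1
    simp only [map_smul, Finsupp.smul_apply, e.repr_self, Finsupp.single_eq_same, smul_eq_mul,
      mul_one] at h3
    exact h3.symm
  have h3 := hc (e z₀)
  rw [hP, h2, one_smul] at h3
  have h4 : cls z₀ = cls x₀ := by
    by_contra h5
    rw [if_neg h5] at h3
    exact e.ne_zero z₀ h3.symm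
  exact (hcls x₀ z₀).1 h4.symm

end

end Pool.Agent.V1141.OF
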