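import Pool.Agent.V1141.OF.TimesDefs

/-!
# Tate classes on products of varieties in cohomology groups of any degrees

`V i` is the dual of (a part of) the cohomology group of a variety `X i` in degree `w i`, with the action
`ρ i` of the Galois group `Γ` and the pairing `ω i`; `χ` is the cyclotomic character; `M` is the
cohomology of another variety `U` (or any other representation `τ`).
-/

set_option autoImplicit false

namespace Pool.Agent.V1141.OF

variable {k : Type} [Field k] {I : Type} {V : I → Type} [∀ i, AddCommGroup (V i)]
  [∀ i, Module k (V i)] {M : Type} [AddCommGroup M] [Module k M] {Γ : Type} [Group Γ]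
  (ρ : ∀ i, Representation k Γ (V i)) (τ : Representation k Γ M) (χ : Γ →* k) (w : I → ℕ)
  (ω : ∀ i, V i →ₗ[k] V i →ₗ[k] k)

open Classical in
/-- The pairing `ω i (u, v)` of vectors of the same space `V i = V j`; it is zero if `j ≠ i`. -/
noncomputable def pairing (i j : I) (u : V i) (v : V j) : k :=
  if h : j = i then ω i u (h ▸ v) else 0

/-- `f` is the product of the pairings of the variables, grouped in pairs `ε (l, 0)`, `ε (l, 1)` (of
variables of the same spaces, otherwise `f = 0`), and of a vector `u` of `M` which is a Tate class: a
subgroup of finite index of the Galois group acts on it through the product of the multipliers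
`χ ^ w` of these pairings. -/
def IsPairingProduct {n : ℕ} (t : Fin n → I) (f : MultilinearMap k (fun l => V (t l)) M) : Prop :=
  ∃ (m : ℕ) (ε : Fin m × Fin 2 ≃ Fin n) (u : M),
    (∃ Δ : Subgroup Γ, Δ.FiniteIndex ∧ ∀ s ∈ Δ, τ s u = χ s ^ (∑ l, w (t (ε (l, 1)))) • u) ∧
      ∀ v, f v = (∏ l, pairing ω _ _ (v (ε (l, 0))) (v (ε (l, 1)))) • u

/-- All classes in the tensor products of the `V (t l)` and of `M` which are fixed by a subgroup of
finite index are linear combinations of products of pairings and Tate classes in `M`, if every `V i`
with a symmetric form (`sgn i = 1`) occurs less than `dim (V i)` times among the `V (t l)`. -/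
def TateClassesFromPairings (sgn : I → ℤ) : Prop :=
  ∀ (n : ℕ) (t : Fin n → I), (∀ i, sgn i = 1 → Nat.card {l // t l = i} < Module.finrank k (V i)) →
    ∀ f : MultilinearMap k (fun l => V (t l)) M, IsTateOnTimes ρ τ t f →
      f ∈ Submodule.span k {g | IsPairingProduct τ χ w ω t g}

/-- The eigenvalues of `γ` on the `V i` satisfy only the trivial multiplicative relations with each
other and with the number `β`: if the `N`-th power of a product of eigenvalues `α l` on `V (t l)` is
`β ^ N`, then for every `i` and every pair of numbers `a`, `b` with `a * b = χ γ ^ w i` (dual eigenvalues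
on `V i`) there are as many factors equal to `a` as there are factors equal to `b` among the `α l` with
`t l = i`. -/
def NoRelationsWith (γ : Γ) (β : k) : Prop :=
  ∀ (n : ℕ) (t : Fin n → I) (α : Fin n → k) (N : ℕ), 0 < N →
    (∀ l, Module.End.HasEigenvalue (ρ (t l) γ) (α l)) → (∏ l, α l) ^ N = β ^ N →
    ∀ (i : I) (a b : k), a * b = χ γ ^ w i →
      Nat.card {l // t l = i ∧ α l = a} = Nat.card {l // t l = i ∧ α l = b}

/-- For every eigenvalue `a` of `γ` on some `V i` there is an endomorphism `σ` of the field of
coefficients which fixes a positive power of `β`, the number `χ γ` and the characteristic polynomials of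
`γ` on all `V i'` (for instance if they have rational coefficients), and maps `a` to the dual eigenvalue
`χ γ ^ w i / a`. -/
def ConjugatedWith [∀ i, FiniteDimensional k (V i)] (γ : Γ) (β : k) : Prop :=
  ∀ (i : I) (a : k), Module.End.HasEigenvalue (ρ i γ) a →
    ∃ (σ : k →+* k) (j : ℕ), 0 < j ∧ σ (β ^ j) = β ^ j ∧ σ (χ γ) = χ γ ∧
      (∀ i', (LinearMap.charpoly (ρ i' γ)).map σ = LinearMap.charpoly (ρ i' γ)) ∧
      a * σ a = χ γ ^ w i

/-- The only endomorphisms of `V` which commute with a subgroup of finite index are the scalars. -/
def OnlyScalarEndos {V : Type} [AddCommGroup V] [Module k V] (ρ : Representation k Γ V) : Prop :=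
  ∀ P : Module.End k V,
    (∃ Δ : Subgroup Γ, Δ.FiniteIndex ∧ ∀ g ∈ Δ, ∀ v, P (ρ g v) = ρ g (P v)) →
      ∃ c : k, ∀ v, P v = c • v

end Pool.Agent.V1141.OF
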