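import Pool.Agent.V1141.OF.Times3

/-!
# Products of varieties with an arbitrary representation: the main theorem
-/

set_option autoImplicit false
set_option linter.unusedSectionVars false

namespace Pool.Agent.V1141.OF

open Module Pool.Agent.H204R3.CM Pool.Agent.H204R3.SP Pool.Agent.H204R3.GP
open Pool.Agent.Y137.MV (IsEqv)

noncomputable section

theorem odd_contra' {R : Type} [Fintype R] [DecidableEq R] {inv : R → R}
    (hinv : ∀ x, inv (inv x) = x) (hne : ∀ x, inv x ≠ x) {κ : Type} [Fintype κ]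
    (hκ : Odd (Fintype.card κ)) (J : κ → R)
    (h : ∀ y, (Finset.univ.filter (fun l => J l = y)).card =
      (Finset.univ.filter (fun l => J l = inv y)).card) : False := by
  have h1 : Fintype.card κ = ∑ y, (Finset.univ.filter (fun l => J l = y)).card := by
    rw [← Finset.card_univ]
    exact Finset.card_eq_sum_card_fiberwise fun x _ => Finset.mem_univ (J x)
  have h2 : ((Fintype.card κ : ℕ) : ZMod 2) = 0 := by
    rw [h1, Nat.cast_sum]
    refine Finset.sum_involution (fun y _ => inv y) (fun y _ => ?_) (fun y _ _ => hne y)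
      (fun y _ => Finset.mem_univ _) (fun y _ => hinv y)
    rw [h y]
    exact CharTwo.add_self_eq_zero _
  rw [ZMod.natCast_eq_zero_iff] at h2
  exact Nat.not_even_iff_odd.2 hκ (even_iff_two_dvd.2 h2)

section setup

variable {k : Type} [Field k] [CharZero k] {I : Type} [Fintype I]
  [DecidableEq I] {V : I → Type} [∀ i, AddCommGroup (V i)] [∀ i, Module k (V i)]
  {M : Type} [AddCommGroup M] [Module k M]
  {Γ : Type} [Group Γ] (ρ : ∀ i, Representation k Γ (V i)) (τ : Representation k Γ M)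
  (χ : Γ →* k) (e : I → ℕ) {γ : Γ} {d : I → ℕ} {α : ∀ i, Fin (d i) → k}
  (b : ∀ i, Basis (Fin (d i)) k (V i)) (hα : ∀ i, Function.Injective (α i))
  (hb : ∀ i j, ρ i γ (b i j) = α i j • b i j)
  (hev : ∀ i a, Module.End.HasEigenvalue (ρ i γ) a ↔ ∃ j, α i j = a)

include hα in
theorem sigma_eq (x z : Σ i, Fin (d i)) :
    (x.1 = z.1 ∧ α x.1 x.2 = α z.1 z.2) ↔ x = z := by
  obtain ⟨i, j⟩ := x
  obtain ⟨i', j'⟩ := z
  constructor
  · rintro ⟨h1, h2⟩
    change i = i' at h1
    subst h1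
    exact congrArg (Sigma.mk i) (hα i h2)
  · intro h
    rw [h]
    exact ⟨rfl, rfl⟩

include hα hev in
/-- Relations between the eigenvalues are balanced. -/
theorem bal_of_rel {β : k} (hrel : OnlyTrivialRelations ρ χ e γ β)
    {inv : ∀ i, Fin (d i) → Fin (d i)}
    (hmul : ∀ i j, α i j * α i (inv i j) = χ γ ^ (2 * e i + 1)) {κ : Type} [Fintype κ]
    (J : κ → Σ i, Fin (d i)) {N r r' : ℕ} (hN : 0 < N)
    (h : (∏ l, α (J l).1 (J l).2) ^ N * χ γ ^ (N * r) = β ^ N * χ γ ^ (N * r'))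
    (y : Σ i, Fin (d i)) :
    (Finset.univ.filter (fun l => J l = y)).card =
      (Finset.univ.filter (fun l => J l = ⟨y.1, inv y.1 y.2⟩)).card := by
  classical
  let E : κ ≃ Fin (Fintype.card κ) := Fintype.equivFin κ
  have h1 := hrel (Fintype.card κ) (fun l => (J (E.symm l)).1)
    (fun l => α (J (E.symm l)).1 (J (E.symm l)).2) N r r' hN (fun l => (hev _ _).2 ⟨_, rfl⟩)
    (by
      rw [← h]
      congr 2
      exact Fintype.prod_equiv E.symm _ _ fun l => rfl) y.1 _ _ (hmul y.1 y.2)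
  have h2 : ∀ z : Σ i, Fin (d i), Nat.card {l // (J (E.symm l)).1 = z.1 ∧
      α (J (E.symm l)).1 (J (E.symm l)).2 = α z.1 z.2} =
      (Finset.univ.filter (fun l => J l = z)).card := by
    intro z
    refine (Nat.card_congr (Equiv.subtypeEquiv (q := fun l => J l = z) E.symm fun l => ?_)).trans ?_
    · exact sigma_eq hα _ _
    · rw [Nat.card_eq_fintype_card, Fintype.card_subtype]
  have h3 := h2 y
  have h4 := h2 ⟨y.1, inv y.1 y.2⟩
  rw [← h3, ← h4]
  exact h1

include hb in
theorem rho_pow (N : ℕ) (i : I) (j : Fin (d i)) : ρ i (γ ^ N) (b i j) = α i j ^ N • b i j := by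
  induction N with
  | zero => rw [pow_zero, pow_zero, one_smul, map_one]; rfl
  | succ n ih =>
    rw [pow_succ, map_mul, pow_succ, Module.End.mul_apply, hb, map_smul, ih, smul_smul, mul_comm]

theorem basis_single (x : Σ i, Fin (d i)) :
    (Pi.basis b) x = LinearMap.single k V x.1 (b x.1 x.2) := by
  rw [Pi.basis_apply]
  rfl

include hb in
theorem twist_pow (N : ℕ) (x : Σ i, Fin (d i)) :
    twist ρ χ e (γ ^ N) ((Pi.basis b) x) =
      ((χ γ ^ (N * e x.1))⁻¹ * α x.1 x.2 ^ N) • (Pi.basis b) x := by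
  rw [basis_single, twist_single, rho_pow ρ b hb, map_smul, smul_smul, map_pow, ← pow_mul]

theorem sumForm_single (ω : ∀ i, V i →ₗ[k] V i →ₗ[k] k) (i i' : I) (u : V i) (v : V i') :
    sumForm ω (LinearMap.single k V i u) (LinearMap.single k V i' v) =
      if h : i' = i then ω i u (h ▸ v) else 0 := by
  rw [sumForm_apply, Finset.sum_eq_single i]
  · by_cases h : i' = i
    · subst h
      rw [dif_pos rfl, LinearMap.single_apply, LinearMap.single_apply, Pi.single_eq_same,
        Pi.single_eq_same]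
    · rw [dif_neg h]
      have h1 : (LinearMap.single k V i' v) i = 0 := Pi.single_eq_of_ne (Ne.symm h) _
      rw [h1, map_zero]
  · intro j _ hj
    have h1 : (LinearMap.single k V i u) j = 0 := Pi.single_eq_of_ne hj _
    rw [h1, map_zero, LinearMap.zero_apply]
  · intro h
    exact absurd (Finset.mem_univ _) h

end setup

/-- Products of Tate forms of degree two are Tate forms. -/
theorem tate_of_product {k : Type} [Field k] {I : Type} {V : I → Type}
    [∀ i, AddCommGroup (V i)] [∀ i, Module k (V i)] {Γ : Type} [Group Γ]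
    (ρ : ∀ i, Representation k Γ (V i)) (χ : Γ →* k) (e : I → ℕ) {n N : ℕ} {t : Fin n → I}
    (hN : 2 * N = ∑ l, (2 * e (t l) + 1)) {ψ : MultilinearMap k (fun l => V (t l)) k}
    (h : IsProductOfTwo ρ χ e t ψ) : ∃ Δ : Subgroup Γ, Δ.FiniteIndex ∧ ∀ s ∈ Δ,
      ∀ v : ∀ l, V (t l), ψ (fun l => ρ (t l) s (v l)) = χ s ^ N * ψ v := by
  obtain ⟨m, ε, B, hB, hψ⟩ := h
  choose Δ hΔ hB using hB
  refine ⟨⨅ l, Δ l, Subgroup.finiteIndex_iInf hΔ, fun s hs v => ?_⟩
  rw [hψ, hψ, Finset.prod_congr rfl fun l _ => hB l s (Subgroup.mem_iInf.1 hs l) _ _,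
    Finset.prod_mul_distrib, Finset.prod_pow_eq_pow_sum]
  congr 2
  have h1 : ∑ l, (2 * e (t l) + 1) = ∑ l : Fin m, ((2 * e (t (ε (l, 0))) + 1) +
      (2 * e (t (ε (l, 1))) + 1)) := by
    rw [← Equiv.sum_comp ε, Fintype.sum_prod_type]
    exact Finset.sum_congr rfl fun l _ => Fin.sum_univ_two _
  have h2 : 2 * N = 2 * ∑ l : Fin m, (e (t (ε (l, 0))) + e (t (ε (l, 1))) + 1) := by
    rw [hN, h1, Finset.mul_sum]
    exact Finset.sum_congr rfl fun l _ => by ring
  omega

theorem times_main {k : Type} [Field k] [CharZero k] [IsAlgClosed k] {I : Type} [Fintype I]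
    [DecidableEq I] {V : I → Type} [∀ i, AddCommGroup (V i)] [∀ i, Module k (V i)]
    [∀ i, FiniteDimensional k (V i)] {M : Type} [AddCommGroup M] [Module k M]
    [FiniteDimensional k M] {Γ : Type} [Group Γ] (ρ : ∀ i, Representation k Γ (V i))
    (τ : Representation k Γ M) (χ : Γ →* k) (e : I → ℕ)
    (ω : ∀ i, V i →ₗ[k] V i →ₗ[k] k) (halt : ∀ i, ∀ v, ω i v v = 0)
    (hnd : ∀ i, ∀ u, (∀ v, ω i v u = 0) → u = 0)
    (hω : ∀ i s u v, ω i (ρ i s u) (ρ i s v) = χ s ^ (2 * e i + 1) * ω i u v)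
    (γ : Γ) (hsep : ∀ i, (ρ i γ).charpoly.Separable) (hrel1 : OnlyTrivialRelations ρ χ e γ 1)
    (hrel : ∀ β, Module.End.HasEigenvalue (τ γ) β → OnlyTrivialRelations ρ χ e γ β) :
    TateClassesSplit ρ τ χ e := by
  classical
  have hχ : χ γ ≠ 0 := chi_ne χ γ
  choose d α b hα hb hev using fun i => exists_eigenbasis_sep (ρ i γ) (hsep i)
  have hα0 : ∀ i j, α i j ≠ 0 := by
    intro i j h
    have h1 : ρ i γ⁻¹ (ρ i γ (b i j)) = b i j := by
      rw [← Module.End.mul_apply, ← map_mul, inv_mul_cancel, map_one, Module.End.one_apply]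
    rw [hb, h, zero_smul, map_zero] at h1
    exact (b i).ne_zero j h1.symm
  have hanti : ∀ i, ∀ u v, ω i u v = (-1 : k) * ω i v u := by
    intro i u v
    have h1 := halt i (u + v)
    simp only [map_add, LinearMap.add_apply, halt, zero_add, add_zero] at h1
    rw [neg_one_mul]
    exact eq_neg_of_add_eq_zero_left (by rw [← h1]; ring)
  have hnd' : ∀ i, ∀ u, (∀ v, ω i u v = 0) → u = 0 := by
    intro i u hu
    apply hnd i
    intro v
    rw [hanti, hu, mul_zero]
  choose inv hinv hmul hzero hnz using fun i => exists_inv (b i) (hb i) (hα i) (hα0 i) (ω i)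
    (s := -1) (by norm_num) (hanti i) (hnd' i) (hω i γ)
  have hne : ∀ i j, inv i j ≠ j := by
    intro i j h
    apply hnz i j
    rw [h, halt]
  let iv : (Σ i, Fin (d i)) → (Σ i, Fin (d i)) := fun x => ⟨x.1, inv x.1 x.2⟩
  have hiv : ∀ x, iv (iv x) = x := by
    rintro ⟨i, j⟩
    exact congrArg (Sigma.mk i) (hinv i j)
  have hive : ∀ x, iv x ≠ x := by
    rintro ⟨i, j⟩ h
    apply hne i j
    have h1 := (sigma_eq hα (iv ⟨i, j⟩) ⟨i, j⟩).2 h
    exact hα i h1.2
  let jj : (Σ i, Fin (d i)) → k := fun x => ω x.1 (b x.1 x.2) (b x.1 (inv x.1 x.2))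
  have hjj : ∀ x, jj (iv x) = -jj x := by
    rintro ⟨i, j⟩
    change ω i (b i (inv i j)) (b i (inv i (inv i j))) = -ω i (b i j) (b i (inv i j))
    rw [hinv, hanti, neg_one_mul]
  have hj0 : ∀ x, jj x ≠ 0 := fun x => hnz x.1 x.2
  have hωE : ∀ x y, sumForm ω ((Pi.basis b) x) ((Pi.basis b) y) = JJ iv jj x y := by
    rintro ⟨i, j⟩ ⟨i', j'⟩
    rw [basis_single, basis_single, sumForm_single]
    unfold JJ
    by_cases h : i' = i
    · subst h
      rw [dif_pos rfl]
      by_cases h2 : j' = inv i' j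
      · subst h2
        rw [if_pos rfl]
      · rw [if_neg]
        · exact hzero i' j j' h2
        · intro h3
          apply h2
          have h1 := (sigma_eq hα ⟨i', j'⟩ (iv ⟨i', j⟩)).2 h3
          exact hα i' h1.2
    · rw [dif_neg h, if_neg]
      intro h3
      exact h (congrArg Sigma.fst h3)
  have hbal : ∀ (m : ℕ) (φ : MultilinearMap k (fun _ : Fin m × Fin 2 => ∀ i, V i) k),
      IsTate (twist ρ χ e) χ m φ → ∀ J : Fin m × Fin 2 → Σ i, Fin (d i),
        φ (fun l => (Pi.basis b) (J l)) ≠ 0 → ∀ y,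
        (Finset.univ.filter (fun l => J l = y)).card =
          (Finset.univ.filter (fun l => J l = iv y)).card := by
    rintro m φ ⟨Δ, hΔ, hφ⟩ J hJ y
    obtain ⟨N, hN, -, hNΔ⟩ := Subgroup.exists_pow_mem_of_index_ne_zero hΔ.index_ne_zero γ
    have h1 := hφ (γ ^ N) hNΔ (fun l => (Pi.basis b) (J l))
    simp only [twist_pow ρ χ e b hb] at h1
    rw [MultilinearMap.map_smul_univ, smul_eq_mul] at h1
    have h2 := mul_right_cancel₀ hJ h1
    rw [Finset.prod_mul_distrib, Finset.prod_inv_distrib, Finset.prod_pow_eq_pow_sum,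
      Finset.prod_pow, map_pow, ← pow_mul, ← Finset.mul_sum] at h2
    refine bal_of_rel ρ χ e hα hev hrel1 hmul J (N := N) (r := 0)
      (r' := ∑ l, e (J l).1 + m) hN ?_ y
    have h3 : χ γ ^ (N * ∑ l, e (J l).1) ≠ 0 := pow_ne_zero _ hχ
    rw [inv_mul_eq_iff_eq_mul₀ h3] at h2
    rw [h2, mul_zero, pow_zero, mul_one, one_pow, one_mul, ← pow_add]
    congr 1
    ring
  have hbalM : ∀ (c : ℕ) (κ : Type) [Fintype κ] [DecidableEq κ]
      (φ : MultilinearMap k (fun _ : κ => ∀ i, V i) M), IsEqv (twist ρ χ e) (twistM τ χ c) φ →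
      ∀ J : κ → Σ i, Fin (d i), φ (fun l => (Pi.basis b) (J l)) ≠ 0 → ∀ y,
        (Finset.univ.filter (fun l => J l = y)).card =
          (Finset.univ.filter (fun l => J l = iv y)).card := by
    rintro c κ _ _ φ ⟨Δ, hΔ, hφ⟩ J hJ y
    obtain ⟨N, hN, -, hNΔ⟩ := Subgroup.exists_pow_mem_of_index_ne_zero hΔ.index_ne_zero γ
    have h1 := hφ (γ ^ N) hNΔ (fun l => (Pi.basis b) (J l))
    simp only [twist_pow ρ χ e b hb] at h1
    rw [MultilinearMap.map_smul_univ, twistM_apply, Finset.prod_mul_distrib,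
      Finset.prod_inv_distrib, Finset.prod_pow_eq_pow_sum, Finset.prod_pow, map_pow, map_pow,
      ← pow_mul, ← Finset.mul_sum] at h1
    have h3 : χ γ ^ (N * ∑ l, e (J l).1) ≠ 0 := pow_ne_zero _ hχ
    have h4 : χ γ ^ (N * c) ≠ 0 := pow_ne_zero _ hχ
    have h2 := congrArg (fun w => χ γ ^ (N * c) • w) h1
    simp only [smul_smul] at h2
    rw [mul_inv_cancel₀ h4, one_smul] at h2
    obtain ⟨β, hβ, hβN⟩ := exists_eigenvalue_of_pow (τ γ) hN hJ h2.symm
    refine bal_of_rel ρ χ e hα hev (hrel β hβ) hmul J (N := N) (r := c)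
      (r' := ∑ l, e (J l).1) hN ?_ y
    rw [hβN]
    field_simp
  intro n t f hf
  rcases Nat.even_or_odd n with hn | hn
  · obtain ⟨m, hm⟩ := even_iff_two_dvd.1 hn
    have hsum : ∑ l, (2 * e (t l) + 1) = 2 * (∑ l, e (t l) + m) := by
      rw [Finset.sum_add_distrib, ← Finset.mul_sum, Finset.sum_const, Finset.card_univ,
        Fintype.card_fin, smul_eq_mul, mul_one]
      omega
    obtain ⟨ε⟩ : Nonempty (Fin m × Fin 2 ≃ Fin n) := by
      rw [← Fintype.card_eq, Fintype.card_prod, Fintype.card_fin, Fintype.card_fin,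
        Fintype.card_fin]
      omega
    let f' : MultilinearMap k (fun _ : Fin m × Fin 2 => ∀ i, V i) M :=
      (f.compLinearMap fun l => LinearMap.proj (t l)).domDomCongr ε.symm
    have hf'a : ∀ v, f' v = f (fun l => v (ε.symm l) (t l)) := fun v => rfl
    have hf' : IsEqv (twist ρ χ e) (twistM τ χ (∑ l, e (t l))) f' := by
      obtain ⟨Δ, hΔ, h⟩ := hf
      refine ⟨Δ, hΔ, fun s hs v => ?_⟩
      rw [hf'a, hf'a, twistM_apply]
      have h1 := h s hs (fun l => v (ε.symm l) (t l))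
      have h2 : (fun l => twist ρ χ e s (v (ε.symm l)) (t l)) =
          fun l => (χ s ^ e (t l))⁻¹ • ρ (t l) s (v (ε.symm l) (t l)) := by
        funext l
        rw [twist_apply]
      rw [h2, MultilinearMap.map_smul_univ, h1, Finset.prod_inv_distrib,
        Finset.prod_pow_eq_pow_sum]
    have hcomp : ∀ l : M →ₗ[k] k, l.compMultilinearMap f ∈
        Submodule.span k {ψ | IsProductOfTwo ρ χ e t ψ} := by
      intro l
      have h1 := comp_memN (twist ρ χ e) χ (twistM τ χ (∑ l, e (t l))) (Pi.basis b) hiv hive hjj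
        hj0 (sumForm ω) hωE (sumForm_twist ρ χ e ω hω) hbal (hbalM _) hf' l
      have h2 : restr t ε (l.compMultilinearMap f') = l.compMultilinearMap f := by
        ext v
        rw [restr_apply]
        change l (f' _) = l (f v)
        rw [hf'a]
        congr 2
        funext l
        rw [LinearMap.single_apply]
        have h3 : ∀ (l' : Fin n), l' = l →
            (Pi.single (t l') (v l') : ∀ i, V i) (t l) = v l := by
          rintro l' rfl
          exact Pi.single_eq_same _ _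
        exact h3 _ (ε.apply_symm_apply l)
      rw [← h2]
      have h3 : (Submodule.span k (PT (twist ρ χ e) χ m)).map (restr t ε) ≤
          Submodule.span k {ψ | IsProductOfTwo ρ χ e t ψ} := by
        rw [Submodule.map_span, Submodule.span_le]
        rintro _ ⟨ψ, hψ, rfl⟩
        exact Submodule.subset_span (restr_PT ρ χ e t ε hψ)
      exact h3 ⟨_, h1, rfl⟩
    have h1 := final_abs τ (fun l => ρ (t l)) (fun s => χ s ^ (∑ l, e (t l) + m))
      {ψ | IsProductOfTwo ρ χ e t ψ} (fun g hg => tate_of_product ρ χ e hsum.symm hg) f hf hcomp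
    refine Submodule.span_mono ?_ h1
    rintro h ⟨g, hg, w, hw, hh⟩
    exact ⟨g, hg, w, ∑ l, e (t l) + m, hsum.symm, hw, hh⟩
  · have h0 : f = 0 := by
      refine Basis.ext_multilinear (fun l => b (t l)) fun J => ?_
      rw [zero_apply]
      by_contra hJ
      obtain ⟨Δ, hΔ, h⟩ := hf
      obtain ⟨N, hN, -, hNΔ⟩ := Subgroup.exists_pow_mem_of_index_ne_zero hΔ.index_ne_zero γ
      have h1 := h (γ ^ N) hNΔ (fun l => b (t l) (J l))
      simp only [rho_pow ρ b hb] at h1
      rw [MultilinearMap.map_smul_univ, map_pow, Finset.prod_pow] at h1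
      obtain ⟨β, hβ, hβN⟩ := exists_eigenvalue_of_pow (τ γ) hN hJ h1.symm
      refine odd_contra' hiv hive (κ := Fin n) (by rwa [Fintype.card_fin])
        (fun l => (⟨t l, J l⟩ : Σ i, Fin (d i))) ?_
      intro y
      refine bal_of_rel ρ χ e hα hev (hrel β hβ) hmul (fun l => (⟨t l, J l⟩ : Σ i, Fin (d i)))
        (N := N) (r := 0) (r' := 0) hN ?_ y
      rw [hβN]
    rw [h0]
    exact Submodule.zero_mem _

end

end Pool.Agent.V1141.OF
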