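import Pool.Agent.V1141.OF.Orth3
import Pool.Agent.V1141.OF.Times4
import Pool.Agent.V1141.OF.OrthDefs
import Pool.Agent.TH125.Nod.Fft2

/-!
# Direct sums of representations with symmetric or alternating forms
-/

set_option autoImplicit false
set_option linter.unusedSectionVars false

namespace Pool.Agent.V1141.OF

open Module Pool.Agent.H204R3.CM Pool.Agent.H204R3.SP Pool.Agent.H204R3.GP
open Pool.Agent.Y137.MV (IsEqv kills_zero kills_add kills_smul kills_conj eqv_pull dd_kills)

noncomputable section

variable {k : Type} [Field k] [CharZero k] {I : Type} [Fintype I] [DecidableEq I] {V : I → Type}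
  [∀ i, AddCommGroup (V i)] [∀ i, Module k (V i)] {M : Type} [AddCommGroup M] [Module k M]
  {Γ : Type} [Group Γ] (ρ : ∀ i, Representation k Γ (V i)) (τ : Representation k Γ M)

/-- the direct sum of the representations -/
def sumRep : Representation k Γ (∀ i, V i) where
  toFun s := LinearMap.pi fun i => (ρ i s).comp (LinearMap.proj i)
  map_one' := by
    refine LinearMap.ext fun v => funext fun i => ?_
    rw [LinearMap.pi_apply, LinearMap.comp_apply, map_one]
    rfl
  map_mul' s t := by
    refine LinearMap.ext fun v => funext fun i => ?_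
    rw [LinearMap.pi_apply, Module.End.mul_apply, LinearMap.pi_apply,
      LinearMap.comp_apply, LinearMap.comp_apply, LinearMap.proj_apply,
      LinearMap.proj_apply, LinearMap.pi_apply, LinearMap.comp_apply,
      LinearMap.proj_apply, map_mul, Module.End.mul_apply]

theorem sumRep_apply (s : Γ) (v : ∀ i, V i) (i : I) : sumRep ρ s v i = ρ i s (v i) := rfl

theorem sumRep_single (s : Γ) (i : I) (u : V i) :
    sumRep ρ s (LinearMap.single k V i u) = LinearMap.single k V i (ρ i s u) := by
  funext j
  rw [sumRep_apply, LinearMap.single_apply, LinearMap.single_apply]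
  by_cases h : j = i
  · subst h
    rw [Pi.single_eq_same, Pi.single_eq_same]
  · rw [Pi.single_eq_of_ne h, Pi.single_eq_of_ne h, map_zero]

/-- an endomorphism of `V i` as an endomorphism of the direct sum -/
def io (k : Type) [Field k] {V : I → Type} [∀ i, AddCommGroup (V i)] [∀ i, Module k (V i)]
    (i : I) (X : Module.End k (V i)) : Module.End k (∀ i, V i) :=
  (LinearMap.single k V i).comp (X.comp (LinearMap.proj i))

theorem io_apply (i : I) (X : Module.End k (V i)) (v : ∀ i, V i) :
    io k i X v = LinearMap.single k V i (X (v i)) := rfl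

theorem io_mul (i : I) (X Y : Module.End k (V i)) : io k i (X * Y) = io k i X * io k i Y := by
  refine LinearMap.ext fun v => ?_
  rw [Module.End.mul_apply, io_apply, io_apply, io_apply, LinearMap.single_apply,
    LinearMap.single_apply, LinearMap.single_apply, Pi.single_eq_same, Module.End.mul_apply]

theorem io_sub (i : I) (X Y : Module.End k (V i)) : io k i (X - Y) = io k i X - io k i Y := by
  refine LinearMap.ext fun v => ?_
  rw [LinearMap.sub_apply, io_apply, io_apply, io_apply, LinearMap.sub_apply, map_sub]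

theorem io_add (i : I) (X Y : Module.End k (V i)) : io k i (X + Y) = io k i X + io k i Y := by
  refine LinearMap.ext fun v => ?_
  rw [LinearMap.add_apply, io_apply, io_apply, io_apply, LinearMap.add_apply, map_add]

theorem io_smul (i : I) (c : k) (X : Module.End k (V i)) : io k i (c • X) = c • io k i X := by
  refine LinearMap.ext fun v => ?_
  rw [LinearMap.smul_apply, io_apply, io_apply, LinearMap.smul_apply, map_smul]

theorem io_zero (i : I) : io k i (0 : Module.End k (V i)) = 0 := by
  refine LinearMap.ext fun v => ?_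
  rw [io_apply, LinearMap.zero_apply, map_zero, LinearMap.zero_apply]

theorem io_conj (i : I) (s : Γ) (X : Module.End k (V i)) :
    sumRep ρ s * io k i X * sumRep ρ s⁻¹ = io k i (ρ i s * X * ρ i s⁻¹) := by
  refine LinearMap.ext fun v => ?_
  rw [Module.End.mul_apply, Module.End.mul_apply, io_apply, io_apply, sumRep_single, sumRep_apply]
  rfl

variable (ω : ∀ i, V i →ₗ[k] V i →ₗ[k] k)

/-- The endomorphisms of `V i` of the Lie algebra of the form which kill all scalar components of
equivariant maps. -/
def lieO (i : I) : Submodule k (Module.End k (V i)) where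
  carrier := {X | (∀ u w, ω i (X u) w + ω i u (X w) = 0) ∧
    ∀ (κ : Type) [Fintype κ] [DecidableEq κ] (φ : MultilinearMap k (fun _ : κ => ∀ i, V i) M)
      (l : M →ₗ[k] k), IsEqv (sumRep ρ) τ φ → Kills (io k i X) (l.compMultilinearMap φ)}
  zero_mem' := ⟨fun u w => by
      rw [LinearMap.zero_apply, LinearMap.zero_apply, map_zero, map_zero, LinearMap.zero_apply,
        add_zero], fun κ _ _ φ l _ => by rw [io_zero]; exact kills_zero⟩
  add_mem' := fun {X Y} hX hY => ⟨fun u w => by
      rw [LinearMap.add_apply, LinearMap.add_apply, map_add, map_add, LinearMap.add_apply]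
      linear_combination hX.1 u w + hY.1 u w,
    fun κ _ _ φ l h => by
      rw [io_add]
      exact kills_add (hX.2 κ φ l h) (hY.2 κ φ l h)⟩
  smul_mem' := fun c X hX => ⟨fun u w => by
      rw [LinearMap.smul_apply, LinearMap.smul_apply, map_smul, map_smul, LinearMap.smul_apply,
        smul_eq_mul, smul_eq_mul]
      linear_combination c * hX.1 u w,
    fun κ _ _ φ l h => by
      rw [io_smul]
      exact kills_smul c (hX.2 κ φ l h)⟩

theorem lieO_bracket (i : I) {X Y : Module.End k (V i)} (hX : X ∈ lieO ρ τ ω i)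
    (hY : Y ∈ lieO ρ τ ω i) : X * Y - Y * X ∈ lieO ρ τ ω i := by
  refine ⟨fun u w => ?_, fun κ _ _ φ l h => ?_⟩
  · rw [LinearMap.sub_apply, LinearMap.sub_apply, Module.End.mul_apply, Module.End.mul_apply,
      Module.End.mul_apply, Module.End.mul_apply, map_sub, map_sub, LinearMap.sub_apply]
    linear_combination hX.1 (Y u) w - hY.1 (X u) w + hX.1 u (Y w) - hY.1 u (X w)
  · rw [io_sub, io_mul, io_mul]
    exact kills_bracket (hX.2 κ φ l h) (hY.2 κ φ l h)

theorem lieO_conj (i : I) {c : Γ → k} (hω : ∀ s u v, ω i (ρ i s u) (ρ i s v) = c s * ω i u v)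
    (s : Γ) {X : Module.End k (V i)} (hX : X ∈ lieO ρ τ ω i) :
    ρ i s * X * ρ i s⁻¹ ∈ lieO ρ τ ω i := by
  have hinv : ∀ v, ρ i s (ρ i s⁻¹ v) = v := fun v => by
    rw [← Module.End.mul_apply, ← map_mul, mul_inv_cancel, map_one, Module.End.one_apply]
  refine ⟨fun u w => ?_, fun κ _ _ φ l h => ?_⟩
  · have h1 := hX.1 (ρ i s⁻¹ u) (ρ i s⁻¹ w)
    have h2 := hω s (X (ρ i s⁻¹ u)) (ρ i s⁻¹ w)
    have h3 := hω s (ρ i s⁻¹ u) (X (ρ i s⁻¹ w))
    rw [hinv] at h2 h3
    change ω i (ρ i s (X (ρ i s⁻¹ u))) w + ω i u (ρ i s (X (ρ i s⁻¹ w))) = 0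
    rw [h2, h3, ← mul_add, h1, mul_zero]
  · rw [← io_conj]
    refine kills_conj (sumRep ρ) s ?_
    have h1 := hX.2 κ _ (l.comp (τ s)) (eqv_pull (sumRep ρ) τ h s)
    have h2 : (l.compMultilinearMap φ).compLinearMap (fun _ => sumRep ρ s) =
        (l.comp (τ s)).compMultilinearMap ((τ s⁻¹).compMultilinearMap
          (φ.compLinearMap (fun _ => sumRep ρ s))) := by
      refine MultilinearMap.ext fun v => ?_
      change l (φ (fun j => sumRep ρ s (v j))) = l (τ s (τ s⁻¹ (φ (fun j => sumRep ρ s (v j)))))
      rw [← Module.End.mul_apply, ← map_mul, mul_inv_cancel, map_one]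
      rfl
    rw [h2]
    exact h1

theorem lieO_opp [∀ i, FiniteDimensional k (V i)] (i : I) (X Y : Module.End k (V i)) (c : k)
    (hX : X ∈ lieO ρ τ ω i) (hY : ∀ u w, ω i (Y u) w + ω i u (Y w) = 0)
    (hH : X * Y - Y * X ∈ lieO ρ τ ω i)
    (hHY : (X * Y - Y * X) * Y - Y * (X * Y - Y * X) = c • Y) (hc : c ≠ 0) :
    Y ∈ lieO ρ τ ω i := by
  refine ⟨hY, fun κ _ _ φ l h => ?_⟩
  have h1 := hH.2 κ φ l h
  rw [io_sub, io_mul, io_mul] at h1
  refine kills_opposite hc ?_ (hX.2 κ φ l h) h1
  have h2 := congrArg (io k i) hHY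
  rw [io_sub, io_mul, io_mul, io_sub, io_mul, io_mul, io_smul] at h2
  exact h2

end

end Pool.Agent.V1141.OF
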