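import Pool.Agent.V1141.OF.Orth4

/-!
# Tate classes from pairings: the main theorem
-/

set_option autoImplicit false
set_option linter.unusedSectionVars false

namespace Pool.Agent.V1141.OF

open Module Pool.Agent.H204R3.CM Pool.Agent.H204R3.SP Pool.Agent.H204R3.GP
open Pool.Agent.Y137.MV (IsEqv kills_zero kills_add kills_smul kills_conj eqv_pull dd_kills)

noncomputable section

section setup

variable {k : Type} [Field k] [CharZero k] {I : Type} [Fintype I]
  [DecidableEq I] {V : I → Type} [∀ i, AddCommGroup (V i)] [∀ i, Module k (V i)]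
  {M : Type} [AddCommGroup M] [Module k M]
  {Γ : Type} [Group Γ] (ρ : ∀ i, Representation k Γ (V i)) (τ : Representation k Γ M)
  (χ : Γ →* k) (w : I → ℕ) {γ : Γ} {d : I → ℕ} {α : ∀ i, Fin (d i) → k}
  (b : ∀ i, Basis (Fin (d i)) k (V i)) (hα : ∀ i, Function.Injective (α i))
  (hb : ∀ i j, ρ i γ (b i j) = α i j • b i j)
  (hev : ∀ i a, Module.End.HasEigenvalue (ρ i γ) a ↔ ∃ j, α i j = a)

include hα hev in
/-- Relations between the eigenvalues are balanced. -/
theorem bal_of_rel' {β : k} (hrel : NoRelationsWith ρ χ w γ β)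
    {inv : ∀ i, Fin (d i) → Fin (d i)}
    (hmul : ∀ i j, α i j * α i (inv i j) = χ γ ^ w i) {κ : Type} [Fintype κ]
    (J : κ → Σ i, Fin (d i)) {N : ℕ} (hN : 0 < N)
    (h : (∏ l, α (J l).1 (J l).2) ^ N = β ^ N) (y : Σ i, Fin (d i)) :
    (Finset.univ.filter (fun l => J l = y)).card =
      (Finset.univ.filter (fun l => J l = ⟨y.1, inv y.1 y.2⟩)).card := by
  classical
  let E : κ ≃ Fin (Fintype.card κ) := Fintype.equivFin κ
  have h1 := hrel (Fintype.card κ) (fun l => (J (E.symm l)).1)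
    (fun l => α (J (E.symm l)).1 (J (E.symm l)).2) N hN (fun l => (hev _ _).2 ⟨_, rfl⟩)
    (by
      rw [← h]
      congr 1
      exact Fintype.prod_equiv E.symm _ _ fun l => rfl) y.1 _ _ (hmul y.1 y.2)
  have h2 : ∀ z : Σ i, Fin (d i), Nat.card {l // (J (E.symm l)).1 = z.1 ∧
      α (J (E.symm l)).1 (J (E.symm l)).2 = α z.1 z.2} =
      (Finset.univ.filter (fun l => J l = z)).card := by
    intro z
    refine (Nat.card_congr (Equiv.subtypeEquiv (q := fun l => J l = z) E.symm fun l => ?_)).trans ?_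
    · exact sigma_eq hα _ _
    · rw [Nat.card_eq_fintype_card, Fintype.card_subtype]
  have h3 := h2 y
  have h4 := h2 ⟨y.1, inv y.1 y.2⟩
  rw [← h3, ← h4]
  exact h1

include hb in
theorem sumRep_pow (N : ℕ) (x : Σ i, Fin (d i)) :
    sumRep ρ (γ ^ N) ((Pi.basis b) x) = (α x.1 x.2 ^ N) • (Pi.basis b) x := by
  rw [basis_single, sumRep_single, rho_pow ρ b hb, map_smul]

theorem sumForm_left (ω : ∀ i, V i →ₗ[k] V i →ₗ[k] k) (i : I) (u : V i) (v : ∀ i, V i) :
    sumForm ω (LinearMap.single k V i u) v = ω i u (v i) := by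
  rw [sumForm_apply, Finset.sum_eq_single i]
  · rw [LinearMap.single_apply, Pi.single_eq_same]
  · intro j _ hj
    have h1 : (LinearMap.single k V i u) j = 0 := Pi.single_eq_of_ne hj _
    rw [h1, map_zero, LinearMap.zero_apply]
  · intro h
    exact absurd (Finset.mem_univ _) h

theorem pairing_eq (ω : ∀ i, V i →ₗ[k] V i →ₗ[k] k) (i j : I) (u : V i) (v : V j) :
    pairing ω i j u v = sumForm ω (LinearMap.single k V i u) (LinearMap.single k V j v) := by
  rw [sumForm_single]
  unfold pairing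
  by_cases h : j = i
  · rw [dif_pos h, dif_pos h]
  · rw [dif_neg h, dif_neg h]

/-- the diagonal elements of the blocks -/
theorem io_DD (inv : ∀ i, Fin (d i) → Fin (d i)) (i : I) (y : Fin (d i)) :
    io k i (DD (b i) (inv i) y) =
      DD (Pi.basis b) (fun x : Σ i, Fin (d i) => ⟨x.1, inv x.1 x.2⟩) ⟨i, y⟩ := by
  refine (Pi.basis b).ext fun x => ?_
  rw [DD_basis, io_apply]
  obtain ⟨j, z⟩ := x
  rw [basis_single]
  by_cases h : j = i
  · subst h
    have h0 : (LinearMap.single k V j (b j z)) j = b j z := Pi.single_eq_same _ _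
    change LinearMap.single k V j (DD (b j) (inv j) y ((LinearMap.single k V j (b j z)) j)) =
      _ • LinearMap.single k V j (b j z)
    rw [h0, DD_basis, map_smul]
    congr 1
    have h1 : ∀ z' : Fin (d j), ((⟨j, z⟩ : Σ i, Fin (d i)) = ⟨j, z'⟩) = (z = z') := by
      intro z'
      refine propext ⟨fun h => ?_, fun h => by rw [h]⟩
      exact eq_of_heq (Sigma.mk.inj h).2
    unfold dd
    simp only [h1]
  · have h1 : (LinearMap.single k V j (b j z)) i = 0 := Pi.single_eq_of_ne (Ne.symm h) _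
    rw [h1, map_zero, map_zero]
    have h2 : ∀ z' : Fin (d i), (⟨j, z⟩ : Σ i, Fin (d i)) ≠ ⟨i, z'⟩ := fun z' h3 =>
      h (congrArg Sigma.fst h3)
    unfold dd
    rw [if_neg (h2 _), if_neg (h2 _), sub_zero, zero_smul]

end setup

/-- the product of the pairings, as a multilinear form -/
def pairForm {k : Type} [Field k] [CharZero k] {I : Type} [Fintype I] [DecidableEq I]
    {V : I → Type} [∀ i, AddCommGroup (V i)] [∀ i, Module k (V i)]
    (ω : ∀ i, V i →ₗ[k] V i →ₗ[k] k) {n m : ℕ} (t : Fin n → I) (ε : Fin m × Fin 2 ≃ Fin n) :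
    MultilinearMap k (fun l => V (t l)) k := restr t ε (mmG 1 (fun _ => sumForm ω))

theorem pairForm_apply {k : Type} [Field k] [CharZero k] {I : Type} [Fintype I] [DecidableEq I]
    {V : I → Type} [∀ i, AddCommGroup (V i)] [∀ i, Module k (V i)]
    (ω : ∀ i, V i →ₗ[k] V i →ₗ[k] k) {n m : ℕ} (t : Fin n → I) (ε : Fin m × Fin 2 ≃ Fin n)
    (v : ∀ l, V (t l)) : pairForm ω t ε v =
      ∏ l, sumForm ω (LinearMap.single k V _ (v (ε (l, 0)))) (LinearMap.single k V _ (v (ε (l, 1)))) :=
  rfl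

theorem orth_main {k : Type} [Field k] [CharZero k] [IsAlgClosed k] {I : Type} [Fintype I]
    [DecidableEq I] {V : I → Type} [∀ i, AddCommGroup (V i)] [∀ i, Module k (V i)]
    [∀ i, FiniteDimensional k (V i)] {M : Type} [AddCommGroup M] [Module k M]
    [FiniteDimensional k M] {Γ : Type} [Group Γ] (ρ : ∀ i, Representation k Γ (V i))
    (τ : Representation k Γ M) (χ : Γ →* k) (w : I → ℕ) (sgn : I → ℤ)
    (hsgn : ∀ i, sgn i = 1 ∨ sgn i = -1)
    (ω : ∀ i, V i →ₗ[k] V i →ₗ[k] k) (hsym : ∀ i u v, ω i u v = (sgn i : k) * ω i v u)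
    (hnd : ∀ i, ∀ u, (∀ v, ω i v u = 0) → u = 0)
    (hω : ∀ i s u v, ω i (ρ i s u) (ρ i s v) = χ s ^ w i * ω i u v)
    (hEnd : ∀ i, OnlyScalarEndos (ρ i))
    (γ : Γ) (hsep : ∀ i, (ρ i γ).charpoly.Separable)
    (hself : ∀ i a a', Module.End.HasEigenvalue (ρ i γ) a → Module.End.HasEigenvalue (ρ i γ) a' →
      a ^ 2 = χ γ ^ w i → a' ^ 2 = χ γ ^ w i → a = a')
    (hrel : ∀ β, Module.End.HasEigenvalue (τ γ) β → NoRelationsWith ρ χ w γ β) :
    TateClassesFromPairings ρ τ χ w ω sgn := by
  classical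
  choose d α b hα hb hev using fun i => exists_eigenbasis_sep (ρ i γ) (hsep i)
  have hα0 : ∀ i j, α i j ≠ 0 := by
    intro i j h
    have h1 : ρ i γ⁻¹ (ρ i γ (b i j)) = b i j := by
      rw [← Module.End.mul_apply, ← map_mul, inv_mul_cancel, map_one, Module.End.one_apply]
    rw [hb, h, zero_smul, map_zero] at h1
    exact (b i).ne_zero j h1.symm
  have hs : ∀ i, (sgn i : k) = 1 ∨ (sgn i : k) = -1 := by
    intro i
    rcases hsgn i with h | h
    · left
      rw [h, Int.cast_one]
    · right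
      rw [h, Int.cast_neg, Int.cast_one]
  have hs0 : ∀ i, (sgn i : k) ≠ 0 := by
    intro i
    rcases hs i with h | h <;> rw [h] <;> norm_num
  have hnd' : ∀ i, ∀ u, (∀ v, ω i u v = 0) → u = 0 := by
    intro i u hu
    apply hnd i
    intro v
    rw [hsym, hu, mul_zero]
  choose inv hinv hmul hzero hnz using fun i => exists_inv (b i) (hb i) (hα i) (hα0 i) (ω i)
    (hs0 i) (hsym i) (hnd' i) (hω i γ)
  let J : ∀ i, Fin (d i) → k := fun i j => ω i (b i j) (b i (inv i j))
  have hωb : ∀ i x y, ω i (b i x) (b i y) = if y = inv i x then J i x else 0 := by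
    intro i x y
    by_cases h : y = inv i x
    · rw [if_pos h, h]
    · rw [if_neg h, hzero i x y h]
  have hselfi : ∀ i, ∀ a a', inv i a = a → inv i a' = a' → a = a' := by
    intro i a a' ha ha'
    refine hα i (hself i _ _ ((hev i _).2 ⟨a, rfl⟩) ((hev i _).2 ⟨a', rfl⟩) ?_ ?_)
    · have h1 := hmul i a
      rw [ha] at h1
      rw [sq, h1]
    · have h1 := hmul i a'
      rw [ha'] at h1
      rw [sq, h1]
  have hbalM : ∀ (κ : Type) [Fintype κ] [DecidableEq κ]
      (φ : MultilinearMap k (fun _ : κ => ∀ i, V i) M), IsEqv (sumRep ρ) τ φ →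
      ∀ K : κ → Σ i, Fin (d i), φ (fun l => (Pi.basis b) (K l)) ≠ 0 → ∀ y : Σ i, Fin (d i),
        (Finset.univ.filter (fun l => K l = y)).card =
          (Finset.univ.filter (fun l => K l = ⟨y.1, inv y.1 y.2⟩)).card := by
    rintro κ _ _ φ ⟨Δ, hΔ, hφ⟩ K hK y
    obtain ⟨N, hN, -, hNΔ⟩ := Subgroup.exists_pow_mem_of_index_ne_zero hΔ.index_ne_zero γ
    have h1 := hφ (γ ^ N) hNΔ (fun l => (Pi.basis b) (K l))
    simp only [sumRep_pow ρ b hb] at h1
    rw [MultilinearMap.map_smul_univ, map_pow, Finset.prod_pow] at h1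
    obtain ⟨β, hβ, hβN⟩ := exists_eigenvalue_of_pow (τ γ) hN hK h1.symm
    exact bal_of_rel' ρ χ w hα hev (hrel β hβ) hmul K hN hβN.symm y
  have hD : ∀ i y, DD (b i) (inv i) y ∈ lieO ρ τ ω i := by
    intro i y
    refine ⟨fun u v => ?_, fun κ _ _ φ l hφ => ?_⟩
    · have h1 := TT_diag (b i) (hinv i) (hnz i) (ω i) (hs i) (hsym i) (hωb i) y
      have h2 := TT_so (ω i) (s_sq (hs i)) (hsym i) (b i (inv i y)) (b i y) u v
      rw [h1, LinearMap.smul_apply, LinearMap.smul_apply, map_smul, map_smul,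
        LinearMap.smul_apply, smul_eq_mul, smul_eq_mul, ← mul_add] at h2
      exact (mul_eq_zero.1 h2).resolve_left (hnz i _)
    · rw [io_DD]
      refine dd_kills (Pi.basis b) _ _ (fun K hK => hbalM κ φ hφ K fun h0 => hK ?_) _
      change l (φ (fun j => (Pi.basis b) (K j))) = 0
      rw [h0, map_zero]
  have hTT : ∀ i a c, TT (ω i) (sgn i : k) (b i a) (b i c) ∈ lieO ρ τ ω i := fun i a c =>
    block_mem (b i) (lieO ρ τ ω i) (fun X hX Y hY => lieO_bracket ρ τ ω i hX hY) (hD i) (hinv i)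
      (hselfi i) (hnz i) (ω i) (hs i) (hsym i) (hωb i) (fun X hX => hX.1)
      (fun X Y c hX hY hH hHY hc => lieO_opp ρ τ ω i X Y c hX hY hH hHY hc) (ρ i)
      (fun g X hX => lieO_conj ρ τ ω i (hω i) g hX) (hEnd i) a c
  -- the first fundamental theorem
  intro n t hrange f hf
  let E : Basis (Σ i, Fin (d i)) k (∀ i, V i) := Pi.basis b
  have hE : ∀ x, E x = LinearMap.single k V x.1 (b x.1 x.2) := basis_single b
  have hEne : ∀ x i, x.1 ≠ i → E x i = 0 := by
    intro x i h
    rw [hE]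
    exact Pi.single_eq_of_ne (Ne.symm h) _
  let Q : Matrix (Σ i, Fin (d i)) (Σ i, Fin (d i)) k := fun x y => sumForm ω (E x) (E y)
  have hQl : ∀ x (z : ∀ i, V i), sumForm ω (E x) z = ω x.1 (b x.1 x.2) (z x.1) := by
    intro x z
    rw [hE, sumForm_left]
  have hQb : ∀ x y : Σ i, Fin (d i), x.1 ≠ y.1 → Q x y = 0 := by
    intro x y h
    change sumForm ω (E x) (E y) = 0
    rw [hQl, hEne y x.1 (Ne.symm h), map_zero]
  have hQsame : ∀ i a c, Q ⟨i, a⟩ ⟨i, c⟩ = ω i (b i a) (b i c) := by
    intro i a c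
    change sumForm ω (E ⟨i, a⟩) (E ⟨i, c⟩) = _
    rw [hQl, hE, LinearMap.single_apply, Pi.single_eq_same]
  have hQs : ∀ x y : Σ i, Fin (d i), Q x y = ((sgn x.1 : ℤ) : k) * Q y x := by
    rintro ⟨i, a⟩ ⟨i', c⟩
    by_cases h : i = i'
    · subst h
      rw [hQsame, hQsame, hsym]
    · rw [hQb _ _ h, hQb _ _ (Ne.symm h), mul_zero]
  let R : Matrix (Σ i, Fin (d i)) (Σ i, Fin (d i)) k := fun x y =>
    if x = ⟨y.1, inv y.1 y.2⟩ then (J y.1 y.2)⁻¹ else 0
  have hQR : Q * R = 1 := by
    ext x z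
    rw [Matrix.mul_apply, Finset.sum_eq_single (⟨z.1, inv z.1 z.2⟩ : Σ i, Fin (d i))]
    · change Q x _ * (if _ then _ else 0) = _
      rw [if_pos rfl, Matrix.one_apply]
      by_cases h : x = z
      · subst h
        rw [if_pos rfl]
        have h1 : Q x ⟨x.1, inv x.1 x.2⟩ = J x.1 x.2 := by
          obtain ⟨i, a⟩ := x
          rw [hQsame]
        rw [h1, mul_inv_cancel₀ (hnz _ _)]
      · rw [if_neg h]
        have h1 : Q x ⟨z.1, inv z.1 z.2⟩ = 0 := by
          obtain ⟨i, a⟩ := x
          obtain ⟨i', c⟩ := z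
          by_cases hi : i = i'
          · subst hi
            rw [hQsame]
            refine hzero i a _ fun h2 => h ?_
            have h3 : inv i (inv i c) = inv i (inv i a) := congrArg (inv i) h2
            rw [hinv, hinv] at h3
            rw [h3]
          · exact hQb _ _ hi
        rw [h1, zero_mul]
    · intro y _ hy
      change Q x y * (if _ then _ else 0) = 0
      rw [if_neg hy, mul_zero]
    · intro h
      exact absurd (Finset.mem_univ _) h
  let φ : MultilinearMap k (fun _ : Fin n => ∀ i, V i) M :=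
    f.compLinearMap fun l => LinearMap.proj (t l)
  have hφ : IsEqv (sumRep ρ) τ φ := by
    obtain ⟨Δ, hΔ, h⟩ := hf
    exact ⟨Δ, hΔ, fun s hs v => h s hs (fun l => v l (t l))⟩
  -- coefficients
  let C : MultilinearMap k (fun l => V (t l)) k →ₗ[k] ((Fin n → Σ i, Fin (d i)) → k) :=
    { toFun := fun ψ K => ψ (fun l => (E (K l)) (t l))
      map_add' := fun _ _ => rfl
      map_smul' := fun _ _ => rfl }
  have hC : ∀ ψ K, C ψ K = ψ (fun l => (E (K l)) (t l)) := fun ψ K => rfl
  have hCinj : Function.Injective C := by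
    intro ψ ψ' h
    refine Basis.ext_multilinear (fun l => b (t l)) fun K => ?_
    have h1 := congrFun h (fun l => ⟨t l, K l⟩)
    rw [hC, hC] at h1
    have h2 : (fun l => (E (⟨t l, K l⟩ : Σ i, Fin (d i))) (t l)) = fun l => b (t l) (K l) := by
      funext l
      rw [hE, LinearMap.single_apply, Pi.single_eq_same]
    rwa [h2] at h1
  have hCsup : ∀ ψ K, ¬ (∀ j, (K j).1 = t j) → C ψ K = 0 := by
    intro ψ K hK
    push Not at hK
    obtain ⟨j, hj⟩ := hK
    exact ψ.map_coord_zero j (hEne _ _ hj)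
  have hcomp : ∀ l : M →ₗ[k] k, l.compMultilinearMap f ∈
      Submodule.span k {ψ | ∃ (m : ℕ) (ε : Fin m × Fin 2 ≃ Fin n), ψ = pairForm ω t ε} := by
    intro l
    have hinvF : Pool.Agent.TH125.Nod.Inv (Sigma.fst : (Σ i, Fin (d i)) → I) Q
        (fun i => ((sgn i : ℤ) : k)) (C (l.compMultilinearMap f)) := by
      rintro ⟨i, a⟩ ⟨i', c⟩ hii K
      change i = i' at hii
      subst hii
      have h1 := (hTT i c a).2 (Fin n) φ l hφ (fun j => E (K j))
      rw [← h1]
      refine Finset.sum_congr rfl fun j _ => ?_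
      have h2 : io k i (TT (ω i) (sgn i : k) (b i c) (b i a)) (E (K j)) =
          Q ⟨i, c⟩ (K j) • E ⟨i, a⟩ - ((sgn i : k) * Q ⟨i, a⟩ (K j)) • E ⟨i, c⟩ := by
        change _ = sumForm ω (E ⟨i, c⟩) (E (K j)) • E ⟨i, a⟩ -
          ((sgn i : k) * sumForm ω (E ⟨i, a⟩) (E (K j))) • E ⟨i, c⟩
        rw [io_apply, TT_apply, map_sub, map_smul, map_smul, hQl, hQl, hE ⟨i, a⟩, hE ⟨i, c⟩]
      have h3 : ∀ z, C (l.compMultilinearMap f) (Function.update K j z) =
          (l.compMultilinearMap φ) (Function.update (fun j => E (K j)) j (E z)) := by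
        intro z
        rw [hC]
        change l (f (fun l' => E (Function.update K j z l') (t l'))) =
          l (f (fun l' => (Function.update (fun j => E (K j)) j (E z) l') (t l')))
        refine congrArg l (congrArg f (funext fun l' => ?_))
        by_cases hl : l' = j
        · subst hl
          rw [Function.update_self, Function.update_self]
        · rw [Function.update_of_ne hl, Function.update_of_ne hl]
      rw [h2, MultilinearMap.map_update_sub, MultilinearMap.map_update_smul,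
        MultilinearMap.map_update_smul, h3, h3]
    have h1 := Pool.Agent.TH125.Nod.fft (s := sgn) hsgn hQb hQs hQR n (Fin n) t
      (C (l.compMultilinearMap f)) (Fintype.card_fin n)
      (fun K hK => hCsup _ K hK) hinvF (fun i hi => by
        have h2 := hrange i hi
        rw [Nat.card_eq_fintype_card, Fintype.card_subtype] at h2
        refine lt_of_lt_of_eq h2 ?_
        rw [Module.finrank_eq_card_basis (b i), Fintype.card_fin]
        have h3 : Pool.Agent.TH125.Nod.blk (Sigma.fst : (Σ i, Fin (d i)) → I) i =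
            (Finset.univ : Finset (Fin (d i))).map (Function.Embedding.sigmaMk i) := by
          ext ⟨j, z⟩
          rw [Pool.Agent.TH125.Nod.mem_blk, Finset.mem_map]
          constructor
          · intro h
            change j = i at h
            subst h
            exact ⟨z, Finset.mem_univ _, rfl⟩
          · rintro ⟨z', -, h⟩
            exact (congrArg Sigma.fst h).symm
        rw [h3, Finset.card_map, Finset.card_univ, Fintype.card_fin])
    have h2 : Pool.Agent.TH125.Nod.Gen (M := k) (Sigma.fst : (Σ i, Fin (d i)) → I) Q t ≤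
        (Submodule.span k {ψ | ∃ (m : ℕ) (ε : Fin m × Fin 2 ≃ Fin n),
          ψ = pairForm ω t ε}).map C := by
      unfold Pool.Agent.TH125.Nod.Gen
      rw [Submodule.span_le]
      rintro _ ⟨m, ε, c, rfl⟩
      refine ⟨c • pairForm ω t ε, Submodule.smul_mem _ _ (Submodule.subset_span ⟨m, ε, rfl⟩), ?_⟩
      funext K
      rw [map_smul, Pi.smul_apply, smul_eq_mul]
      unfold Pool.Agent.TH125.Nod.gen
      by_cases hK : ∀ j, (K j).1 = t j
      · rw [if_pos hK, hC, pairForm_apply, smul_eq_mul, mul_comm]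
        congr 1
        refine Finset.prod_congr rfl fun l' _ => ?_
        have h3 : ∀ j, LinearMap.single k V (t j) (E (K j) (t j)) = E (K j) := by
          intro j
          have h4 : ∀ (x : Σ i, Fin (d i)) (i : I), x.1 = i →
              LinearMap.single k V i (E x i) = E x := by
            rintro x i rfl
            rw [hE, LinearMap.single_apply, LinearMap.single_apply, Pi.single_eq_same]
          exact h4 _ _ (hK j)
        rw [h3, h3]
      · rw [if_neg hK, hCsup _ _ hK, mul_zero]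
    obtain ⟨ψ, hψ, hψ'⟩ := h2 h1
    rw [← hCinj hψ']
    exact hψ
  -- products of pairings are Tate forms
  have hP : ∀ g ∈ {ψ | (∃ (m : ℕ) (ε : Fin m × Fin 2 ≃ Fin n), ψ = pairForm ω t ε)},
      ∃ Δ : Subgroup Γ, Δ.FiniteIndex ∧ ∀ s ∈ Δ, ∀ v : ∀ l, V (t l),
        g (fun l => ρ (t l) s (v l)) = χ s ^ ((∑ l, w (t l)) / 2) * g v := by
    rintro _ ⟨m, ε, rfl⟩
    refine ⟨⊤, inferInstance, fun s _ v => ?_⟩
    rw [pairForm_apply, pairForm_apply]
    by_cases h : ∀ l, t (ε (l, 0)) = t (ε (l, 1))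
    · have h1 : ∑ l, w (t l) = 2 * ∑ l, w (t (ε (l, 1))) := by
        rw [← Equiv.sum_comp ε, Fintype.sum_prod_type, Finset.mul_sum]
        refine Finset.sum_congr rfl fun l _ => ?_
        rw [Fin.sum_univ_two, h l]
        ring
      rw [h1, Nat.mul_div_cancel_left _ two_pos, ← Finset.prod_pow_eq_pow_sum,
        ← Finset.prod_mul_distrib]
      refine Finset.prod_congr rfl fun l _ => ?_
      rw [sumForm_left, sumForm_left]
      have h2 : ∀ (i j : I) (u : V i) (v : V j), i = j →
          ω i (ρ i s u) ((LinearMap.single k V j (ρ j s v)) i) =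
            χ s ^ w j * ω i u ((LinearMap.single k V j v) i) := by
        rintro i j u v rfl
        rw [LinearMap.single_apply, LinearMap.single_apply, Pi.single_eq_same, Pi.single_eq_same,
          hω]
      exact h2 _ _ _ _ (h l)
    · push Not at h
      obtain ⟨l, hl⟩ := h
      rw [Finset.prod_eq_zero (Finset.mem_univ l), Finset.prod_eq_zero (Finset.mem_univ l),
        mul_zero]
      · rw [sumForm_single, dif_neg (Ne.symm hl)]
      · rw [sumForm_single, dif_neg (Ne.symm hl)]
  have h1 := final_abs τ (fun l => ρ (t l)) (fun s => χ s ^ ((∑ l, w (t l)) / 2))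
    {ψ | ∃ (m : ℕ) (ε : Fin m × Fin 2 ≃ Fin n), ψ = pairForm ω t ε} hP f hf hcomp
  refine Submodule.span_le.2 ?_ h1
  rintro h ⟨g, ⟨m, ε, rfl⟩, u, hu, hh⟩
  by_cases hall : ∀ l, t (ε (l, 0)) = t (ε (l, 1))
  · have h2 : ∑ l, w (t l) = 2 * ∑ l, w (t (ε (l, 1))) := by
      rw [← Equiv.sum_comp ε, Fintype.sum_prod_type, Finset.mul_sum]
      refine Finset.sum_congr rfl fun l _ => ?_
      rw [Fin.sum_univ_two, hall l]
      ring
    refine Submodule.subset_span ⟨m, ε, u, ?_, fun v => ?_⟩
    · rw [h2, Nat.mul_div_cancel_left _ two_pos] at hu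
      exact hu
    · rw [hh, pairForm_apply]
      congr 1
      exact Finset.prod_congr rfl fun l _ => (pairing_eq ω _ _ _ _).symm
  · push Not at hall
    obtain ⟨l, hl⟩ := hall
    have h3 : h = 0 := by
      ext v
      rw [hh, pairForm_apply, Finset.prod_eq_zero (Finset.mem_univ l), zero_smul]
      · rfl
      · rw [sumForm_single, dif_neg (Ne.symm hl)]
    rw [h3]
    exact Submodule.zero_mem _

end

end Pool.Agent.V1141.OF
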