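import Pool.Agent.V1141.OF.Sl2

/-!
# The root system of the Lie algebra that kills all Tate forms is symmetric
-/

set_option autoImplicit false
set_option linter.unusedSectionVars false
set_option linter.unusedSimpArgs false

namespace Pool.Agent.V1141.OF

open Module Pool.Agent.H204R3.CM Pool.Agent.H204R3.SP Pool.Agent.H204R3.GP

noncomputable section

variable {Ω : Type*} [Field Ω] [CharZero Ω] {V : Type*} [AddCommGroup V] [Module Ω V]
  {R : Type*} [Fintype R] [DecidableEq R] (e : Basis R Ω V) {inv : R → R} {jj : R → Ω}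
  (hinv : ∀ x, inv (inv x) = x) (hne : ∀ x, inv x ≠ x)
  (hjj : ∀ x, jj (inv x) = -jj x) (hj0 : ∀ x, jj x ≠ 0)
  (ω : V →ₗ[Ω] V →ₗ[Ω] Ω) (hω : ∀ x y, ω (e x) (e y) = JJ inv jj x y)

include hω in
theorem SS_basis (p q b : R) : SS ω (e p) (e q) (e b) =
    (if b = inv p then jj p else 0) • e q + (if b = inv q then jj q else 0) • e p := by
  rw [SS_apply, hω, hω]
  rfl

include hinv hne hjj hω in
/-- the bracket of opposite root vectors, short roots -/
theorem bracket_short {x z : R} (hxz : z ≠ x) (hxz' : z ≠ inv x) :
    SS ω (e (inv x)) (e z) * SS ω (e (inv z)) (e x) -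
      SS ω (e (inv z)) (e x) * SS ω (e (inv x)) (e z) =
      (jj x * jj z) • (DD e inv z - DD e inv x) := by
  have h1 : inv z ≠ x := fun h => hxz' (by rw [← h, hinv])
  have h2 : inv z ≠ inv x := fun h => hxz (by rw [← hinv z, h, hinv])
  have h3 := hne x
  have h4 := hne z
  refine e.ext fun b => ?_
  rw [LinearMap.sub_apply, Module.End.mul_apply, Module.End.mul_apply, LinearMap.smul_apply,
    LinearMap.sub_apply, DD_basis, DD_basis]
  simp only [SS_basis e ω hω, hinv, map_add, map_smul, dd]
  by_cases hb1 : b = x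
  · subst hb1
    simp only [if_pos, if_neg, hxz, hxz', h1, h2, h3, h4, hxz.symm, hxz'.symm, h1.symm, h2.symm,
      h3.symm, h4.symm, hjj, if_true, if_false]
    module
  by_cases hb2 : b = z
  · subst hb2
    simp only [if_pos, if_neg, hxz, hxz', h1, h2, h3, h4, hxz.symm, hxz'.symm, h1.symm, h2.symm,
      h3.symm, h4.symm, hjj, if_true, if_false]
    module
  by_cases hb3 : b = inv x
  · subst hb3
    simp only [if_pos, if_neg, hxz, hxz', h1, h2, h3, h4, hxz.symm, hxz'.symm, h1.symm, h2.symm,
      h3.symm, h4.symm, hjj, if_true, if_false]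
    module
  by_cases hb4 : b = inv z
  · subst hb4
    simp only [if_pos, if_neg, hxz, hxz', h1, h2, h3, h4, hxz.symm, hxz'.symm, h1.symm, h2.symm,
      h3.symm, h4.symm, hjj, if_true, if_false]
    module
  simp only [hb1, hb2, hb3, hb4, if_false, zero_smul, add_zero, sub_zero, smul_zero]

include hinv hne hjj hω in
theorem bracket_short' {x z : R} (hxz : z ≠ x) (hxz' : z ≠ inv x) :
    (DD e inv z - DD e inv x) * SS ω (e (inv z)) (e x) -
      SS ω (e (inv z)) (e x) * (DD e inv z - DD e inv x) =
      (-2 : Ω) • SS ω (e (inv z)) (e x) := by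
  have h1 : inv z ≠ x := fun h => hxz' (by rw [← h, hinv])
  have h2 : inv z ≠ inv x := fun h => hxz (by rw [← hinv z, h, hinv])
  have h3 := hne x
  have h4 := hne z
  refine e.ext fun b => ?_
  rw [LinearMap.sub_apply, Module.End.mul_apply, Module.End.mul_apply, LinearMap.smul_apply,
    LinearMap.sub_apply, LinearMap.sub_apply, DD_basis, DD_basis]
  simp only [SS_basis e ω hω, hinv, map_add, map_smul, map_sub, DD_basis, dd]
  by_cases hb2 : b = z
  · subst hb2
    simp only [if_pos, if_neg, hxz, hxz', h1, h2, h3, h4, hxz.symm, hxz'.symm, h1.symm, h2.symm,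
      h3.symm, h4.symm, hjj, if_true, if_false]
    module
  by_cases hb3 : b = inv x
  · subst hb3
    simp only [if_pos, if_neg, hxz, hxz', h1, h2, h3, h4, hxz.symm, hxz'.symm, h1.symm, h2.symm,
      h3.symm, h4.symm, hjj, if_true, if_false]
    module
  simp only [hb2, hb3, if_false, zero_smul, add_zero, sub_zero, smul_zero]

include hinv hne hjj hω in
/-- the bracket of opposite root vectors, long roots -/
theorem bracket_long (x : R) :
    SS ω (e (inv x)) (e (inv x)) * SS ω (e x) (e x) -
      SS ω (e x) (e x) * SS ω (e (inv x)) (e (inv x)) =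
      (4 * (jj x * jj x)) • DD e inv x := by
  have h3 := hne x
  refine e.ext fun b => ?_
  rw [LinearMap.sub_apply, Module.End.mul_apply, Module.End.mul_apply, LinearMap.smul_apply,
    DD_basis]
  simp only [SS_basis e ω hω, hinv, map_add, map_smul, dd]
  by_cases hb1 : b = x
  · subst hb1
    simp only [if_pos, if_neg, h3, h3.symm, hjj, if_true, if_false]
    module
  by_cases hb2 : b = inv x
  · subst hb2
    simp only [if_pos, if_neg, h3, h3.symm, hjj, if_true, if_false]
    module
  simp only [hb1, hb2, if_false, zero_smul, add_zero, sub_zero, smul_zero]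

include hinv hne hjj hω in
theorem bracket_long' (x : R) :
    DD e inv x * SS ω (e x) (e x) - SS ω (e x) (e x) * DD e inv x =
      (2 : Ω) • SS ω (e x) (e x) := by
  have h3 := hne x
  refine e.ext fun b => ?_
  rw [LinearMap.sub_apply, Module.End.mul_apply, Module.End.mul_apply, LinearMap.smul_apply,
    DD_basis]
  simp only [SS_basis e ω hω, hinv, map_add, map_smul, map_sub, DD_basis, dd]
  by_cases hb1 : b = x
  · subst hb1
    simp only [if_pos, if_neg, h3, h3.symm, hjj, if_true, if_false]
    module
  by_cases hb2 : b = inv x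
  · subst hb2
    simp only [if_pos, if_neg, h3, h3.symm, hjj, if_true, if_false]
    module
  simp only [hb1, hb2, if_false, zero_smul, add_zero, sub_zero, smul_zero]

end

end Pool.Agent.V1141.OF
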