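import Pool.Agent.H204R3.GP.TateG

/-!
# Forms of weight zero that are killed by a root vector are killed by the opposite root vector
-/

set_option autoImplicit false
set_option linter.unusedSectionVars false

namespace Pool.Agent.V1141.OF

open Module Pool.Agent.H204R3.CM Pool.Agent.H204R3.SP Pool.Agent.H204R3.GP

noncomputable section

/-- a vector of weight zero which is killed by `E` is killed by `F` -/
theorem sl2_zero {Ω : Type*} [Field Ω] [CharZero Ω] {M : Type*} [AddCommGroup M] [Module Ω M]
    [FiniteDimensional Ω M] (E F H : Module.End Ω M) {c : Ω} (hc : c ≠ 0)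
    (hEF : E * F - F * E = H) (hHF : H * F - F * H = c • F) {φ : M} (hE : E φ = 0)
    (hH : H φ = 0) : F φ = 0 := by
  by_contra hF
  have hEF' : ∀ w, E (F w) = F (E w) + H w := by
    intro w
    have h1 := congrArg (fun T : Module.End Ω M => T w) hEF
    simp only [LinearMap.sub_apply, Module.End.mul_apply] at h1
    rw [← h1]
    abel
  have hHF' : ∀ w, H (F w) = F (H w) + c • F w := by
    intro w
    have h1 := congrArg (fun T : Module.End Ω M => T w) hHF
    simp only [LinearMap.sub_apply, Module.End.mul_apply, LinearMap.smul_apply] at h1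
    rw [← h1]
    abel
  have hs : ∀ (n : ℕ), (F ^ (n + 1)) φ = F ((F ^ n) φ) := by
    intro n
    rw [pow_succ', Module.End.mul_apply]
  have h1 : ∀ n : ℕ, H ((F ^ n) φ) = (c * n) • (F ^ n) φ := by
    intro n
    induction n with
    | zero => rw [pow_zero, Module.End.one_apply, hH, Nat.cast_zero, mul_zero, zero_smul]
    | succ n ih =>
      rw [hs, hHF', ih, map_smul, ← add_smul]
      congr 1
      push_cast
      ring
  have h2 : ∀ n : ℕ, E ((F ^ (n + 1)) φ) = (c * (n * (n + 1) / 2)) • (F ^ n) φ := by
    intro n
    induction n with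
    | zero =>
      rw [hs, hEF', pow_zero, Module.End.one_apply, hE, hH, map_zero, add_zero, Nat.cast_zero,
        zero_mul, zero_div, mul_zero, zero_smul]
    | succ n ih =>
      rw [hs, hEF', ih, map_smul, ← hs, h1, ← add_smul]
      congr 1
      push_cast
      ring
  have h3 : ∀ n : ℕ, (F ^ n) φ ≠ 0 := by
    intro n
    induction n with
    | zero =>
      intro h
      rw [pow_zero, Module.End.one_apply] at h
      rw [h, map_zero] at hF
      exact hF rfl
    | succ n ih =>
      rcases Nat.eq_zero_or_pos n with hn | hn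
      · subst hn
        rw [hs, pow_zero, Module.End.one_apply]
        exact hF
      · intro h
        have h4 := h2 n
        rw [h, map_zero] at h4
        have h5 : c * ((n : Ω) * (n + 1) / 2) ≠ 0 := by
          have h6 : (n : Ω) ≠ 0 := by exact_mod_cast hn.ne'
          have h7 : (n : Ω) + 1 ≠ 0 := by exact_mod_cast Nat.succ_ne_zero n
          exact mul_ne_zero hc (div_ne_zero (mul_ne_zero h6 h7) two_ne_zero)
        exact ih ((smul_eq_zero.1 h4.symm).resolve_left h5)
  have h4 : LinearIndependent Ω (fun n : ℕ => (F ^ n) φ) := by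
    refine Module.End.eigenvectors_linearIndependent' H (fun n : ℕ => c * n) ?_ _ fun n => ?_
    · intro a b hab
      have h5 := mul_left_cancel₀ hc hab
      exact_mod_cast h5
    · exact ⟨Module.End.mem_eigenspace_iff.2 (h1 n), h3 n⟩
  have h5 : Finite ℕ := h4.finite
  exact not_finite ℕ

variable {Ω : Type*} [Field Ω] [CharZero Ω] {V : Type*} [AddCommGroup V] [Module Ω V]
  {κ : Type*} [Fintype κ] [DecidableEq κ]

/-- The action of endomorphisms on multilinear forms. -/
def act (X : Module.End Ω V) : Module.End Ω (MultilinearMap Ω (fun _ : κ => V) Ω) :=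
  ∑ k, MultilinearMap.compLinearMapₗ (fun j => if j = k then X else LinearMap.id)

theorem act_apply (X : Module.End Ω V) (φ : MultilinearMap Ω (fun _ : κ => V) Ω) (v : κ → V) :
    act X φ v = ∑ k, φ (Function.update v k (X (v k))) := by
  unfold act
  rw [LinearMap.sum_apply, MultilinearMap.sum_apply]
  refine Finset.sum_congr rfl fun k _ => ?_
  rw [MultilinearMap.compLinearMapₗ_apply, MultilinearMap.compLinearMap_apply]
  congr 1
  funext j
  by_cases h : j = k
  · subst h
    rw [if_pos rfl, Function.update_self]
  · rw [if_neg h, Function.update_of_ne h]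
    rfl

theorem act_eq_zero {X : Module.End Ω V} {φ : MultilinearMap Ω (fun _ : κ => V) Ω} :
    act X φ = 0 ↔ Kills X φ := by
  constructor
  · intro h v
    rw [← act_apply, h]
    rfl
  · intro h
    ext v
    rw [act_apply, h v]
    rfl

theorem act_smul (c : Ω) (X : Module.End Ω V) :
    act (κ := κ) (c • X) = c • act X := by
  refine LinearMap.ext fun φ => MultilinearMap.ext fun v => ?_
  rw [act_apply, LinearMap.smul_apply, MultilinearMap.smul_apply, act_apply, smul_eq_mul,
    Finset.mul_sum]
  refine Finset.sum_congr rfl fun k _ => ?_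
  rw [LinearMap.smul_apply, MultilinearMap.map_update_smul, smul_eq_mul]

theorem act_sub (X Y : Module.End Ω V) : act (κ := κ) (X - Y) = act X - act Y := by
  refine LinearMap.ext fun φ => MultilinearMap.ext fun v => ?_
  rw [act_apply, LinearMap.sub_apply, MultilinearMap.sub_apply, act_apply, act_apply,
    ← Finset.sum_sub_distrib]
  refine Finset.sum_congr rfl fun k _ => ?_
  rw [LinearMap.sub_apply, MultilinearMap.map_update_sub]

theorem act_mul_apply (X Y : Module.End Ω V) (φ : MultilinearMap Ω (fun _ : κ => V) Ω)
    (v : κ → V) : act X (act Y φ) v = ∑ k, φ (Function.update v k (Y (X (v k)))) +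
      ∑ k, ∑ j, if j ≠ k then
        φ (Function.update (Function.update v k (X (v k))) j (Y (v j))) else 0 := by
  rw [act_apply, ← Finset.sum_add_distrib]
  refine Finset.sum_congr rfl fun k _ => ?_
  rw [act_apply, ← Finset.add_sum_erase _ _ (Finset.mem_univ k), Function.update_self,
    Function.update_idem]
  congr 1
  rw [← Finset.sum_filter]
  refine Finset.sum_congr ?_ fun j hj => ?_
  · ext j
    simp
  · rw [Function.update_of_ne (Finset.mem_filter.1 hj).2]

theorem act_comm (X Y : Module.End Ω V) :
    act (κ := κ) X * act Y - act Y * act X = act (Y * X - X * Y) := by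
  refine LinearMap.ext fun φ => MultilinearMap.ext fun v => ?_
  rw [LinearMap.sub_apply, MultilinearMap.sub_apply, Module.End.mul_apply, Module.End.mul_apply,
    act_mul_apply, act_mul_apply, act_sub, LinearMap.sub_apply, MultilinearMap.sub_apply,
    act_apply, act_apply]
  have h2 : ∑ k, ∑ j, (if j ≠ k then
        φ (Function.update (Function.update v k (X (v k))) j (Y (v j))) else 0) =
      ∑ k, ∑ j, (if j ≠ k then
        φ (Function.update (Function.update v k (Y (v k))) j (X (v j))) else 0) := by
    rw [Finset.sum_comm]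
    refine Finset.sum_congr rfl fun j _ => Finset.sum_congr rfl fun k _ => ?_
    by_cases h : k = j
    · subst h
      simp
    · rw [if_pos (Ne.symm h), if_pos h, Function.update_comm (Ne.symm h)]
  rw [h2, add_sub_add_right_eq_sub]
  rfl

/-- **The key lemma**: if `X` kills `φ`, `h = X Y - Y X` kills `φ` and `h Y - Y h = c Y`, then `Y`
kills `φ`. -/
theorem kills_opposite [FiniteDimensional Ω V] {X Y : Module.End Ω V} {c : Ω} (hc : c ≠ 0)
    (hY : (X * Y - Y * X) * Y - Y * (X * Y - Y * X) = c • Y)
    {φ : MultilinearMap Ω (fun _ : κ => V) Ω} (hX : Kills X φ) (hH : Kills (X * Y - Y * X) φ) :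
    Kills Y φ := by
  rw [← act_eq_zero] at hX hH ⊢
  refine sl2_zero (act X) (act Y) (act (Y * X - X * Y)) hc (act_comm X Y) ?_ hX ?_
  · rw [act_comm, ← act_smul, ← hY]
    congr 1
    noncomm_ring
  · have h1 : Y * X - X * Y = (-1 : Ω) • (X * Y - Y * X) := by
      rw [neg_smul, one_smul]
      abel
    rw [h1, act_smul, LinearMap.smul_apply, hH, smul_zero]

end

end Pool.Agent.V1141.OF
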