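import Pool.Agent.V1141.OF.Root

/-!
# The classes of basis vectors are symmetric, without any semisimplicity hypothesis
-/

set_option autoImplicit false
set_option linter.unusedSectionVars false

namespace Pool.Agent.V1141.OF

open Module Pool.Agent.H204R3.CM Pool.Agent.H204R3.SP Pool.Agent.H204R3.GP

noncomputable section

variable {Ω : Type*} [Field Ω] [CharZero Ω] {V : Type*} [AddCommGroup V] [Module Ω V]
  {R : Type*} [Fintype R] [DecidableEq R] (e : Basis R Ω V) {inv : R → R} {jj : R → Ω}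
  (hinv : ∀ x, inv (inv x) = x) (hne : ∀ x, inv x ≠ x)
  (hjj : ∀ x, jj (inv x) = -jj x) (hj0 : ∀ x, jj x ≠ 0)
  (ω : V →ₗ[Ω] V →ₗ[Ω] Ω) (hω : ∀ x y, ω (e x) (e y) = JJ inv jj x y)
  {Γ : Type*} [Group Γ] (ρ : Representation Ω Γ V) (χ : Γ →* Ω)

include hinv hne hjj hj0 hω in
/-- the root vector opposite to a root vector of `lieT` lies in `lieT` -/
theorem opposite_mem (hD : ∀ y, DD e inv y ∈ lieT ρ χ) {x z : R} (hxz : z ≠ x)
    (h : SS ω (e (inv x)) (e z) ∈ lieT ρ χ) : SS ω (e (inv z)) (e x) ∈ lieT ρ χ := by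
  have _ : FiniteDimensional Ω V := Module.Basis.finiteDimensional_of_finite e
  intro m φ hφ
  have hX : Kills (SS ω (e (inv x)) (e z)) φ := h m φ hφ
  by_cases hxz' : z = inv x
  · subst hxz'
    rw [hinv]
    have hb := bracket_long e hinv hne hjj ω hω x
    have hb' := bracket_long' e hinv hne hjj ω hω x
    have hc : (4 * (jj x * jj x) : Ω) ≠ 0 :=
      mul_ne_zero (by norm_num) (mul_ne_zero (hj0 x) (hj0 x))
    have hH : Kills ((4 * (jj x * jj x) : Ω) • DD e inv x) φ :=
      (Submodule.smul_mem (lieT ρ χ) _ (hD x)) m φ hφ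
    refine kills_opposite (X := SS ω (e (inv x)) (e (inv x))) (c := 4 * (jj x * jj x) * 2)
      (mul_ne_zero hc two_ne_zero) ?_ hX (by rw [hb]; exact hH)
    rw [hb, smul_mul_assoc, mul_smul_comm, ← smul_sub, hb', smul_smul]
  · have hb := bracket_short e hinv hne hjj ω hω hxz hxz'
    have hb' := bracket_short' e hinv hne hjj ω hω hxz hxz'
    have hc : (jj x * jj z : Ω) ≠ 0 := mul_ne_zero (hj0 x) (hj0 z)
    have hH : Kills ((jj x * jj z : Ω) • (DD e inv z - DD e inv x)) φ :=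
      (Submodule.smul_mem (lieT ρ χ) _ (Submodule.sub_mem _ (hD z) (hD x))) m φ hφ
    refine kills_opposite (X := SS ω (e (inv x)) (e z)) (c := jj x * jj z * (-2))
      (mul_ne_zero hc (neg_ne_zero.2 two_ne_zero)) ?_ hX (by rw [hb]; exact hH)
    rw [hb, smul_mul_assoc, mul_smul_comm, ← smul_sub, hb', smul_smul]

include hinv hne hjj hj0 hω in
theorem CC_symm' (hD : ∀ y, DD e inv y ∈ lieT ρ χ) {x z : R}
    (hz : z ∈ CC e (lieT ρ χ) ω inv x) : x ∈ CC e (lieT ρ χ) ω inv z := by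
  rcases hz with hz | hz
  · exact Or.inl hz.symm
  · by_cases hxz : z = x
    · exact Or.inl hxz.symm
    · exact Or.inr (opposite_mem e hinv hne hjj hj0 ω hω ρ χ hD hxz hz)

end

end Pool.Agent.V1141.OF
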