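import Pool.Agent.V1141.OF.Symm

/-!
# Forms killed by a Lie algebra that contains the diagonal torus: no semisimplicity hypothesis
-/

set_option autoImplicit false
set_option linter.unusedSectionVars false

namespace Pool.Agent.V1141.OF

open Module Pool.Agent.H204R3.CM Pool.Agent.H204R3.SP Pool.Agent.H204R3.GP

noncomputable section

variable {Ω : Type*} [Field Ω] [CharZero Ω] {V : Type*} [AddCommGroup V] [Module Ω V]
  {R : Type*} [Fintype R] [DecidableEq R] (e : Basis R Ω V) {inv : R → R} {jj : R → Ω}
  (hinv : ∀ x, inv (inv x) = x) (hne : ∀ x, inv x ≠ x)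
  (hjj : ∀ x, jj (inv x) = -jj x) (hj0 : ∀ x, jj x ≠ 0)
  (ω : V →ₗ[Ω] V →ₗ[Ω] Ω) (hω : ∀ x y, ω (e x) (e y) = JJ inv jj x y)
  {Γ : Type*} [Group Γ] (ρ : Representation Ω Γ V) (χ : Γ →* Ω)

include hinv hne hjj hj0 hω in
/-- a form killed by the diagonal elements and by a root vector is killed by the opposite one -/
theorem opp_kills {κ : Type*} [Fintype κ] [DecidableEq κ]
    {φ : MultilinearMap Ω (fun _ : κ => V) Ω} (hD : ∀ y, Kills (DD e inv y) φ) {x z : R}
    (hxz : z ≠ x) (hX : Kills (SS ω (e (inv x)) (e z)) φ) : Kills (SS ω (e (inv z)) (e x)) φ := by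
  have _ : FiniteDimensional Ω V := Module.Basis.finiteDimensional_of_finite e
  have hsmul : ∀ (c : Ω) (X : Module.End Ω V), Kills X φ → Kills (c • X) φ := by
    intro c X h
    rw [← act_eq_zero] at h ⊢
    rw [act_smul, LinearMap.smul_apply, h, smul_zero]
  have hsub : ∀ (X Y : Module.End Ω V), Kills X φ → Kills Y φ → Kills (X - Y) φ := by
    intro X Y h h'
    rw [← act_eq_zero] at h h' ⊢
    rw [act_sub, LinearMap.sub_apply, h, h', sub_zero]
  by_cases hxz' : z = inv x
  · subst hxz'
    rw [hinv]
    have hb := bracket_long e hinv hne hjj ω hω x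
    have hb' := bracket_long' e hinv hne hjj ω hω x
    have hc : (4 * (jj x * jj x) : Ω) ≠ 0 :=
      mul_ne_zero (by norm_num) (mul_ne_zero (hj0 x) (hj0 x))
    refine kills_opposite (X := SS ω (e (inv x)) (e (inv x))) (c := 4 * (jj x * jj x) * 2)
      (mul_ne_zero hc two_ne_zero) ?_ hX (by rw [hb]; exact hsmul _ _ (hD x))
    rw [hb, smul_mul_assoc, mul_smul_comm, ← smul_sub, hb', smul_smul]
  · have hb := bracket_short e hinv hne hjj ω hω hxz hxz'
    have hb' := bracket_short' e hinv hne hjj ω hω hxz hxz'
    have hc : (jj x * jj z : Ω) ≠ 0 := mul_ne_zero (hj0 x) (hj0 z)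
    refine kills_opposite (X := SS ω (e (inv x)) (e z)) (c := jj x * jj z * (-2))
      (mul_ne_zero hc (neg_ne_zero.2 two_ne_zero)) ?_ hX
      (by rw [hb]; exact hsmul _ _ (hsub _ _ (hD z) (hD x)))
    rw [hb, smul_mul_assoc, mul_smul_comm, ← smul_sub, hb', smul_smul]

include hinv hne hjj hj0 hω in
/-- Forms killed by a Lie algebra which contains the diagonal elements and is contained in the Lie
algebra killing all Tate forms are linear combinations of products of Tate forms of degree two. -/
theorem killed_mem' (𝔤 : Submodule Ω (Module.End Ω V)) (h𝔤 : 𝔤 ≤ lieT ρ χ)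
    (hbr : ∀ X ∈ 𝔤, ∀ Y ∈ 𝔤, X * Y - Y * X ∈ 𝔤)
    (hconj : ∀ (s : Γ) (X : Module.End Ω V), X ∈ 𝔤 → ρ s * X * ρ s⁻¹ ∈ 𝔤)
    (hD : ∀ y, DD e inv y ∈ 𝔤)
    (hωρ : ∀ s u v, ω (ρ s u) (ρ s v) = χ s * ω u v)
    (hopp : ∀ x z : R, z ≠ x → SS ω (e (inv x)) (e z) ∈ 𝔤 → SS ω (e (inv z)) (e x) ∈ 𝔤)
    {m : ℕ} (φ : MultilinearMap Ω (fun _ : Fin m × Fin 2 => V) Ω) (hφ : ∀ X ∈ 𝔤, Kills X φ) :
    φ ∈ Submodule.span Ω (PT ρ χ m) := by
  classical
  have hsp : ∀ X ∈ 𝔤, ∀ u w, ω (X u) w + ω u (X w) = 0 :=
    fun X hX u w => lieT_sp ρ χ ω hωρ (h𝔤 hX) u w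
  have hsym : ∀ {x z : R}, z ∈ CC e 𝔤 ω inv x → x ∈ CC e 𝔤 ω inv z := by
    intro x z hz
    rcases hz with hz | hz
    · exact Or.inl hz.symm
    · by_cases hxz : z = x
      · exact Or.inl hxz.symm
      · exact Or.inr (hopp x z hxz hz)
  -- the classes
  let S : Setoid R :=
    { r := fun x z => z ∈ CC e 𝔤 ω inv x
      iseqv :=
        { refl := fun x => Or.inl rfl
          symm := fun h => hsym h
          trans := fun h h' => CC_trans e 𝔤 hbr hD hinv hne hjj hj0 ω hω hsp h h' } }
  let cls : R → Quotient S := Quotient.mk S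
  have hcls' : ∀ x z, cls x = cls z ↔ z ∈ CC e 𝔤 ω inv x := fun x z => Quotient.eq
  have hcls : ∀ x y, cls x = cls y → cls (inv x) = cls (inv y) := by
    intro x y h
    symm
    rw [hcls'] at h ⊢
    exact CC_inv e 𝔤 ω hinv h
  have _ : Fintype (Quotient S) := Fintype.ofFinite _
  -- the forms of the classes are Tate forms
  have hPC : ∀ (c : Quotient S) (y : R), ∀ v ∈ Submodule.span Ω (e '' CC e 𝔤 ω inv y),
      PC e cls c v = if cls y = c then v else 0 := by
    intro c y v hv
    induction hv using Submodule.span_induction with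
    | mem v hv =>
      obtain ⟨z, hz, rfl⟩ := hv
      rw [PC_basis, ← (hcls' y z).2 hz]
    | zero => rw [map_zero]; split_ifs <;> rfl
    | add a b _ _ ha hb =>
      rw [map_add, ha, hb]
      split_ifs
      · rfl
      · rw [add_zero]
    | smul c' a _ ha =>
      rw [map_smul, ha]
      split_ifs
      · rfl
      · rw [smul_zero]
  choose Δx hΔx hΔx' using fun x : R => exists_stabilizer e 𝔤 hD hne ρ hconj
    (Submodule.span Ω (e '' CC e 𝔤 ω inv x))
    (UU_stable e 𝔤 hbr hD hinv hne hjj hj0 ω hω hsp x)
  let BC : Quotient S → (V →ₗ[Ω] V →ₗ[Ω] Ω) := fun c => ω.comp (PC e cls c)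
  have hBC : ∀ c, IsTate2 ρ χ (BC c) := by
    intro c
    refine ⟨⨅ x, Δx x, Subgroup.finiteIndex_iInf hΔx, fun s hs u v => ?_⟩
    have h1 : ∀ v, PC e cls c (ρ s v) = ρ s (PC e cls c v) := by
      have h2 : (PC e cls c).comp (ρ s) = (ρ s).comp (PC e cls c) := by
        refine e.ext fun y => ?_
        rw [LinearMap.comp_apply, LinearMap.comp_apply, hPC c y (ρ s (e y)) (hΔx' y s
          ((Subgroup.mem_iInf.1 hs) y) _ (Submodule.subset_span ⟨y, Or.inl rfl, rfl⟩)), PC_basis]
        split_ifs
        · rfl
        · rw [map_zero]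
      exact fun v => congrArg (fun T : Module.End Ω V => T v) h2
    change ω (PC e cls c (ρ s u)) (ρ s v) = χ s * ω (PC e cls c u) v
    rw [h1, hωρ]
  have hBC' : ∀ c x y, BC c (e x) (e y) = if cls x = c then JJ inv jj x y else 0 := by
    intro c x y
    change ω (PC e cls c (e x)) (e y) = _
    rw [PC_basis]
    split_ifs
    · rw [hω]
    · rw [map_zero, LinearMap.zero_apply]
  -- coefficients
  let coef : MultilinearMap Ω (fun _ : Fin m × Fin 2 => V) Ω →ₗ[Ω] ((Fin m × Fin 2 → R) → Ω) :=
    { toFun := fun φ I => φ (fun k => e (I k))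
      map_add' := fun _ _ => rfl
      map_smul' := fun _ _ => rfl }
  have hinj : Function.Injective coef := fun φ φ' h =>
    Basis.ext_multilinear (fun _ => e) fun I => congrFun h I
  have hrel : ∀ b c, cls (inv b) = cls c → ∀ I : Fin m × Fin 2 → R,
      ∑ k, (JJ inv jj b (I k) * coef φ (Function.update I k c) +
        JJ inv jj c (I k) * coef φ (Function.update I k b)) = 0 := by
    intro b c hbc I
    have h2 : SS ω (e b) (e c) ∈ 𝔤 :=
      SS_mem' e 𝔤 hbr hD hinv hne hjj hj0 ω hω hsp ((hcls' _ _).1 hbc)
    have h3 := hφ _ h2 (fun k => e (I k))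
    rw [← h3]
    refine Finset.sum_congr rfl fun k _ => ?_
    rw [SS_apply, hω, hω, MultilinearMap.map_update_add, MultilinearMap.map_update_smul,
      MultilinearMap.map_update_smul, smul_eq_mul, smul_eq_mul]
    have h4 : ∀ z : R, coef φ (Function.update I k z) =
        φ (Function.update (fun k => e (I k)) k (e z)) := by
      intro z
      change φ (fun l => e (Function.update I k z l)) = _
      congr 1
      funext l
      by_cases hl : l = k
      · subst hl
        rw [Function.update_self, Function.update_self]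
      · rw [Function.update_of_ne hl, Function.update_of_ne hl]
    rw [h4, h4]
  let F : (Fin m × Fin 2 → Quotient S) → ((Fin m × Fin 2 → R) → Ω) := fun t I =>
    if (fun k => cls (I k)) = t then coef φ I else 0
  have hF : coef φ = ∑ t, F t := by
    funext I
    rw [Finset.sum_apply]
    simp only [F]
    rw [Finset.sum_ite_eq, if_pos (Finset.mem_univ _)]
  have hFt : ∀ t, F t ∈ InvG cls inv jj (Fin m × Fin 2) t := by
    intro t
    refine ⟨fun b c hbc I => ?_, fun I hI k => ?_⟩
    · have htype : ∀ (k : Fin m × Fin 2) (z : R), cls (I k) = cls z →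
          (fun l => cls (Function.update I k z l)) = fun l => cls (I l) := by
        intro k z hz
        funext l
        by_cases hl : l = k
        · subst hl
          rw [Function.update_self, hz]
        · rw [Function.update_of_ne hl]
      have h1 : ∀ k, JJ inv jj b (I k) * F t (Function.update I k c) +
          JJ inv jj c (I k) * F t (Function.update I k b) =
          if (fun k => cls (I k)) = t then JJ inv jj b (I k) * coef φ (Function.update I k c) +
            JJ inv jj c (I k) * coef φ (Function.update I k b) else 0 := by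
        intro k
        have e1 : JJ inv jj b (I k) * F t (Function.update I k c) =
            if (fun k => cls (I k)) = t then JJ inv jj b (I k) *
              coef φ (Function.update I k c) else 0 := by
          by_cases h : I k = inv b
          · have h2 := htype k c (by rw [h, hbc])
            simp only [F]
            rw [h2]
            split_ifs
            · rfl
            · rw [mul_zero]
          · have h2 : JJ inv jj b (I k) = 0 := by
              unfold JJ
              rw [if_neg h]
            rw [h2, zero_mul, zero_mul]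
            split_ifs <;> rfl
        have e2 : JJ inv jj c (I k) * F t (Function.update I k b) =
            if (fun k => cls (I k)) = t then JJ inv jj c (I k) *
              coef φ (Function.update I k b) else 0 := by
          by_cases h : I k = inv c
          · have h2 := htype k b (by rw [h, ← hcls _ _ hbc, hinv])
            simp only [F]
            rw [h2]
            split_ifs
            · rfl
            · rw [mul_zero]
          · have h2 : JJ inv jj c (I k) = 0 := by
              unfold JJ
              rw [if_neg h]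
            rw [h2, zero_mul, zero_mul]
            split_ifs <;> rfl
        rw [e1, e2]
        split_ifs
        · rfl
        · rw [add_zero]
      rw [Finset.sum_congr rfl (fun k _ => h1 k)]
      by_cases hI : (fun k => cls (I k)) = t
      · simp only [if_pos hI]
        exact hrel b c hbc I
      · simp only [if_neg hI]
        exact Finset.sum_const_zero
    · by_contra h
      apply hI
      simp only [F]
      rw [if_neg]
      rintro rfl
      exact h rfl
  have h1 : coef φ ∈ MatG cls inv jj (Fin m × Fin 2) m := by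
    rw [hF]
    exact Submodule.sum_mem _ fun t _ => fftG hinv hjj hj0 hcls m (Fin m × Fin 2)
      (by simp [mul_comm]) t (hFt t)
  have h3 : MatG cls inv jj (Fin m × Fin 2) m ≤ (Submodule.span Ω (PT ρ χ m)).map coef := by
    unfold MatG
    rw [Submodule.span_le]
    rintro _ ⟨σ, c, rfl⟩
    refine ⟨mmG σ (fun l => BC (c l)), Submodule.subset_span ⟨σ, _, fun l => hBC _, rfl⟩, ?_⟩
    funext I
    change mmG σ (fun l => BC (c l)) (fun k => e (I k)) = _
    rw [mmG_apply]
    exact Finset.prod_congr rfl fun s _ => hBC' _ _ _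
  obtain ⟨φ', hφ', hφφ⟩ := h3 h1
  rw [← hinj hφφ]
  exact hφ'

end

end Pool.Agent.V1141.OF
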