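import Pool.Agent.V1141.OF.Times1
import Pool.Agent.Y137.MV.Main

/-!
# Equivariant maps with values in a representation: no semisimplicity hypothesis
-/

set_option autoImplicit false
set_option linter.unusedSectionVars false

namespace Pool.Agent.V1141.OF

open Module Pool.Agent.H204R3.CM Pool.Agent.H204R3.SP Pool.Agent.H204R3.GP
open Pool.Agent.Y137.MV (IsEqv kills_zero kills_add kills_smul kills_conj eqv_pull dd_kills)

noncomputable section

variable {k : Type} [Field k] [CharZero k] {V : Type} [AddCommGroup V] [Module k V]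
  {Γ : Type} [Group Γ] (ρ : Representation k Γ V) (χ : Γ →* k)
  {M : Type} [AddCommGroup M] [Module k M] (σ : Representation k Γ M)

/-- The endomorphisms that kill all Tate forms and all scalar components of equivariant maps. -/
def lieN : Submodule k (Module.End k V) where
  carrier := {X | X ∈ lieT ρ χ ∧ ∀ (κ : Type) [Fintype κ] [DecidableEq κ]
    (φ : MultilinearMap k (fun _ : κ => V) M) (l : M →ₗ[k] k), IsEqv ρ σ φ →
      Kills X (l.compMultilinearMap φ)}
  zero_mem' := ⟨Submodule.zero_mem _, fun κ _ _ φ l _ => kills_zero⟩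
  add_mem' := fun hX hY => ⟨Submodule.add_mem _ hX.1 hY.1,
    fun κ _ _ φ l h => kills_add (hX.2 κ φ l h) (hY.2 κ φ l h)⟩
  smul_mem' := fun c _ hX => ⟨Submodule.smul_mem _ c hX.1,
    fun κ _ _ φ l h => kills_smul c (hX.2 κ φ l h)⟩

theorem lieN_bracket {X Y : Module.End k V} (hX : X ∈ lieN ρ χ σ)
    (hY : Y ∈ lieN ρ χ σ) : X * Y - Y * X ∈ lieN ρ χ σ :=
  ⟨lieT_bracket _ _ hX.1 hY.1, fun κ _ _ φ l h => kills_bracket (hX.2 κ φ l h) (hY.2 κ φ l h)⟩

theorem lieN_conj (s : Γ) {X : Module.End k V} (hX : X ∈ lieN ρ χ σ) :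
    ρ s * X * ρ s⁻¹ ∈ lieN ρ χ σ := by
  refine ⟨lieT_conj _ _ s hX.1, fun κ _ _ φ l h => kills_conj ρ s ?_⟩
  have h1 := hX.2 κ _ (l.comp (σ s)) (eqv_pull ρ σ h s)
  convert! h1 using 2
  ext v
  change l (φ (fun k => ρ s (v k))) = l (σ s (σ s⁻¹ (φ (fun k => ρ s (v k)))))
  rw [← Module.End.mul_apply, ← map_mul, mul_inv_cancel, map_one]
  rfl

/-- The scalar components of equivariant maps are combinations of products of Tate forms. -/
theorem comp_memN {R : Type} [Fintype R] [DecidableEq R] (e : Basis R k V) {inv : R → R}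
    {jj : R → k} (hinv : ∀ x, inv (inv x) = x) (hne : ∀ x, inv x ≠ x)
    (hjj : ∀ x, jj (inv x) = -jj x) (hj0 : ∀ x, jj x ≠ 0)
    (ω : V →ₗ[k] V →ₗ[k] k) (hω : ∀ x y, ω (e x) (e y) = JJ inv jj x y)
    (hωρ : ∀ s u v, ω (ρ s u) (ρ s v) = χ s * ω u v)
    (hbal : ∀ (m : ℕ) (φ : MultilinearMap k (fun _ : Fin m × Fin 2 => V) k), IsTate ρ χ m φ →
      ∀ I : Fin m × Fin 2 → R, φ (fun k => e (I k)) ≠ 0 → ∀ y,
        (Finset.univ.filter (fun k => I k = y)).card =
          (Finset.univ.filter (fun k => I k = inv y)).card)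
    (hbalM : ∀ (κ : Type) [Fintype κ] [DecidableEq κ] (φ : MultilinearMap k (fun _ : κ => V) M),
      IsEqv ρ σ φ → ∀ I : κ → R, φ (fun k => e (I k)) ≠ 0 → ∀ y,
        (Finset.univ.filter (fun k => I k = y)).card =
          (Finset.univ.filter (fun k => I k = inv y)).card)
    {m : ℕ} {φ : MultilinearMap k (fun _ : Fin m × Fin 2 => V) M} (hφ : IsEqv ρ σ φ)
    (l : M →ₗ[k] k) : l.compMultilinearMap φ ∈ Submodule.span k (PT ρ χ m) := by
  have hD : ∀ y, DD e inv y ∈ lieN ρ χ σ := by
    intro y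
    refine ⟨DD_mem' e ρ χ inv hbal y, fun κ _ _ φ l hφ => ?_⟩
    refine dd_kills e inv _ (fun I hI => hbalM κ φ hφ I fun h0 => hI ?_) y
    change l (φ (fun k => e (I k))) = 0
    rw [h0, map_zero]
  refine killed_mem' e hinv hne hjj hj0 ω hω ρ χ (lieN ρ χ σ) (fun X hX => hX.1)
    (fun X hX Y hY => lieN_bracket ρ χ σ hX hY) (fun s X hX => lieN_conj ρ χ σ s hX) hD hωρ
    (fun x z hxz h => ⟨?_, fun κ _ _ φ l hφ => ?_⟩) _ (fun X hX => hX.2 _ _ _ hφ)
  · exact opposite_mem e hinv hne hjj hj0 ω hω ρ χ (fun y => (hD y).1) hxz h.1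
  · exact opp_kills e hinv hne hjj hj0 ω hω (fun y => (hD y).2 κ φ l hφ) hxz (h.2 κ φ l hφ)

end

/-- The final step: an equivariant map with values in `M` all of whose scalar components are
combinations of forms of `P` is a combination of products of forms of `P` with Tate vectors. -/
theorem final_abs {k : Type} [Field k] {n : ℕ} {W : Fin n → Type} [∀ i, AddCommGroup (W i)]
    [∀ i, Module k (W i)] [∀ i, FiniteDimensional k (W i)] {M : Type} [AddCommGroup M]
    [Module k M] [FiniteDimensional k M] {Γ : Type} [Group Γ] (τ : Representation k Γ M)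
    (ρ : ∀ i, Representation k Γ (W i)) (c : Γ → k) (P : Set (MultilinearMap k W k))
    (hP : ∀ g ∈ P, ∃ Δ : Subgroup Γ, Δ.FiniteIndex ∧ ∀ s ∈ Δ, ∀ v : ∀ i, W i,
      g (fun l => ρ l s (v l)) = c s * g v)
    (f : MultilinearMap k W M)
    (hf : ∃ Δ : Subgroup Γ, Δ.FiniteIndex ∧ ∀ s ∈ Δ, ∀ v : ∀ i, W i,
      f (fun l => ρ l s (v l)) = τ s (f v))
    (hc : ∀ l : M →ₗ[k] k, l.compMultilinearMap f ∈ Submodule.span k P) :
    f ∈ Submodule.span k {h : MultilinearMap k W M | ∃ g ∈ P, ∃ w : M,
      (∃ Δ : Subgroup Γ, Δ.FiniteIndex ∧ ∀ s ∈ Δ, τ s w = c s • w) ∧ ∀ v, h v = g v • w} := by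
  classical
  obtain ⟨S, hS1, hS2, hS3⟩ := exists_linearIndependent k P
  have hfin : Finite S := hS3.finite
  have _ : Fintype S := Fintype.ofFinite S
  -- the coefficients
  let BS : Basis S k (Submodule.span k (Set.range ((↑) : S → MultilinearMap k W k))) :=
    Basis.span hS3
  have hrange : Submodule.span k (Set.range ((↑) : S → MultilinearMap k W k)) =
      Submodule.span k P := by
    rw [Subtype.range_coe, hS2]
  let T : Module.Dual k M →ₗ[k]
      (Submodule.span k (Set.range ((↑) : S → MultilinearMap k W k))) :=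
    { toFun := fun l => ⟨l.compMultilinearMap f, by rw [hrange]; exact hc l⟩
      map_add' := fun l l' => Subtype.ext (MultilinearMap.ext fun v => rfl)
      map_smul' := fun c l => Subtype.ext (MultilinearMap.ext fun v => rfl) }
  let w : S → M := fun g => (Module.evalEquiv k M).symm ((BS.coord g).comp T)
  have hw : ∀ g (l : Module.Dual k M), l (w g) = BS.coord g (T l) := by
    intro g l
    have h1 := Module.apply_evalEquiv_symm_apply k M l ((BS.coord g).comp T)
    exact h1
  have hev : ∀ (G : S → MultilinearMap k W k) (v : ∀ i, W i), (∑ g, G g) v = ∑ g, G g v :=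
    fun G v => by rw [MultilinearMap.sum_apply]
  have hfw : ∀ v, f v = ∑ g : S, (g : MultilinearMap k W k) v • w g := by
    intro v
    rw [← sub_eq_zero, ← Module.forall_dual_apply_eq_zero_iff k]
    intro l
    rw [map_sub, map_sum, sub_eq_zero]
    have h1 : l (f v) = ((T l : Submodule.span k (Set.range ((↑) : S →
        MultilinearMap k W k))) : MultilinearMap k W k) v := rfl
    rw [h1]
    conv_lhs => rw [← BS.sum_repr (T l)]
    have h2 : ∀ g : S, ((BS g : Submodule.span k (Set.range ((↑) : S →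
        MultilinearMap k W k))) : MultilinearMap k W k) = (g : MultilinearMap k W k) := by
      intro g
      exact congrArg Subtype.val (Basis.span_apply hS3 g)
    rw [Submodule.coe_sum, hev]
    refine Finset.sum_congr rfl fun g _ => ?_
    rw [Submodule.coe_smul, h2, map_smul, hw, MultilinearMap.smul_apply, smul_eq_mul,
      smul_eq_mul, mul_comm]
    rfl
  -- the vectors are eigenvectors
  obtain ⟨Δ0, hΔ0, hf⟩ := hf
  choose Δ hΔ hg using fun g : S => hP _ (hS1 g.2)
  have hD : (Δ0 ⊓ ⨅ g, Δ g).FiniteIndex := by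
    have h1 := Subgroup.finiteIndex_iInf hΔ
    infer_instance
  have hwΔ : ∀ s ∈ Δ0 ⊓ ⨅ g, Δ g, ∀ g, τ s (w g) = c s • w g := by
    intro s hs g
    rw [Subgroup.mem_inf] at hs
    rw [← sub_eq_zero, ← Module.forall_dual_apply_eq_zero_iff k]
    intro l
    have h1 : ∑ g : S, (l (τ s (w g) - c s • w g)) • (g : MultilinearMap k W k) = 0 := by
      ext v
      have h2 := hf s hs.1 v
      rw [hfw, hfw, map_sum] at h2
      have h3 : ∀ g : S, (g : MultilinearMap k W k) (fun l => ρ l s (v l)) =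
          c s * (g : MultilinearMap k W k) v :=
        fun g => hg g s (Subgroup.mem_iInf.1 hs.2 g) v
      simp only [h3, map_smul] at h2
      have h4 := congrArg l h2
      rw [map_sum, map_sum] at h4
      rw [hev]
      change ∑ g : S, (l (τ s (w g) - c s • w g)) * (g : MultilinearMap k W k) v = 0
      have h6 : ∀ g : S, (l (τ s (w g) - c s • w g)) * (g : MultilinearMap k W k) v =
          l ((g : MultilinearMap k W k) v • τ s (w g)) -
          l ((c s * (g : MultilinearMap k W k) v) • w g) := by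
        intro g
        rw [map_sub, map_smul, map_smul, map_smul, smul_eq_mul, smul_eq_mul, smul_eq_mul]
        ring
      rw [Finset.sum_congr rfl (fun g _ => h6 g), Finset.sum_sub_distrib, h4, sub_self]
    exact (Fintype.linearIndependent_iff.1 hS3) _ h1 g
  have hfin2 : f = ∑ g : S, (LinearMap.toSpanSingleton k M (w g)).compMultilinearMap
      (g : MultilinearMap k W k) := by
    ext v
    rw [hfw, MultilinearMap.sum_apply]
    rfl
  rw [hfin2]
  refine Submodule.sum_mem _ fun g _ => Submodule.subset_span ⟨g, hS1 g.2, w g, ?_, fun v => rfl⟩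
  exact ⟨_, hD, fun s hs => hwΔ s hs g⟩

end Pool.Agent.V1141.OF
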