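import Pool.Agent.V1141.OF.MultiDefs

/-!
# Tate classes on products of varieties with an arbitrary representation

`V i` is the dual of the cohomology group of a variety `X i` in degree `2 * e i + 1`, with the action
`ρ i` of the Galois group `Γ`; `χ` is the cyclotomic character; `M` is the cohomology of another
variety `U` (or any other representation `τ`).
-/

set_option autoImplicit false

namespace Pool.Agent.V1141.OF

variable {k : Type} [Field k] {I : Type} {V : I → Type} [∀ i, AddCommGroup (V i)]
  [∀ i, Module k (V i)] {M : Type} [AddCommGroup M] [Module k M] {Γ : Type} [Group Γ]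
  (ρ : ∀ i, Representation k Γ (V i)) (τ : Representation k Γ M) (χ : Γ →* k) (e : I → ℕ)

/-- The multilinear map `f` in the variables `v l ∈ V (t l)` with values in `M`, an element of the
tensor product of the cohomology groups of the `X (t l)` and of `M`, is fixed by a subgroup of finite
index of the Galois group. -/
def IsTateOnTimes {n : ℕ} (t : Fin n → I) (f : MultilinearMap k (fun l => V (t l)) M) : Prop :=
  ∃ Δ : Subgroup Γ, Δ.FiniteIndex ∧ ∀ s ∈ Δ, ∀ v, f (fun l => ρ (t l) s (v l)) = τ s (f v)

/-- `f` is the product of a form `ψ`, which is itself a product of Tate classes on the products of two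
of the varieties, and of a vector `w` of `M`, which is a Tate class: a subgroup of finite index of the
Galois group acts on it through `χ ^ N`, where `2 * N` is the sum of the degrees `2 * e (t l) + 1`. -/
def IsProductTimes {n : ℕ} (t : Fin n → I) (f : MultilinearMap k (fun l => V (t l)) M) : Prop :=
  ∃ ψ : MultilinearMap k (fun l => V (t l)) k, IsProductOfTwo ρ χ e t ψ ∧
    ∃ (w : M) (N : ℕ), 2 * N = ∑ l, (2 * e (t l) + 1) ∧
      (∃ Δ : Subgroup Γ, Δ.FiniteIndex ∧ ∀ s ∈ Δ, τ s w = χ s ^ N • w) ∧ ∀ v, f v = ψ v • w

/-- All Tate classes in all tensor products of the cohomology groups (in degree `2 * e i + 1`) of the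
varieties `X i` and of `M` are linear combinations of products of Tate classes on the products
`X i × X j` and of Tate classes in `M` (in particular there are none if the number of the factors
`X (t l)` is odd). -/
def TateClassesSplit : Prop :=
  ∀ (n : ℕ) (t : Fin n → I) (f : MultilinearMap k (fun l => V (t l)) M), IsTateOnTimes ρ τ t f →
    f ∈ Submodule.span k {g | IsProductTimes ρ τ χ e t g}

/-- The eigenvalues of `γ` on the `V i` satisfy only the trivial multiplicative relations with each
other, with `χ γ` and with the number `β`: if the `N`-th power of a product of eigenvalues `α l` on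
`V (t l)` is, up to powers of `χ γ ^ N`, equal to `β ^ N`, then for every `i` and every pair of numbers
`a`, `b` with `a * b = χ γ ^ (2 * e i + 1)` (dual eigenvalues on `V i`) there are as many factors equal
to `a` as there are factors equal to `b` among the `α l` with `t l = i`. -/
def OnlyTrivialRelations (γ : Γ) (β : k) : Prop :=
  ∀ (n : ℕ) (t : Fin n → I) (α : Fin n → k) (N r r' : ℕ), 0 < N →
    (∀ l, Module.End.HasEigenvalue (ρ (t l) γ) (α l)) →
    (∏ l, α l) ^ N * χ γ ^ (N * r) = β ^ N * χ γ ^ (N * r') →
    ∀ (i : I) (a b : k), a * b = χ γ ^ (2 * e i + 1) →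
      Nat.card {l // t l = i ∧ α l = a} = Nat.card {l // t l = i ∧ α l = b}

/-- For every eigenvalue `a` of `γ` on some `V i` there is an endomorphism `σ` of the field of
coefficients which fixes a positive power of `β`, the number `χ γ` and the characteristic polynomials of
`γ` on all `V i'` (for instance if they have rational coefficients), and maps `a` to the dual eigenvalue
`χ γ ^ (2 * e i + 1) / a`. -/
def ConjugatedOver [∀ i, FiniteDimensional k (V i)] (γ : Γ) (β : k) : Prop :=
  ∀ (i : I) (a : k), Module.End.HasEigenvalue (ρ i γ) a →
    ∃ (σ : k →+* k) (j : ℕ), 0 < j ∧ σ (β ^ j) = β ^ j ∧ σ (χ γ) = χ γ ∧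
      (∀ i', (LinearMap.charpoly (ρ i' γ)).map σ = LinearMap.charpoly (ρ i' γ)) ∧
      a * σ a = χ γ ^ (2 * e i + 1)

end Pool.Agent.V1141.OF
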