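import Pool.Agent.V1141.OF.Times2
import Pool.Agent.V1141.OF.Multi
import Pool.Agent.V1141.OF.GL1
import Pool.Agent.V1141.OF.TimesDefs

/-!
# Eigenbases and dual eigenvalues
-/

set_option autoImplicit false
set_option linter.unusedSectionVars false

namespace Pool.Agent.V1141.OF

open Module Pool.Agent.H204R3.CM Pool.Agent.H204R3.SP Pool.Agent.H204R3.GP

noncomputable section

/-- A basis of eigenvectors of an endomorphism with separable characteristic polynomial. -/
theorem exists_eigenbasis_sep {k : Type} [Field k] [CharZero k] [IsAlgClosed k] {V : Type} [AddCommGroup V]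
    [Module k V] [FiniteDimensional k V] (T : Module.End k V) (hs : T.charpoly.Separable) :
    ∃ (d : ℕ) (α : Fin d → k) (b : Basis (Fin d) k V), Function.Injective α ∧
      (∀ j, T (b j) = α j • b j) ∧ ∀ a, T.HasEigenvalue a ↔ ∃ j, α j = a := by
  classical
  let S := T.charpoly.roots.toFinset
  let α : Fin S.card → k := fun j => (S.equivFin.symm j : k)
  have hinj : Function.Injective α := fun i j h => S.equivFin.symm.injective (Subtype.ext h)
  have hmonic := LinearMap.charpoly_monic T
  have hnodup : T.charpoly.roots.Nodup := Polynomial.nodup_roots hs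
  have hprod : T.charpoly = ∏ j, (Polynomial.X - Polynomial.C (α j)) := by
    have h1 : T.charpoly = (T.charpoly.roots.map fun a => Polynomial.X - Polynomial.C a).prod :=
      (IsAlgClosed.splits T.charpoly).eq_prod_roots_of_monic hmonic
    rw [h1]
    have h2 : T.charpoly.roots = S.val := by
      rw [Multiset.toFinset_val, Multiset.dedup_eq_self.2 hnodup]
    have h3 : ∏ j, (Polynomial.X - Polynomial.C (α j)) =
        ∏ a : S, (Polynomial.X - Polynomial.C (a : k)) :=
      Fintype.prod_equiv S.equivFin.symm _ _ fun j => rfl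
    rw [h3, Finset.prod_coe_sort S fun a => Polynomial.X - Polynomial.C a]
    conv_lhs => rw [h2]
    rfl
  obtain ⟨b, hb⟩ := exists_eigen T hinj hprod
  refine ⟨S.card, α, b, hinj, hb, fun a => ?_⟩
  rw [Module.End.hasEigenvalue_iff_isRoot_charpoly]
  constructor
  · intro h
    have h1 : a ∈ S := by
      rw [Multiset.mem_toFinset, Polynomial.mem_roots hmonic.ne_zero]
      exact h
    exact ⟨S.equivFin ⟨a, h1⟩, by simp only [α, Equiv.symm_apply_apply]⟩
  · rintro ⟨j, rfl⟩
    have h1 : α j ∈ S := (S.equivFin.symm j).2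
    rw [Multiset.mem_toFinset, Polynomial.mem_roots hmonic.ne_zero] at h1
    exact h1

/-- The dual eigenvalues. -/
theorem exists_inv {k : Type} [Field k] {V : Type} [AddCommGroup V] [Module k V] {d : ℕ}
    {α : Fin d → k} (b : Basis (Fin d) k V) {T : Module.End k V} (hb : ∀ j, T (b j) = α j • b j)
    (hα : Function.Injective α) (hα0 : ∀ j, α j ≠ 0) (ω : V →ₗ[k] V →ₗ[k] k) {s : k}
    (hs : s ≠ 0) (hsym : ∀ u v, ω u v = s * ω v u) (hnd : ∀ u, (∀ v, ω u v = 0) → u = 0) {c : k}
    (hT : ∀ u v, ω (T u) (T v) = c * ω u v) :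
    ∃ inv : Fin d → Fin d, (∀ j, inv (inv j) = j) ∧ (∀ j, α j * α (inv j) = c) ∧
      (∀ j l, l ≠ inv j → ω (b j) (b l) = 0) ∧ ∀ j, ω (b j) (b (inv j)) ≠ 0 := by
  have h1 : ∀ j l, ω (b j) (b l) ≠ 0 → α j * α l = c := by
    intro j l h
    have h2 := hT (b j) (b l)
    rw [hb, hb, map_smul, map_smul, LinearMap.smul_apply, smul_eq_mul, smul_eq_mul,
      ← mul_assoc, mul_comm (α l)] at h2
    exact mul_right_cancel₀ h h2
  have h2 : ∀ j, ∃ l, ω (b j) (b l) ≠ 0 := by
    intro j
    by_contra h
    push Not at h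
    apply b.ne_zero j
    apply hnd
    intro v
    have h3 : ω (b j) = 0 := b.ext fun l => by rw [h l, LinearMap.zero_apply]
    rw [h3, LinearMap.zero_apply]
  choose inv hinv using h2
  have h3 : ∀ j l, ω (b j) (b l) ≠ 0 → l = inv j := by
    intro j l h
    apply hα
    apply mul_left_cancel₀ (hα0 j)
    rw [h1 j l h, h1 j _ (hinv j)]
  refine ⟨inv, fun j => ?_, fun j => h1 j _ (hinv j), fun j l h => ?_, hinv⟩
  · refine (h3 (inv j) j fun h0 => hinv j ?_).symm
    rw [hsym, h0, mul_zero]
  · by_contra h0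
    exact h (h3 j l h0)

/-- An eigenvalue of a power is a power of an eigenvalue. -/
theorem exists_eigenvalue_of_pow {k : Type} [Field k] [IsAlgClosed k] {M : Type} [AddCommGroup M]
    [Module k M] [FiniteDimensional k M] (S : Module.End k M) {N : ℕ} (hN : 0 < N) {P : k} {w : M}
    (hw : w ≠ 0) (hSw : (S ^ N) w = P • w) : ∃ β, S.HasEigenvalue β ∧ β ^ N = P := by
  have h1 : (S ^ N).HasEigenvalue P :=
    Module.End.hasEigenvalue_of_hasEigenvector ⟨Module.End.mem_eigenspace_iff.2 hSw, hw⟩
  have h2 := Module.End.hasEigenvalue_iff_mem_spectrum.1 h1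
  rw [spectrum.map_pow_of_pos S hN] at h2
  obtain ⟨β, h3, h4⟩ := h2
  exact ⟨β, Module.End.hasEigenvalue_iff_mem_spectrum.2 h3, h4⟩

variable {k : Type} [Field k] [CharZero k] {Γ : Type} [Group Γ] {M : Type} [AddCommGroup M]
  [Module k M]

/-- the twist of a representation by a power of the character -/
def twistM (τ : Representation k Γ M) (χ : Γ →* k) (c : ℕ) : Representation k Γ M where
  toFun s := (χ s ^ c)⁻¹ • τ s
  map_one' := by rw [map_one, one_pow, inv_one, one_smul, map_one]
  map_mul' s t := by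
    rw [map_mul, map_mul, mul_pow, mul_inv, smul_mul_smul_comm]

theorem twistM_apply (τ : Representation k Γ M) (χ : Γ →* k) (c : ℕ) (s : Γ) (w : M) :
    twistM τ χ c s w = (χ s ^ c)⁻¹ • τ s w := rfl

end

end Pool.Agent.V1141.OF
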